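import Mathlib

set_option autoImplicit false

/-! # Approximate Sullivan argument: choice of a small scale -/

namespace Pool.Agent.AS

open Filter Topology

theorem small_pow {a : ℝ} (ha : 0 < a) : Tendsto (fun δ : ℝ => δ ^ a) (𝓝[>] 0) (𝓝 0) := by
  have h : Tendsto (fun δ : ℝ => δ ^ a) (𝓝 0) (𝓝 ((0 : ℝ) ^ a)) :=
    (Real.continuousAt_rpow_const 0 a (Or.inr ha.le)).tendsto
  rw [Real.zero_rpow ha.ne'] at h
  exact h.mono_left nhdsWithin_le_nhds

theorem small_lin {a C e : ℝ} (ha : 0 < a) (he : 0 < e) :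
    ∀ᶠ δ : ℝ in 𝓝[>] 0, C * δ ^ a ≤ e := by
  have h := (small_pow ha).const_mul C
  rw [mul_zero] at h
  exact (h.eventually (gt_mem_nhds he)).mono fun δ hδ => hδ.le

/-- `C δ^b < e δ^a` for small `δ` when `a < b`. -/
theorem small_cmp {a b C e : ℝ} (hab : a < b) (he : 0 < e) :
    ∀ᶠ δ : ℝ in 𝓝[>] 0, C * δ ^ b < e * δ ^ a := by
  have h := (small_pow (sub_pos.2 hab)).const_mul C
  rw [mul_zero] at h
  filter_upwards [h.eventually (gt_mem_nhds he), self_mem_nhdsWithin] with δ hδ hpos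
  have hpos' : (0 : ℝ) < δ := hpos
  have h1 : δ ^ b = δ ^ (b - a) * δ ^ a := by
    rw [← Real.rpow_add hpos']
    congr 1
    ring
  rw [h1, ← mul_assoc]
  exact mul_lt_mul_of_pos_right hδ (Real.rpow_pos_of_pos hpos' _)

theorem small_main {τ τ' A : ℝ} (hτ : τ < τ') (hτ' : 0 < τ') (hA : 0 < A) :
    ∀ᶠ δ : ℝ in 𝓝[>] 0, (1 / 3 : ℝ) ^ (⌊A / δ ^ τ'⌋₊ - 1) * Real.exp (δ ^ (-τ)) ≤ δ := by
  have hl3 : 0 < Real.log 3 := Real.log_pos (by norm_num)
  have hinv : Tendsto (fun δ : ℝ => δ⁻¹) (𝓝[>] 0) atTop := tendsto_inv_nhdsGT_zero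
  have h1 : (fun y : ℝ => y ^ τ) =o[atTop] fun y : ℝ => y ^ τ' := by
    refine (Asymptotics.isLittleO_iff_tendsto' ?_).2 ?_
    · filter_upwards [eventually_gt_atTop 0] with y hy h
      exact absurd h (Real.rpow_pos_of_pos hy _).ne'
    · have h := tendsto_rpow_neg_atTop (sub_pos.2 hτ)
      refine h.congr' ?_
      filter_upwards [eventually_gt_atTop 0] with y hy
      rw [← Real.rpow_sub hy]
      congr 1
      ring
  have h2 : Real.log =o[atTop] fun y : ℝ => y ^ τ' := isLittleO_log_rpow_atTop hτ'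
  have h3 : (fun _ : ℝ => 2 * Real.log 3) =o[atTop] fun y : ℝ => y ^ τ' := by
    refine Asymptotics.isLittleO_const_left.2 (Or.inr ?_)
    exact tendsto_norm_atTop_atTop.comp (tendsto_rpow_atTop hτ')
  have h4 : (fun y : ℝ => y ^ τ + Real.log y + 2 * Real.log 3) =o[atTop] fun y : ℝ => y ^ τ' :=
    (h1.add h2).add h3
  have hc : 0 < A * Real.log 3 := mul_pos hA hl3
  have h5 := hinv.eventually (h4.bound hc)
  filter_upwards [h5, self_mem_nhdsWithin] with δ hδ hpos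
  have hpos' : (0 : ℝ) < δ := hpos
  have e1 : δ⁻¹ ^ τ = δ ^ (-τ) := by
    rw [Real.rpow_neg hpos'.le, Real.inv_rpow hpos'.le]
  have e2 : δ⁻¹ ^ τ' = (δ ^ τ')⁻¹ := by
    rw [Real.inv_rpow hpos'.le]
  have hd : 0 < δ ^ τ' := Real.rpow_pos_of_pos hpos' _
  rw [e1, e2, Real.log_inv, Real.norm_eq_abs, Real.norm_eq_abs,
    abs_of_pos (inv_pos.2 hd)] at hδ
  have hδ' := (le_abs_self _).trans hδ
  set n := ⌊A / δ ^ τ'⌋₊ with hn
  have hfl : A / δ ^ τ' < n + 1 := Nat.lt_floor_add_one _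
  have hn1 : (n : ℝ) - 1 ≤ ((n - 1 : ℕ) : ℝ) := by
    have : n ≤ (n - 1) + 1 := by omega
    have h : (n : ℝ) ≤ ((n - 1 : ℕ) : ℝ) + 1 := by exact_mod_cast this
    linarith
  have hN : A / δ ^ τ' - 2 ≤ ((n - 1 : ℕ) : ℝ) := by linarith
  have e3 : (1 / 3 : ℝ) ^ (n - 1) = Real.exp (-((n - 1 : ℕ) : ℝ) * Real.log 3) := by
    rw [neg_mul, Real.exp_neg, ← Real.log_pow, Real.exp_log (by positivity), one_div, inv_pow]
  have e4 : δ = Real.exp (Real.log δ) := (Real.exp_log hpos').symm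
  rw [e3, ← Real.exp_add]
  conv_rhs => rw [e4]
  apply Real.exp_le_exp.2
  have h6 : (A / δ ^ τ' - 2) * Real.log 3 ≤ ((n - 1 : ℕ) : ℝ) * Real.log 3 :=
    mul_le_mul_of_nonneg_right hN hl3.le
  have h7 : A * Real.log 3 * (δ ^ τ')⁻¹ = A / δ ^ τ' * Real.log 3 := by
    rw [div_eq_mul_inv]; ring
  rw [h7] at hδ'
  linarith

end Pool.Agent.AS
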