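import Pool.Agent.AS.Defs
import Pool.Agent.AS.Small

set_option autoImplicit false

/-! # Approximate Sullivan argument: the base theorem from the modules -/

namespace Pool.Agent.AS

open Complex Metric Set Filter Topology MeasureTheory
open scoped ComplexConjugate

theorem ct_continuous (hH : Stmt_CtHolder) {ρ : ℝ} {ν : ℂ → ℂ} (hν : Adm ν ρ) :
    Continuous (ct ν) := by
  obtain ⟨C, hC, h⟩ := hH ρ (1 / 2) (by norm_num) (by norm_num)
  rw [continuous_iff_continuousAt]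
  intro z
  rw [ContinuousAt, tendsto_iff_norm_sub_tendsto_zero]
  have h1 : Tendsto (fun w : ℂ => C * ‖w - z‖ ^ (1 / 2 : ℝ)) (𝓝 z) (𝓝 0) := by
    have hc : Continuous fun w : ℂ => C * ‖w - z‖ ^ (1 / 2 : ℝ) := by
      refine continuous_const.mul ?_
      exact ((continuous_id.sub continuous_const).norm).rpow_const fun _ => Or.inr (by norm_num)
    have := hc.tendsto z
    simpa using this
  exact squeeze_zero (fun _ => norm_nonneg _) (fun w => h ν hν w z) h1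

/-- The indicator function of a closed disc. -/
noncomputable def mu (w : ℂ) (a : ℝ) (u : ℂ) : ℂ := (closedBall w a).indicator (fun _ => 1) u

theorem mu_measurable (w : ℂ) (a : ℝ) : Measurable (mu w a) :=
  measurable_const.indicator measurableSet_closedBall

theorem mu_of_mem {w : ℂ} {a : ℝ} {u : ℂ} (h : u ∈ closedBall w a) : mu w a u = 1 :=
  indicator_of_mem h _

theorem mu_of_notMem {w : ℂ} {a : ℝ} {u : ℂ} (h : u ∉ closedBall w a) : mu w a u = 0 :=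
  indicator_of_notMem h _

theorem mu_norm_le (w : ℂ) (a : ℝ) (u : ℂ) : ‖mu w a u‖ ≤ 1 := by
  by_cases h : u ∈ closedBall w a
  · rw [mu_of_mem h]; simp
  · rw [mu_of_notMem h]; simp

open Classical in
/-- The truncated invariant extension. -/
noncomputable def ext (x lam : ℂ → ℂ) (ρ : ℝ) (w : ℂ) (a : ℝ) (z : ℂ) : ℂ :=
  if ‖z‖ ≤ ρ then lam z * mu w a (x z) else 0

theorem ext_measurable {x lam : ℂ → ℂ} (hx : Measurable x) (hl : Measurable lam) (ρ : ℝ) (w : ℂ)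
    (a : ℝ) : Measurable (ext x lam ρ w a) := by
  classical
  exact Measurable.ite (measurableSet_le measurable_norm measurable_const)
    (hl.mul ((mu_measurable w a).comp hx)) measurable_const

theorem ext_adm {x lam : ℂ → ℂ} (hx : Measurable x) (hl : Measurable lam)
    (hl1 : ∀ z, ‖lam z‖ ≤ 1) (ρ : ℝ) (w : ℂ) (a : ℝ) : Adm (ext x lam ρ w a) ρ := by
  refine ⟨ext_measurable hx hl ρ w a, fun z => ?_, fun z hz => ?_⟩
  · unfold ext
    split_ifs
    · rw [norm_mul]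
      exact mul_le_one₀ (hl1 z) (norm_nonneg _) (mu_norm_le _ _ _)
    · simp
  · unfold ext
    rw [if_neg (not_le.2 hz)]

theorem ext_rel {f x lam : ℂ → ℂ} {ρ R' : ℝ}
    (hinv : ∀ z, deriv f z ≠ 0 → lam z * deriv f z = lam (f z) * conj (deriv f z) ∧
      (lam z ≠ 0 → x (f z) = x z))
    (h1 : ∀ z ∈ ball (0 : ℂ) R', ‖z‖ ≤ ρ) (h2 : ∀ z ∈ ball (0 : ℂ) R', ‖f z‖ ≤ ρ) (w : ℂ) (a : ℝ) :
    ∀ z ∈ ball (0 : ℂ) R',
      ext x lam ρ w a z * deriv f z = ext x lam ρ w a (f z) * conj (deriv f z) := by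
  intro z hz
  unfold ext
  rw [if_pos (h1 z hz), if_pos (h2 z hz)]
  by_cases hd : deriv f z = 0
  · simp [hd]
  · obtain ⟨e1, e2⟩ := hinv z hd
    by_cases hl : lam z = 0
    · rw [hl, zero_mul] at e1
      rw [hl, zero_mul, zero_mul]
      calc (0 : ℂ) = (lam (f z) * conj (deriv f z)) * mu w a (x (f z)) := by rw [← e1, zero_mul]
        _ = _ := by ring
    · rw [e2 hl]
      calc lam z * mu w a (x z) * deriv f z = (lam z * deriv f z) * mu w a (x z) := by ring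
        _ = _ := by rw [e1]; ring

/-- At most one of the discs contains a given point. -/
theorem sum_ext_adm {x lam : ℂ → ℂ} (hx : Measurable x) (hl : Measurable lam)
    (hl1 : ∀ z, ‖lam z‖ ≤ 1) (ρ : ℝ) {n : ℕ} (w : Fin n → ℂ) (a : ℝ)
    (hdisj : ∀ i j, i ≠ j → Disjoint (closedBall (w i) a) (closedBall (w j) a))
    (c : Fin n → ℂ) (hc : ∀ i, ‖c i‖ ≤ 1) : Adm (fun z => ∑ i, c i * ext x lam ρ (w i) a z) ρ := by
  refine ⟨?_, fun z => ?_, fun z hz => ?_⟩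
  · exact Finset.measurable_sum _ fun i _ => measurable_const.mul (ext_measurable hx hl ρ (w i) a)
  · by_cases hex : ∃ i, x z ∈ closedBall (w i) a
    · obtain ⟨i, hi⟩ := hex
      rw [Finset.sum_eq_single i]
      · rw [norm_mul]
        exact mul_le_one₀ (hc i) (norm_nonneg _) ((ext_adm hx hl hl1 ρ (w i) a).bd z)
      · intro j _ hj
        have hj' : x z ∉ closedBall (w j) a := fun h =>
          Set.disjoint_left.1 (hdisj i j hj.symm) hi h
        unfold ext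
        rw [mu_of_notMem hj']
        split_ifs <;> simp
      · intro h
        exact absurd (Finset.mem_univ i) h
    · push Not at hex
      have : ∑ i, c i * ext x lam ρ (w i) a z = 0 := by
        refine Finset.sum_eq_zero fun i _ => ?_
        unfold ext
        rw [mu_of_notMem (hex i)]
        split_ifs <;> simp
      rw [this]
      simp
  · exact Finset.sum_eq_zero fun i _ => by
      rw [(ext_adm hx hl hl1 ρ (w i) a).supp z hz, mul_zero]

theorem base (hB : Stmt_CtBound) (hH : Stmt_CtHolder) (hHol : Stmt_CtHol) (hSum : Stmt_CtSum)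
    (hCirc : Stmt_CtCircle) (hEta : Stmt_EtaHol) (hExt : Stmt_Ext) (hKill : Stmt_Kill)
    (hOrb : Stmt_Orbit) (hGeo : Stmt_Geo) (hSq : Stmt_Sqrt) (hCmp : Stmt_Cmp) : Stmt_Base := by
  intro f hf hnc Ω hΩo hΩb hch q r hq hr hinj hdis R τ hR hτ0 hτ1
  have hqΩ : q ∉ Ω := by
    intro h
    rw [hΩo.frontier_eq] at hq
    exact hq.2 h
  set W : Set ℂ := Ω ∩ ball q r with hWdef
  have hWo : IsOpen W := hΩo.inter isOpen_ball
  obtain ⟨x, lam, hx, hlam, hlam1, hW, hinv⟩ := hExt f W hf hWo hinj hdis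
  -- constants
  set R' : ℝ := 3 * R with hR'
  have hR'0 : 0 < R' := by positivity
  obtain ⟨F0, hF0⟩ := (isCompact_closedBall (0 : ℂ) R').exists_bound_of_continuousOn
    hf.continuous.continuousOn
  have hfd : Continuous (deriv f) := (hf.contDiff (n := 1)).continuous_deriv le_rfl
  obtain ⟨L0, hL0⟩ := (isCompact_closedBall (0 : ℂ) R').exists_bound_of_continuousOn
    hfd.continuousOn
  have hL00 : 0 ≤ L0 := (norm_nonneg _).trans (hL0 0 (mem_closedBall_self hR'0.le))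
  set ρ : ℝ := max (‖q‖ + r) (max R' F0) with hρ
  have hρ1 : ∀ z ∈ ball q r, ‖z‖ ≤ ρ := by
    intro z hz
    have h1 : ‖z‖ ≤ ‖q‖ + ‖z - q‖ := by
      calc ‖z‖ = ‖q + (z - q)‖ := by rw [add_sub_cancel]
        _ ≤ _ := norm_add_le _ _
    have h2 : ‖z - q‖ < r := by rwa [mem_ball, dist_eq_norm] at hz
    exact (by linarith : ‖z‖ ≤ ‖q‖ + r).trans (le_max_left _ _)
  have hρ2 : ∀ z ∈ ball (0 : ℂ) R', ‖z‖ ≤ ρ := by
    intro z hz
    rw [mem_ball_zero_iff] at hz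
    exact hz.le.trans ((le_max_left _ _).trans (le_max_right _ _))
  have hρ3 : ∀ z ∈ ball (0 : ℂ) R', ‖f z‖ ≤ ρ := by
    intro z hz
    exact (hF0 z (ball_subset_closedBall hz)).trans ((le_max_right _ _).trans (le_max_right _ _))
  obtain ⟨C1, hC10, hC1⟩ := hB ρ
  set τ' : ℝ := (1 + τ) / 2 with hτ'
  have hττ' : τ < τ' := by rw [hτ']; linarith
  have hτ'0 : 0 < τ' := by rw [hτ']; linarith
  have hτ'1 : τ' < 1 := by rw [hτ']; linarith
  set η : ℝ := (1 - τ') / 2 with hη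
  have hη0 : 0 < η := by rw [hη]; linarith
  have hη1 : η < 1 := by rw [hη]; linarith
  set α : ℝ := 1 - η with hα
  have hα0 : 0 < α := by rw [hα]; linarith
  have hα1 : α < 1 := by rw [hα]; linarith
  have hαα : τ' < α * α := by
    have : α * α - τ' = ((1 - τ') / 2) ^ 2 := by rw [hα, hη]; ring
    have h2 : 0 < ((1 - τ') / 2) ^ 2 := by
      have : 0 < (1 - τ') / 2 := by linarith
      positivity
    linarith
  obtain ⟨Cα, hCα0, hCα⟩ := hH ρ α hα0 hα1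
  obtain ⟨κ, M, K, hκ0, hκ1, hM, hK, hcmp⟩ := hCmp η hη0 hη1
  obtain ⟨p₀, ρ₀, hρ₀, hsub, hgeo⟩ := hGeo Ω hΩo hch q hq r hr
  set Λ : ℝ := M + 2 with hΛ
  have hΛ4 : 4 ≤ Λ := by rw [hΛ]; linarith
  set B : ℝ := C1 + L0 * C1 with hBdef
  have hB0 : 0 < B := by
    have : 0 ≤ L0 * C1 := mul_nonneg hL00 hC10.le
    rw [hBdef]; linarith
  set C3 : ℝ := C1 + 2 * B + Cα with hC3
  have hC30 : 0 < C3 := by rw [hC3]; positivity
  set A : ℝ := ρ₀ / (2 * Λ) with hA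
  have hA0 : 0 < A := by rw [hA]; positivity
  -- the small scale
  have hev : ∀ᶠ δ : ℝ in 𝓝[>] 0, 0 < δ ∧ δ < 1 ∧
      (1 / 3 : ℝ) ^ (⌊A / δ ^ τ'⌋₊ - 1) * Real.exp (δ ^ (-τ)) ≤ δ ∧
      C3 * δ ^ α ≤ 1 ∧ (2 * M + 1) * δ ^ τ' ≤ 5 / 2 * ρ₀ ∧ 1 * δ ^ τ' ≤ A ∧
      (K * (C1 + 1) * C3 ^ α) * δ ^ (α * α) < 2 * κ ^ 2 * δ ^ τ' := by
    have h0 : ∀ᶠ δ : ℝ in 𝓝[>] 0, 0 < δ := self_mem_nhdsWithin
    have h1 : ∀ᶠ δ : ℝ in 𝓝[>] 0, δ < 1 := (gt_mem_nhds one_pos).filter_mono nhdsWithin_le_nhds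
    exact h0.and (h1.and ((small_main hττ' hτ'0 hA0).and ((small_lin hα0 one_pos).and
      ((small_lin hτ'0 (by positivity)).and ((small_lin hτ'0 hA0).and
        (small_cmp hαα (by positivity)))))))
  rw [eventually_nhdsWithin_iff, Metric.eventually_nhds_iff] at hev
  obtain ⟨δ₀, hδ₀, hev⟩ := hev
  refine ⟨δ₀, hδ₀, fun δ hδ hδδ₀ => ?_⟩
  obtain ⟨-, hδ1, hsm1, hsm2, hsm3, hsm4, hsm5⟩ := hev (y := δ) (by
    rw [Real.dist_eq, sub_zero, abs_of_pos hδ]
    exact hδδ₀) hδ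
  by_contra hcon
  push Not at hcon
  set d : ℝ := δ ^ τ' with hd
  have hd0 : 0 < d := Real.rpow_pos_of_pos hδ _
  rw [one_mul] at hsm4
  set n0 : ℕ := ⌊A / d⌋₊ with hn0
  have hn01 : 1 ≤ n0 := by
    rw [hn0, Nat.one_le_floor_iff]
    rw [le_div_iff₀ hd0]
    linarith
  obtain ⟨N, hN⟩ : ∃ N, n0 = N + 1 := ⟨n0 - 1, by omega⟩
  have hNd : ((N : ℝ) + 1) * (Λ * d) ≤ ρ₀ / 2 := by
    have h1 : (n0 : ℝ) ≤ A / d := Nat.floor_le (by positivity)
    have h2 : ((N : ℝ) + 1) ≤ A / d := by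
      have : (n0 : ℝ) = (N : ℝ) + 1 := by rw [hN]; push_cast; ring
      linarith
    rw [le_div_iff₀ hd0] at h2
    have h3 : ((N : ℝ) + 1) * d * Λ ≤ A * Λ := mul_le_mul_of_nonneg_right h2 (by linarith)
    have h4 : A * Λ = ρ₀ / 2 := by
      rw [hA]
      field_simp
    calc ((N : ℝ) + 1) * (Λ * d) = ((N : ℝ) + 1) * d * Λ := by ring
      _ ≤ _ := by rw [← h4]; exact h3
  -- the points `w i`
  have hti : ∀ i : Fin (N + 1), ((i : ℕ) : ℝ) + 1 ≤ (N : ℝ) + 1 := by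
    intro i
    have : ((i : ℕ) : ℝ) ≤ (N : ℝ) := by exact_mod_cast Nat.lt_succ_iff.1 i.2
    linarith
  have hLd : 0 < Λ * d := by positivity
  have hex : ∀ i : Fin (N + 1), ∃ w ∈ Ω, dist w p₀ = (((i : ℕ) : ℝ) + 1) * (Λ * d) ∧
      infDist w Ωᶜ = d := by
    intro i
    refine hgeo _ d hd0 ?_ ?_
    · have h1 : (0 : ℝ) ≤ ((i : ℕ) : ℝ) := Nat.cast_nonneg _
      have h2 : d ≤ Λ * d := by nlinarith
      nlinarith
    · exact (mul_le_mul_of_nonneg_right (hti i) hLd.le).trans hNd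
  choose w hwΩ hwp hwd using hex
  have hclc : IsClosed Ωᶜ := hΩo.isClosed_compl
  have hex2 : ∀ i : Fin (N + 1), ∃ p ∈ Ωᶜ, infDist (w i) Ωᶜ = dist (w i) p := fun i =>
    hclc.exists_infDist_eq_dist ⟨q, hqΩ⟩ (w i)
  choose p hpΩ hpd using hex2
  have hwpd : ∀ i, dist (w i) (p i) = d := fun i => by rw [← hpd i, hwd i]
  have hballΩ : ∀ i, ball (w i) d ⊆ Ω := by
    intro i z hz
    by_contra hzΩ
    have h1 : infDist (w i) Ωᶜ ≤ dist (w i) z := infDist_le_dist_of_mem hzΩ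
    rw [hwd i] at h1
    rw [mem_ball, dist_comm] at hz
    linarith
  have hwp2 : ∀ i, dist (w i) p₀ ≤ ρ₀ / 2 := fun i => by
    rw [hwp i]
    exact (mul_le_mul_of_nonneg_right (hti i) hLd.le).trans hNd
  have hsep : ∀ i j, i ≠ j → Λ * d ≤ dist (w i) (w j) := by
    intro i j hij
    have h1 : |dist (w i) p₀ - dist (w j) p₀| ≤ dist (w i) (w j) :=
      abs_dist_sub_le (w i) (w j) p₀
    have h2 : (1 : ℝ) ≤ |((i : ℕ) : ℝ) - ((j : ℕ) : ℝ)| := by
      have h3 : (((i : ℕ) : ℤ) - ((j : ℕ) : ℤ)) ≠ 0 := by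
        intro h
        apply hij
        apply Fin.ext
        omega
      have h4 := Int.one_le_abs h3
      have h5 : ((1 : ℤ) : ℝ) ≤ ((|((i : ℕ) : ℤ) - ((j : ℕ) : ℤ)| : ℤ) : ℝ) := by exact_mod_cast h4
      push_cast at h5
      simpa using h5
    have h6 : dist (w i) p₀ - dist (w j) p₀ = (((i : ℕ) : ℝ) - ((j : ℕ) : ℝ)) * (Λ * d) := by
      rw [hwp i, hwp j]; ring
    rw [h6, abs_mul, abs_of_pos hLd] at h1
    exact le_trans (by nlinarith) h1
  set a : ℝ := κ * d with ha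
  have ha0 : 0 < a := by positivity
  have had : a < d / 2 := by rw [ha]; nlinarith
  have hdisjQ : ∀ i j, i ≠ j → Disjoint (closedBall (w i) a) (closedBall (w j) a) := by
    intro i j hij
    refine closedBall_disjoint_closedBall ?_
    have := hsep i j hij
    nlinarith
  have hball : ∀ i, ∀ u, dist u (w i) ≤ (2 * M + 1) * d → u ∈ ball q r := by
    intro i u hu
    apply hsub
    rw [mem_closedBall]
    calc dist u p₀ ≤ dist u (w i) + dist (w i) p₀ := dist_triangle _ _ _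
      _ ≤ (2 * M + 1) * d + ρ₀ / 2 := add_le_add hu (hwp2 i)
      _ ≤ 3 * ρ₀ := by linarith
  -- the vector fields
  set ν : Fin (N + 1) → ℂ → ℂ := fun i => ext x lam ρ (w i) a with hν
  have hνadm : ∀ i, Adm (ν i) ρ := fun i => ext_adm hx hlam hlam1 ρ (w i) a
  set ηf : Fin (N + 1) → ℂ → ℂ := fun i z => ct (ν i) (f z) - deriv f z * ct (ν i) z with hηf
  have hηd : ∀ i, DifferentiableOn ℂ (ηf i) (ball 0 R') := fun i =>
    hEta ρ R' f (ν i) hf hnc (hνadm i) (ext_rel hinv hρ2 hρ3 (w i) a)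
  obtain ⟨c, hc1, ⟨i₀, hi₀⟩, hkill⟩ := hKill N R' ηf hR'0 hηd
  set νc : ℂ → ℂ := fun z => ∑ i, c i * ν i z with hνc
  have hνcadm : Adm νc ρ := sum_ext_adm hx hlam hlam1 ρ w a hdisjQ c hc1
  set ξ : ℂ → ℂ := ct νc with hξ
  have hξC1 : ∀ z, ‖ξ z‖ ≤ C1 := hC1 νc hνcadm
  have hξcont : Continuous ξ := ct_continuous hH hνcadm
  have hξs : ∀ z, ξ z = ∑ i, c i * ct (ν i) z := hSum ρ (N + 1) ν hνadm c
  have hηs : ∀ z, ∑ i, c i * ηf i z = ξ (f z) - deriv f z * ξ z := by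
    intro z
    rw [hξs, hξs, Finset.mul_sum, ← Finset.sum_sub_distrib]
    refine Finset.sum_congr rfl fun i _ => ?_
    rw [hηf]
    ring
  have hηB : ∀ z ∈ ball (0 : ℂ) R', ‖∑ i, c i * ηf i z‖ ≤ B := by
    intro z hz
    rw [hηs]
    calc ‖ξ (f z) - deriv f z * ξ z‖ ≤ ‖ξ (f z)‖ + ‖deriv f z * ξ z‖ := norm_sub_le _ _
      _ ≤ C1 + L0 * C1 := by
        rw [norm_mul]
        exact add_le_add (hξC1 _) (mul_le_mul (hL0 z (ball_subset_closedBall hz)) (hξC1 z)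
          (norm_nonneg _) hL00)
  have hηsmall : ∀ z : ℂ, ‖z‖ < R → ‖ξ (f z) - deriv f z * ξ z‖ ≤ 2 * B * (1 / 3) ^ N := by
    intro z hz
    rw [← hηs]
    refine hkill B hηB z ?_
    rw [hR']
    linarith
  -- `ξ` is small on the boundary
  have hN' : n0 - 1 = N := by omega
  have hsm1' : (1 / 3 : ℝ) ^ N * Real.exp (δ ^ (-τ)) ≤ δ := by
    rw [hN'] at hsm1
    exact hsm1
  set m : ℝ := C3 * δ ^ α with hm
  have hδα : 0 < δ ^ α := Real.rpow_pos_of_pos hδ _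
  have hm0 : 0 < m := mul_pos hC30 hδα
  have hδle : δ ≤ δ ^ α := by
    conv_lhs => rw [← Real.rpow_one δ]
    exact Real.rpow_le_rpow_of_exponent_ge hδ hδ1.le hα1.le
  have hbd : ∀ z ∈ ball q r ∩ frontier Ω, ‖ξ z‖ ≤ m := by
    intro z hz
    obtain ⟨v, hv, n, hvR, hvd, hvs⟩ := hcon z hz
    have hdn0 : deriv (f^[n]) v ≠ 0 := by
      intro h
      rw [h, norm_zero] at hvd
      have : 0 < 1 / δ := by positivity
      linarith
    have h1 := hOrb f ξ hf n v hdn0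
    have h2 : ‖ξ (f^[n] v)‖ * ‖deriv (f^[n]) v‖⁻¹ ≤ C1 * δ := by
      refine mul_le_mul (hξC1 _) ?_ (inv_nonneg.2 (norm_nonneg _)) hC10.le
      rw [inv_le_comm₀ (norm_pos_iff.2 hdn0) hδ]
      simpa using hvd
    have h3 : ∑ j ∈ Finset.range n, ‖ξ (f (f^[j] v)) - deriv f (f^[j] v) * ξ (f^[j] v)‖ *
        ‖deriv (f^[j + 1]) v‖⁻¹ ≤ 2 * B * (1 / 3) ^ N * Real.exp (δ ^ (-τ)) := by
      calc _ ≤ ∑ j ∈ Finset.range n, 2 * B * (1 / 3) ^ N * ‖deriv (f^[j + 1]) v‖⁻¹ := by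
            refine Finset.sum_le_sum fun j hj => ?_
            exact mul_le_mul_of_nonneg_right (hηsmall _ (hvR j (Finset.mem_range.1 hj)))
              (inv_nonneg.2 (norm_nonneg _))
        _ = 2 * B * (1 / 3) ^ N * ∑ j ∈ Finset.range n, ‖deriv (f^[j + 1]) v‖⁻¹ := by
            rw [Finset.mul_sum]
        _ ≤ _ := mul_le_mul_of_nonneg_left hvs.le (by positivity)
    have h4 : 2 * B * (1 / 3) ^ N * Real.exp (δ ^ (-τ)) ≤ 2 * B * δ := by
      calc _ = 2 * B * ((1 / 3) ^ N * Real.exp (δ ^ (-τ))) := by ring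
        _ ≤ _ := mul_le_mul_of_nonneg_left hsm1' (by positivity)
    have h5 : ‖ξ v‖ ≤ (C1 + 2 * B) * δ := by linarith
    have h6 : ‖ξ z - ξ v‖ ≤ Cα * δ ^ α := by
      refine (hCα νc hνcadm z v).trans (mul_le_mul_of_nonneg_left ?_ hCα0.le)
      refine Real.rpow_le_rpow (norm_nonneg _) ?_ hα0.le
      rw [mem_ball, dist_comm, dist_eq_norm] at hv
      exact hv.le
    have h7 : ‖ξ z‖ ≤ ‖ξ v‖ + ‖ξ z - ξ v‖ := by
      calc ‖ξ z‖ = ‖ξ v + (ξ z - ξ v)‖ := by rw [add_sub_cancel]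
        _ ≤ _ := norm_add_le _ _
    have h8 : (C1 + 2 * B) * δ ≤ (C1 + 2 * B) * δ ^ α :=
      mul_le_mul_of_nonneg_left hδle (by positivity)
    calc ‖ξ z‖ ≤ (C1 + 2 * B) * δ ^ α + Cα * δ ^ α := by linarith
      _ = m := by rw [hm, hC3]; ring
  -- values of `νc` near `w i₀`
  have hνW : ∀ z ∈ W, νc z = ∑ i, c i * mu (w i) a z := by
    intro z hz
    refine Finset.sum_congr rfl fun i _ => ?_
    have h1 : ν i z = mu (w i) a z := by
      show ext x lam ρ (w i) a z = _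
      unfold ext
      rw [if_pos (hρ1 z hz.2), (hW z hz).1, (hW z hz).2, one_mul]
    rw [h1]
  have hMd : ∀ j, j ≠ i₀ → ∀ z, dist z (w i₀) ≤ (M + 1) * d → z ∉ closedBall (w j) a := by
    intro j hj z hz hzj
    rw [mem_closedBall] at hzj
    have h1 := hsep j i₀ hj
    have h2 : dist (w j) (w i₀) ≤ dist (w j) z + dist z (w i₀) := dist_triangle _ _ _
    rw [dist_comm (w j) z] at h2
    rw [hΛ] at h1
    nlinarith
  have hνval : ∀ z ∈ W, dist z (w i₀) ≤ (M + 1) * d → νc z = c i₀ * mu (w i₀) a z := by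
    intro z hz hzd
    rw [hνW z hz, Finset.sum_eq_single i₀]
    · intro j _ hj
      rw [mu_of_notMem (hMd j hj z hzd), mul_zero]
    · intro h
      exact absurd (Finset.mem_univ i₀) h
  have hmem : ∀ z ∈ ball (w i₀) d, z ∈ W ∧ dist z (w i₀) ≤ (M + 1) * d := by
    intro z hz
    have hz' : dist z (w i₀) < d := hz
    refine ⟨⟨hballΩ i₀ hz, hball i₀ z ?_⟩, ?_⟩
    · nlinarith
    · nlinarith
  -- comparison
  have hdiff : DifferentiableOn ℂ ξ ((Ω ∩ ball (p i₀) (M * d)) \ closedBall (w i₀) (κ * d)) := by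
    refine hHol ρ νc hνcadm _ ((hΩo.inter isOpen_ball).sdiff isClosed_closedBall) ?_
    rintro z ⟨⟨hzΩ, hzp⟩, hzw⟩
    have h1 : dist z (w i₀) ≤ (M + 1) * d := by
      have : dist z (w i₀) ≤ dist z (p i₀) + dist (p i₀) (w i₀) := dist_triangle _ _ _
      rw [dist_comm (p i₀), hwpd i₀] at this
      rw [mem_ball] at hzp
      linarith
    have h2 : z ∈ W := ⟨hzΩ, hball i₀ z (by nlinarith)⟩
    rw [hνval z h2 h1, mu_of_notMem hzw, mul_zero]
  have hfr : ∀ z ∈ frontier Ω ∩ ball (p i₀) (2 * M * d), ‖ξ z‖ ≤ m := by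
    rintro z ⟨hz1, hz2⟩
    refine hbd z ⟨hball i₀ z ?_, hz1⟩
    have : dist z (w i₀) ≤ dist z (p i₀) + dist (p i₀) (w i₀) := dist_triangle _ _ _
    rw [dist_comm (p i₀), hwpd i₀] at this
    rw [mem_ball] at hz2
    linarith
  have hfin := hcmp Ω hΩo hΩb (hSq Ω hΩo hΩb hch) (p i₀) (w i₀) d hd0 (hpΩ i₀) (hwpd i₀) (hwd i₀)
    ξ C1 m hξcont hξC1 hdiff hm0 hsm2 hfr
  have hcirc := hCirc ρ νc hνcadm (w i₀) (c i₀) a (d / 2) d _ ha0 had (by linarith)
    (fun u hu => by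
      have hu' : u ∈ ball (w i₀) d := by
        rw [mem_closedBall] at hu
        rw [mem_ball]
        linarith
      rw [hνval u (hmem u hu').1 (hmem u hu').2, mu_of_mem hu, mul_one])
    (fun u hu => by
      rw [hνval u (hmem u hu.1).1 (hmem u hu.1).2, mu_of_notMem hu.2, mul_zero])
    hfin
  rw [hi₀, mul_one] at hcirc
  have hmα : m ^ (1 - η) = C3 ^ α * δ ^ (α * α) := by
    rw [← hα, hm, Real.mul_rpow hC30.le hδα.le, ← Real.rpow_mul hδ.le]
  rw [hmα] at hcirc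
  have h9 : 2 * κ ^ 2 * d ≤ K * (C1 + 1) * (C3 ^ α * δ ^ (α * α)) := by
    have h10 : a ^ 2 = d / 2 * (2 * κ ^ 2 * d) := by rw [ha]; ring
    rw [h10] at hcirc
    exact le_of_mul_le_mul_left hcirc (by positivity)
  have h11 : K * (C1 + 1) * (C3 ^ α * δ ^ (α * α)) = K * (C1 + 1) * C3 ^ α * δ ^ (α * α) := by ring
  rw [h11] at h9
  linarith

end Pool.Agent.AS
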