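import Pool.Agent.AS.Defs

set_option autoImplicit false

/-! # AS Cmp: comparison with the square root by the maximum principle -/

namespace Pool.Agent.AS

open Complex Metric Set Filter Topology

/-- on a small disc the square root stays in the half plane of its value at the centre -/
private theorem cmp_disc {s : ℂ → ℂ} {w p : ℂ} {d r : ℝ} (hd : 0 < d) (hwp : dist w p = d)
    (hr0 : 0 < r) (hr : r ≤ d) (hcont : ContinuousOn s (ball w r))
    (hs : ∀ z ∈ ball w r, s z ^ 2 = z - p) : ∀ z ∈ ball w r, ‖s w‖ ≤ ‖s z + s w‖ := by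
  have hw : w ∈ ball w r := mem_ball_self hr0
  have hsw : s w ^ 2 = w - p := hs w hw
  have hn : ‖w - p‖ = d := by rw [← dist_eq_norm]; exact hwp
  have hwp' : w - p ≠ 0 := by
    intro h; rw [h, norm_zero] at hn; linarith
  have hsw0 : s w ≠ 0 := by
    intro h; rw [h] at hsw; apply hwp'; rw [← hsw]; simp
  have hA : ContinuousOn (fun z => (s z / s w).re) (ball w r) :=
    continuous_re.comp_continuousOn (hcont.div_const _)
  have hne : ∀ z ∈ ball w r, (s z / s w).re ≠ 0 := by
    intro z hz h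
    have h1 : (s z / s w) ^ 2 = 1 + (z - w) / (w - p) := by
      rw [div_pow, hs z hz, hsw]; field_simp; ring
    have h2 : ((s z / s w) ^ 2).re ≤ 0 := by
      rw [sq, Complex.mul_re, h]; nlinarith [sq_nonneg (s z / s w).im]
    rw [h1, Complex.add_re, one_re] at h2
    have h3 : ‖(z - w) / (w - p)‖ < 1 := by
      rw [norm_div, hn, div_lt_one hd]
      have : dist z w < r := hz
      rw [dist_eq_norm] at this
      linarith
    have h4 := Complex.abs_re_le_norm ((z - w) / (w - p))
    have h5 := neg_abs_le ((z - w) / (w - p)).re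
    linarith
  intro z hz
  have hpos : 0 < (s z / s w).re := by
    by_contra hcon
    push Not at hcon
    have h1 : (s w / s w).re = 1 := by rw [div_self hsw0]; simp
    have h2 : (0 : ℝ) ∈ Icc ((s z / s w).re) ((s w / s w).re) := ⟨hcon, by rw [h1]; norm_num⟩
    obtain ⟨z', hz', h0⟩ := (convex_ball w r).isPreconnected.intermediate_value hz hw hA h2
    exact hne z' hz' h0
  have e1 : s z + s w = s w * (s z / s w + 1) := by field_simp
  rw [e1, norm_mul]
  have h6 : (1 : ℝ) ≤ ‖s z / s w + 1‖ := by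
    have := Complex.re_le_norm (s z / s w + 1)
    rw [Complex.add_re, one_re] at this
    linarith
  nlinarith [norm_nonneg (s w)]

private theorem cmp_b_le {σ t u x : ℝ} (hσ : 0 < σ) (ht : 0 < t) (hu : 0 ≤ u)
    (hx : x ≤ (t + 2 * σ) * t) (hut : σ ≤ u * t) : x * σ / t ^ 3 ≤ u + 2 * u ^ 2 := by
  rw [div_le_iff₀ (by positivity)]
  have h1 : x * σ ≤ (t + 2 * σ) * t * σ := mul_le_mul_of_nonneg_right hx hσ.le
  have h2 : (t + 2 * σ) * t * σ ≤ (t + 2 * (u * t)) * t * (u * t) := by
    have : 0 ≤ u * t := by positivity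
    gcongr
  calc x * σ ≤ (t + 2 * (u * t)) * t * (u * t) := h1.trans h2
    _ = (u + 2 * u ^ 2) * t ^ 3 := by ring

private theorem cmp_nearest {Ω : Set ℂ} (hΩ : IsOpen Ω) {z p : ℂ} (hp : p ∉ Ω) {ε : ℝ}
    (hε : 0 < ε) (hz : infDist z Ωᶜ = ε) : ∃ y ∈ frontier Ω, dist z y = ε := by
  obtain ⟨y, hy, hyd⟩ := hΩ.isClosed_compl.exists_infDist_eq_dist ⟨p, hp⟩ z
  rw [hz] at hyd
  refine ⟨y, ?_, hyd.symm⟩
  rw [hΩ.frontier_eq]
  refine ⟨?_, hy⟩
  have hsub : ball z ε ⊆ Ω := by
    intro v hv
    by_contra hcon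
    have := infDist_le_dist_of_mem (x := z) (show v ∈ Ωᶜ from hcon)
    rw [hz, dist_comm] at this
    have hv' : dist v z < ε := hv
    linarith
  apply closure_mono hsub
  rw [closure_ball z hε.ne', mem_closedBall, dist_comm]
  exact hyd.symm.le

private theorem cmp_exp {η m : ℝ} (hη0 : 0 < η) (hm0 : 0 < m) (hm1 : m ≤ 1) {X : ℝ}
    (hX : X = (345 : ℝ) ^ (1 / η)) (hX1 : 1 < X) : ∃ k : ℕ, (1 / X) ^ k ≤ m ∧
      (345 : ℝ) ^ k ≤ 345 * m ^ (-η) := by
  have hlX : 0 < Real.log X := Real.log_pos hX1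
  have hl345 : 0 < Real.log 345 := Real.log_pos (by norm_num)
  have hlog : Real.log X = 1 / η * Real.log 345 := by
    rw [hX, Real.log_rpow (by norm_num)]
  have hlm : 0 ≤ Real.log (1 / m) := Real.log_nonneg (by rw [le_div_iff₀ hm0]; linarith)
  refine ⟨⌈Real.log (1 / m) / Real.log X⌉₊, ?_, ?_⟩
  · have h1 := Nat.le_ceil (Real.log (1 / m) / Real.log X)
    rw [div_le_iff₀ hlX] at h1
    rw [one_div, inv_pow]
    have h2 : 1 / m ≤ X ^ ⌈Real.log (1 / m) / Real.log X⌉₊ := by
      rw [← Real.log_le_log_iff (by positivity) (by positivity), Real.log_pow]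
      exact h1
    rw [inv_le_comm₀ (by positivity) hm0, ← one_div]
    exact h2
  · have h1 := (Nat.ceil_lt_add_one (div_nonneg hlm hlX.le)).le
    have h3 : Real.log ((345 : ℝ) ^ ⌈Real.log (1 / m) / Real.log X⌉₊) ≤
        Real.log (345 * m ^ (-η)) := by
      rw [Real.log_pow, Real.log_mul (by norm_num) (by positivity), Real.log_rpow hm0]
      have h4 : Real.log (1 / m) / Real.log X * Real.log 345 = -η * Real.log m := by
        rw [hlog, one_div m, Real.log_inv]
        field_simp
      nlinarith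
    exact (Real.log_le_log_iff (by positivity) (by positivity)).mp h3

theorem cmp : Stmt_Cmp := by
  intro η hη0 hη1
  obtain ⟨X, hXdef⟩ : ∃ X : ℝ, X = (345 : ℝ) ^ (1 / η) := ⟨_, rfl⟩
  have hX345 : 345 ≤ X := by
    have h1 : (1 : ℝ) ≤ 1 / η := by rw [le_div_iff₀ hη0]; linarith
    calc (345 : ℝ) = 345 ^ (1 : ℝ) := by simp
      _ ≤ 345 ^ (1 / η) := Real.rpow_le_rpow_of_exponent_le (by norm_num) h1
      _ = X := hXdef.symm
  have hX0 : 0 < X := by linarith
  refine ⟨1 / (23 * X), (138 * X + 1) ^ 2, 690, by positivity, ?_, by nlinarith, by norm_num, ?_⟩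
  · rw [div_lt_div_iff₀ (by positivity) (by norm_num)]; linarith
  intro Ω hΩ hbd hsqrt p w d hd hp hwp hinf ξ C m hξ hC hdiff hm0 hm1 hfr z hz
  obtain ⟨κ, hκ⟩ : ∃ κ : ℝ, κ = 1 / (23 * X) := ⟨_, rfl⟩
  obtain ⟨M, hM⟩ : ∃ M : ℝ, M = (138 * X + 1) ^ 2 := ⟨_, rfl⟩
  rw [← hκ] at hdiff
  rw [← hM] at hdiff hfr
  have hκ0 : 0 < κ := by rw [hκ]; positivity
  have hκ2 : κ < 1 / 2 := by
    rw [hκ, div_lt_div_iff₀ (by positivity) (by norm_num)]; linarith
  have hM2 : 2 ≤ M := by rw [hM]; nlinarith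
  have hC0 : 0 ≤ C := (norm_nonneg _).trans (hC 0)
  obtain ⟨k, hk1, hk2⟩ := cmp_exp hη0 hm0 hm1 hXdef (by linarith)
  -- uniform continuity
  have huc : UniformContinuousOn ξ (closedBall p (2 * M * d)) :=
    (isCompact_closedBall p _).uniformContinuousOn_of_continuous hξ.continuousOn
  rw [Metric.uniformContinuousOn_iff] at huc
  obtain ⟨δ, hδ0, hδ⟩ := huc m hm0
  obtain ⟨ε, hε0, hεδ, hεd⟩ : ∃ ε : ℝ, 0 < ε ∧ ε < δ ∧ ε < d / 50 := by
    refine ⟨min δ (d / 50) / 2, by positivity, ?_, ?_⟩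
    · have := min_le_left δ (d / 50); linarith
    · have := min_le_right δ (d / 50)
      have : 0 < d / 50 := by positivity
      linarith
  obtain ⟨s, hsd, hss⟩ := hsqrt p hp (ε / 2) (by positivity)
  have hwE : ε / 2 < infDist w Ωᶜ := by rw [hinf]; linarith
  have hn : ‖w - p‖ = d := by rw [← dist_eq_norm]; exact hwp
  obtain ⟨σ, hσ⟩ : ∃ σ : ℝ, σ = ‖s w‖ := ⟨_, rfl⟩
  have hσ2 : σ ^ 2 = d := by rw [hσ, ← norm_pow, hss w hwE, hn]
  have hσ0 : 0 < σ := by
    rcases (norm_nonneg (s w)).eq_or_lt with h | h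
    · rw [hσ, ← h] at hσ2; simp at hσ2; linarith
    · rw [hσ]; exact h
  -- the disc
  have hdiscE : ∀ v ∈ ball w (24 / 25 * d), ε / 2 < infDist v Ωᶜ := by
    intro v hv
    have h1 : infDist w Ωᶜ ≤ infDist v Ωᶜ + dist w v := infDist_le_infDist_add_dist
    have h2 : dist v w < 24 / 25 * d := hv
    rw [dist_comm] at h2
    rw [hinf] at h1
    linarith
  have hdisc : ∀ v ∈ ball w (24 / 25 * d), σ ≤ ‖s v + s w‖ := by
    rw [hσ]
    apply cmp_disc hd hwp (by positivity) (by linarith)
    · exact hsd.continuousOn.mono fun v hv => hdiscE v hv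
    · intro v hv; exact hss v (hdiscE v hv)
  have hzw : ∀ v, ε / 2 < infDist v Ωᶜ → ‖v - w‖ = ‖s v - s w‖ * ‖s v + s w‖ := by
    intro v hv
    rw [← norm_mul]
    congr 1
    have e1 := hss v hv
    have e2 := hss w hwE
    linear_combination e2 - e1
  have htri : ∀ v, ‖s v - s w‖ ≤ ‖s v + s w‖ + 2 * σ := by
    intro v
    have : s v - s w = (s v + s w) - (s w + s w) := by ring
    rw [this]
    refine (norm_sub_le _ _).trans ?_
    have := norm_add_le (s w) (s w)
    rw [hσ]; linarith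
  have hlow : ∀ v, ε / 2 < infDist v Ωᶜ → 2 / 5 * σ ≤ ‖s v + s w‖ := by
    intro v hv
    by_contra hcon
    push Not at hcon
    have h1 := hzw v hv
    have h2 := htri v
    have h3 : ‖v - w‖ < 24 / 25 * d := by
      rw [h1, ← hσ2]
      have h0 := norm_nonneg (s v + s w)
      nlinarith [norm_nonneg (s v - s w)]
    have h4 := hdisc v (by rw [mem_ball, dist_eq_norm]; exact h3)
    linarith
  have hne : ∀ v, ε / 2 < infDist v Ωᶜ → s v + s w ≠ 0 := by
    intro v hv h
    have := hlow v hv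
    rw [h, norm_zero] at this
    linarith
  -- the comparison function
  obtain ⟨b, hb⟩ : ∃ b : ℂ → ℂ, b = fun v => (v - w) * s w / (s v + s w) ^ 3 := ⟨_, rfl⟩
  have hbn : ∀ v, ‖b v‖ = ‖v - w‖ * σ / ‖s v + s w‖ ^ 3 := by
    intro v; rw [hb]; simp only; rw [norm_div, norm_mul, norm_pow, hσ]
  have hb15 : ∀ v, ε / 2 < infDist v Ωᶜ → ‖b v‖ ≤ 15 := by
    intro v hv
    have h0 := hlow v hv
    rw [hbn]
    refine (cmp_b_le (u := 5 / 2) hσ0 (by linarith) (by norm_num) ?_ (by linarith)).trans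
      (by norm_num)
    rw [hzw v hv]
    exact mul_le_mul_of_nonneg_right (htri v) (norm_nonneg _)
  obtain ⟨G, hG⟩ : ∃ G : Set ℂ, G = {v | ε < infDist v Ωᶜ} ∩ ball p (M * d) ∩
    {v | κ * d < dist v w} := ⟨_, rfl⟩
  have hGo : IsOpen G := by
    rw [hG]
    refine (IsOpen.inter ?_ isOpen_ball).inter ?_
    · exact isOpen_lt continuous_const (continuous_infDist_pt _)
    · exact isOpen_lt continuous_const (continuous_id.dist continuous_const)
  have hGc : closure G ⊆ {v | ε ≤ infDist v Ωᶜ} ∩ closedBall p (M * d) ∩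
      {v | κ * d ≤ dist v w} := by
    apply closure_minimal
    · rw [hG]
      rintro v ⟨⟨h1, h2⟩, h3⟩
      have h1' : ε < infDist v Ωᶜ := h1
      have h3' : κ * d < dist v w := h3
      exact ⟨⟨h1'.le, ball_subset_closedBall h2⟩, h3'.le⟩
    · refine (IsClosed.inter ?_ isClosed_closedBall).inter ?_
      · exact isClosed_le continuous_const (continuous_infDist_pt _)
      · exact isClosed_le continuous_const (continuous_id.dist continuous_const)
  have hGE : ∀ v ∈ closure G, ε / 2 < infDist v Ωᶜ := by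
    intro v hv
    have : ε ≤ infDist v Ωᶜ := (hGc hv).1.1
    linarith
  have hGb : Bornology.IsBounded G := by
    apply (isBounded_ball (x := p) (r := M * d)).subset
    rw [hG]; rintro v ⟨⟨-, h2⟩, -⟩; exact h2
  have hbdiff : DifferentiableOn ℂ b {v | ε / 2 < infDist v Ωᶜ} := by
    rw [hb]
    apply DifferentiableOn.div
    · exact ((differentiable_id.sub_const w).mul_const (s w)).differentiableOn
    · exact (hsd.add_const (s w)).pow 3
    · intro v hv; exact pow_ne_zero 3 (hne v hv)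
  have hF : DiffContOnCl ℂ (fun v => ξ v * b v ^ k) G := by
    constructor
    · apply DifferentiableOn.mul
      · apply hdiff.mono
        rw [hG]
        rintro v ⟨⟨h1, h2⟩, h3⟩
        refine ⟨⟨?_, h2⟩, ?_⟩
        · by_contra hcon
          have : infDist v Ωᶜ = 0 := infDist_zero_of_mem hcon
          have h1' : ε < infDist v Ωᶜ := h1
          linarith
        · intro h4
          have h4' : dist v w ≤ κ * d := h4
          have h3' : κ * d < dist v w := h3
          linarith
      · exact (hbdiff.mono fun v hv => hGE v (subset_closure hv)).pow k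
    · apply ContinuousOn.mul hξ.continuousOn
      exact (hbdiff.continuousOn.mono fun v hv => hGE v hv).pow k
  have hfront : ∀ v ∈ frontier G, ‖ξ v * b v ^ k‖ ≤ max (2 * m * 15 ^ k) (C * κ ^ k) := by
    intro v hv
    rw [hGo.frontier_eq] at hv
    obtain ⟨hv1, hv2⟩ := hv
    have hvE := hGE v hv1
    obtain ⟨⟨c1, c2⟩, c3⟩ := hGc hv1
    have c1' : ε ≤ infDist v Ωᶜ := c1
    have c2' : dist v p ≤ M * d := c2
    have c3' : κ * d ≤ dist v w := c3
    rw [norm_mul, norm_pow]
    rcases c1'.eq_or_lt with e | e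
    · -- near the frontier of `Ω`
      apply le_max_of_le_left
      obtain ⟨y, hy, hyd⟩ := cmp_nearest hΩ hp hε0 e.symm
      have hyp : dist y p < 2 * M * d := by
        have := dist_triangle y v p
        rw [dist_comm y v, hyd] at this
        nlinarith
      have h1 := hfr y ⟨hy, hyp⟩
      have h2 := hδ v (by rw [mem_closedBall]; nlinarith) y (mem_closedBall.mpr hyp.le)
        (by rw [hyd]; exact hεδ)
      rw [dist_eq_norm] at h2
      have h3 : ‖ξ v‖ ≤ 2 * m := by
        have : ξ v = (ξ v - ξ y) + ξ y := by ring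
        rw [this]
        refine (norm_add_le _ _).trans ?_
        linarith
      have h4 : ‖b v‖ ^ k ≤ 15 ^ k := pow_le_pow_left₀ (norm_nonneg _) (hb15 v hvE) k
      exact mul_le_mul h3 h4 (by positivity) (by positivity)
    · apply le_max_of_le_right
      have hbv : ‖b v‖ ≤ κ := by
        rcases c2'.eq_or_lt with e2 | e2
        · -- far away
          have h1 : ‖s v‖ ^ 2 = ((138 * X + 1) * σ) ^ 2 := by
            rw [← norm_pow, hss v hvE, ← dist_eq_norm, e2, hM, ← hσ2]; ring
          have h2 : ‖s v‖ = (138 * X + 1) * σ := by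
            rwa [sq_eq_sq₀ (norm_nonneg _) (by positivity)] at h1
          have h3 : 138 * X * σ ≤ ‖s v + s w‖ := by
            have : s v = (s v + s w) - s w := by ring
            have h4 := norm_sub_le (s v + s w) (s w)
            rw [← this, h2, ← hσ] at h4
            linarith
          rw [hbn]
          have h5 : 0 < ‖s v + s w‖ := by
            have : 0 < 138 * X * σ := by positivity
            linarith
          refine (cmp_b_le (u := 1 / (138 * X)) hσ0 h5 (by positivity) ?_ ?_).trans ?_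
          · rw [hzw v hvE]
            exact mul_le_mul_of_nonneg_right (htri v) (norm_nonneg _)
          · rw [one_div, inv_mul_eq_div, le_div_iff₀ (by positivity)]
            linarith
          · have hu : 1 / (138 * X) ≤ 1 := by
              rw [div_le_one (by positivity)]; linarith
            have hu0 : 0 < 1 / (138 * X) := by positivity
            have hk' : κ = 6 * (1 / (138 * X)) := by rw [hκ]; field_simp; norm_num
            have hu2 : (1 / (138 * X)) ^ 2 ≤ 1 / (138 * X) := by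
              rw [sq]; exact mul_le_of_le_one_left hu0.le hu
            rw [hk']
            linarith
        · have hball : v ∈ ball p (M * d) := e2
          have e3 : dist v w = κ * d := by
            by_contra hcon
            apply hv2
            rw [hG]
            exact ⟨⟨e, hball⟩, lt_of_le_of_ne c3' (Ne.symm hcon)⟩
          have h1 : σ ≤ ‖s v + s w‖ := by
            apply hdisc
            rw [mem_ball, e3]
            nlinarith
          have h1p : 0 < ‖s v + s w‖ := lt_of_lt_of_le hσ0 h1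
          rw [hbn, ← dist_eq_norm, e3, div_le_iff₀ (by positivity), ← hσ2]
          have : σ ^ 3 ≤ ‖s v + s w‖ ^ 3 := pow_le_pow_left₀ hσ0.le h1 3
          calc κ * σ ^ 2 * σ = κ * σ ^ 3 := by ring
            _ ≤ κ * ‖s v + s w‖ ^ 3 := by gcongr
      have h4 : ‖b v‖ ^ k ≤ κ ^ k := pow_le_pow_left₀ (norm_nonneg _) hbv k
      exact mul_le_mul (hC v) h4 (by positivity) hC0
  -- the point `z`
  have hzd : dist z w = d / 2 := hz
  have hzinf : ε < infDist z Ωᶜ := by
    have h1 : infDist w Ωᶜ ≤ infDist z Ωᶜ + dist w z := infDist_le_infDist_add_dist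
    rw [dist_comm, hzd, hinf] at h1
    linarith
  have hzE : ε / 2 < infDist z Ωᶜ := by linarith
  have hzp : dist z p ≤ 3 / 2 * d := by
    have := dist_triangle z w p
    rw [hzd, hwp] at this; linarith
  have hzG : z ∈ G := by
    rw [hG]
    refine ⟨⟨hzinf, ?_⟩, ?_⟩
    · rw [mem_ball]; nlinarith
    · show κ * d < dist z w
      rw [hzd]; nlinarith
  have hmax := Complex.norm_le_of_forall_mem_frontier_norm_le hGb hF hfront (subset_closure hzG)
  rw [norm_mul, norm_pow] at hmax
  have hbz : 1 / 23 ≤ ‖b z‖ := by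
    have ha2 : ‖s z‖ ^ 2 ≤ (49 / 40 * σ) ^ 2 := by
      rw [← norm_pow, hss z hzE, ← dist_eq_norm]
      nlinarith
    have ha : ‖s z‖ ≤ 49 / 40 * σ := by
      rwa [sq_le_sq₀ (norm_nonneg _) (by positivity)] at ha2
    have ht : ‖s z + s w‖ ≤ 89 / 40 * σ := by
      refine (norm_add_le _ _).trans ?_
      rw [← hσ]; linarith
    have ht0 : 0 < ‖s z + s w‖ := by
      have := hlow z hzE
      have : 0 < 2 / 5 * σ := by positivity
      linarith
    have ht3 : ‖s z + s w‖ ^ 3 ≤ (89 / 40 * σ) ^ 3 := pow_le_pow_left₀ ht0.le ht 3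
    rw [hbn, ← dist_eq_norm, hzd, le_div_iff₀ (by positivity), ← hσ2]
    have : (0 : ℝ) < σ ^ 3 := by positivity
    nlinarith
  have hfin : ‖ξ z‖ * (1 / 23) ^ k ≤ max (2 * m * 15 ^ k) (C * κ ^ k) := by
    refine le_trans ?_ hmax
    apply mul_le_mul_of_nonneg_left _ (norm_nonneg _)
    exact pow_le_pow_left₀ (by norm_num) hbz k
  have hpos23 : (0 : ℝ) < 23 ^ k := by positivity
  have hmη : 0 < m ^ (1 - η) := by positivity
  have hfin2 : ‖ξ z‖ ≤ 23 ^ k * max (2 * m * 15 ^ k) (C * κ ^ k) := by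
    have h1 : ‖ξ z‖ = 23 ^ k * (‖ξ z‖ * (1 / 23) ^ k) := by
      rw [one_div, inv_pow]; field_simp
    rw [h1]
    exact mul_le_mul_of_nonneg_left hfin hpos23.le
  refine hfin2.trans ?_
  rw [mul_max_of_nonneg _ _ hpos23.le]
  apply max_le
  · have h1 : (23 : ℝ) ^ k * (2 * m * 15 ^ k) = 2 * m * 345 ^ k := by
      have : (345 : ℝ) ^ k = 23 ^ k * 15 ^ k := by rw [← mul_pow]; norm_num
      rw [this]; ring
    rw [h1]
    have h2 : m * m ^ (-η) = m ^ (1 - η) := by
      rw [sub_eq_add_neg, Real.rpow_add hm0, Real.rpow_one]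
    calc 2 * m * 345 ^ k ≤ 2 * m * (345 * m ^ (-η)) := by gcongr
      _ = 690 * 1 * m ^ (1 - η) := by rw [← h2]; ring
      _ ≤ 690 * (C + 1) * m ^ (1 - η) := by
        gcongr; linarith
  · have h1 : (23 : ℝ) ^ k * (C * κ ^ k) = C * (1 / X) ^ k := by
      have : κ ^ k = (1 / 23) ^ k * (1 / X) ^ k := by
        rw [← mul_pow, hκ]; congr 1; field_simp
      rw [this]
      have h23 : (23 : ℝ) ^ k * (1 / 23) ^ k = 1 := by
        rw [← mul_pow]; norm_num
      linear_combination C * (1 / X) ^ k * h23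
    rw [h1]
    have h2 : m ≤ m ^ (1 - η) := by
      calc m = m ^ (1 : ℝ) := by rw [Real.rpow_one]
        _ ≤ m ^ (1 - η) := Real.rpow_le_rpow_of_exponent_ge hm0 hm1 (by linarith)
    calc C * (1 / X) ^ k ≤ C * m ^ (1 - η) := by
          apply mul_le_mul_of_nonneg_left (hk1.trans h2) hC0
      _ ≤ 690 * (C + 1) * m ^ (1 - η) := by
        apply mul_le_mul_of_nonneg_right _ hmη.le
        linarith

end Pool.Agent.AS
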