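import Pool.Agent.AS.Defs
import Mathlib

set_option autoImplicit false

/-! # Approximate Sullivan argument: images of components, chains (B2, B3) -/

namespace Pool.Agent.AS

open Complex Metric Set Filter Topology

theorem compA_open {f : ℂ → ℂ} (hf : Differentiable ℂ f) (h0 : ∃ z, deriv f z ≠ 0) {V : Set ℂ}
    (hV : IsOpen V) : IsOpen (f '' V) := by
  have h1 : AnalyticOnNhd ℂ f univ := fun z _ => hf.analyticAt z
  rcases h1.is_constant_or_isOpen isPreconnected_univ with ⟨w, hw⟩ | h2
  · exfalso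
    obtain ⟨z, hz⟩ := h0
    apply hz
    have h3 : f = fun _ => w := funext fun z => hw z (mem_univ z)
    rw [h3]
    simp
  · exact h2 V (subset_univ V) hV

theorem compA_bdd {f : ℂ → ℂ} {R : ℝ} {V : Set ℂ} (h : Comp f R V) :
    Bornology.IsBounded V := by
  refine (isBounded_closedBall (x := (0 : ℂ)) (r := R)).subset ?_
  intro z hz
  have := h.bd 0 z hz
  rw [mem_closedBall_zero_iff]
  simpa using this

theorem compImage (h1 : Stmt_FatInv) : Stmt_CompImage := by
  intro f R V hf h0 hV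
  have hop := compA_open hf h0 hV.op
  refine ⟨hop, hV.conn.image f hf.continuous.continuousOn, ?_, ?_, ?_⟩
  · rintro _ ⟨z, hz, rfl⟩
    exact (h1 f hf h0 z).2 (hV.fat hz)
  · intro y hy
    have hcomp : IsCompact (closure V) := (compA_bdd hV).isCompact_closure
    have h2 : closure (f '' V) ⊆ f '' closure V :=
      closure_minimal (image_mono subset_closure) (hcomp.image hf.continuous).isClosed
    rw [hop.frontier_eq] at hy
    obtain ⟨w, hw, rfl⟩ := h2 hy.1
    have h3 : w ∉ V := fun h3 => hy.2 ⟨w, h3, rfl⟩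
    have h4 : w ∈ frontier V := by
      rw [hV.op.frontier_eq]
      exact ⟨hw, h3⟩
    exact fun h5 => hV.fr w h4 ((h1 f hf h0 w).1 h5)
  · rintro n _ ⟨z, hz, rfl⟩
    have := hV.bd (n + 1) z hz
    rwa [Function.iterate_succ_apply] at this

theorem compA_chain {f : ℂ → ℂ} {R : ℝ} {V : Set ℂ} (h2 : Stmt_FatMontel)
    (hf : Differentiable ℂ f) (hV : Comp f R V) {p : ℂ} (hp : p ∉ V) {ε : ℝ} (hε : 0 < ε)
    {T : ℝ} (hT : ∀ (n : ℕ) (e : ℕ → ℂ), e 0 = p → (∀ i ≤ n, e i ∉ V) →
      (∀ i < n, dist (e i) (e (i + 1)) < ε) → ‖e n‖ ≤ T) : False := by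
  set A : Set ℂ := {x | ∃ (n : ℕ) (e : ℕ → ℂ), e 0 = p ∧ (∀ i ≤ n, e i ∉ V) ∧
    (∀ i < n, dist (e i) (e (i + 1)) < ε) ∧ e n = x} with hA
  have hpA : p ∈ A := ⟨0, fun _ => p, rfl, fun _ _ => hp, fun i hi => absurd hi (Nat.not_lt_zero i), rfl⟩
  have hAb : ∀ x ∈ A, ‖x‖ ≤ T := by
    rintro x ⟨n, e, h3, h4, h5, rfl⟩
    exact hT n e h3 h4 h5
  have hext : ∀ x ∈ A, ∀ z, z ∉ V → dist x z < ε → z ∈ A := by
    rintro x ⟨n, e, h3, h4, h5, rfl⟩ z hz hd
    refine ⟨n + 1, fun i => if i ≤ n then e i else z, ?_, ?_, ?_, ?_⟩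
    · simp [h3]
    · intro i _
      by_cases h6 : i ≤ n
      · simp only [h6, if_true]
        exact h4 i h6
      · simp only [h6, if_false]
        exact hz
    · intro i hi
      rcases Nat.lt_or_eq_of_le (Nat.le_of_lt_succ hi) with h6 | h6
      · have h7 : i ≤ n := h6.le
        have h8 : i + 1 ≤ n := h6
        simp only [h7, h8, if_true]
        exact h5 i h6
      · subst h6
        have h8 : ¬ i + 1 ≤ i := by omega
        simp only [le_refl, if_true, h8, if_false]
        exact hd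
    · have h8 : ¬ n + 1 ≤ n := by omega
      simp only [h8, if_false]
  set G : Set ℂ := thickening (ε / 2) A with hG
  have hGop : IsOpen G := isOpen_thickening
  have hpG : p ∈ G := self_subset_thickening (half_pos hε) A hpA
  have hAbd : Bornology.IsBounded A := by
    refine (isBounded_closedBall (x := (0 : ℂ)) (r := T)).subset ?_
    intro z hz
    rw [mem_closedBall_zero_iff]
    exact hAb z hz
  have hGbd : Bornology.IsBounded G := hAbd.thickening
  have hfrG : ∀ z ∈ frontier G, z ∈ V := by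
    intro z hz
    by_contra hzV
    rw [hGop.frontier_eq] at hz
    have h3 : z ∈ closure G := hz.1
    rw [Metric.mem_closure_iff] at h3
    obtain ⟨y, hy, hzy⟩ := h3 (ε / 2) (half_pos hε)
    rw [hG, mem_thickening_iff] at hy
    obtain ⟨a, ha, hya⟩ := hy
    have h4 : dist a z < ε := by
      have := dist_triangle a y z
      rw [dist_comm] at hya hzy
      linarith
    have h5 := hext a ha z hzV h4
    exact hz.2 (self_subset_thickening (half_pos hε) A h5)
  have hGR : ∀ n : ℕ, ∀ z ∈ G, ‖f^[n] z‖ ≤ R := by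
    intro n z hz
    have h3 : Differentiable ℂ (f^[n]) := hf.iterate n
    exact Complex.norm_le_of_forall_mem_frontier_norm_le hGbd h3.diffContOnCl
      (fun w hw => hV.bd n w (hfrG w hw)) (subset_closure hz)
  have hGF : G ⊆ Fat f := h2 f hf G R hGop hGR
  have hGfr : ∀ z ∈ G, z ∉ frontier V := fun z hz h3 => hV.fr z h3 (hGF hz)
  set G' : Set ℂ := G \ closure V with hG'
  have hG'op : IsOpen G' := hGop.sdiff isClosed_closure
  have hpG' : p ∈ G' := by
    refine ⟨hpG, fun h3 => ?_⟩
    apply hGfr p hpG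
    rw [hV.op.frontier_eq]
    exact ⟨h3, hp⟩
  have hdisj : ∀ z ∈ V, z ∉ closure G' := by
    intro z hz h3
    rw [_root_.mem_closure_iff] at h3
    obtain ⟨y, hy1, hy2⟩ := h3 V hV.op hz
    exact hy2.2 (subset_closure hy1)
  have hcl : IsClosed G' := by
    rw [← closure_subset_iff_isClosed]
    intro z hz
    have hzV : z ∉ V := fun h3 => hdisj z h3 hz
    have hzG : z ∈ G := by
      by_contra h3
      apply hzV
      apply hfrG
      rw [hGop.frontier_eq]
      exact ⟨closure_mono sdiff_subset hz, h3⟩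
    refine ⟨hzG, fun h3 => ?_⟩
    apply hGfr z hzG
    rw [hV.op.frontier_eq]
    exact ⟨h3, hzV⟩
  have huniv : G' = univ := by
    rcases isClopen_iff.1 (⟨hcl, hG'op⟩ : IsClopen G') with h3 | h3
    · exfalso
      rw [h3] at hpG'
      exact hpG'
    · exact h3
  obtain ⟨v, hv⟩ := hV.conn.nonempty
  have h4 : v ∈ G' := by
    rw [huniv]
    exact mem_univ v
  exact h4.2 (subset_closure hv)

theorem compChain (h2 : Stmt_FatMontel) : Stmt_CompChain := by
  intro f R V hf hV p hp ε hε T
  by_contra hcon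
  refine compA_chain h2 hf hV hp hε (T := T) ?_
  intro n e h3 h4 h5
  by_contra h6
  exact hcon ⟨n, e, h3, h4, h5, not_le.1 h6⟩

end Pool.Agent.AS
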