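import Pool.Agent.AS.Defs
import Mathlib

set_option autoImplicit false

namespace Pool.Agent.AS

open Complex Metric Set Filter Topology MeasureTheory

theorem cover_injNhd (f : ℂ → ℂ) (hf : Differentiable ℂ f) (z : ℂ) (hz : deriv f z ≠ 0) :
    ∃ U : Set ℂ, IsOpen U ∧ z ∈ U ∧ InjOn f U := by
  have hs : HasStrictDerivAt f (deriv f z) z := by
    have ha : AnalyticAt ℂ f z := hf.analyticAt z
    exact ha.hasStrictDerivAt
  have he : HasStrictFDerivAt f
      ((ContinuousLinearEquiv.unitsEquivAut ℂ (Units.mk0 _ hz) : ℂ ≃L[ℂ] ℂ) : ℂ →L[ℂ] ℂ) z :=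
    hs.hasStrictFDerivAt_equiv hz
  let e := he.toOpenPartialHomeomorph f
  refine ⟨e.source, e.open_source, he.mem_toOpenPartialHomeomorph_source, ?_⟩
  exact e.injOn

theorem cover_nhds (f : ℂ → ℂ) (hf : Differentiable ℂ f) (z : ℂ) (hz : deriv f z ≠ 0) :
    Filter.map f (𝓝 z) = 𝓝 (f z) := by
  have ha : AnalyticAt ℂ f z := hf.analyticAt z
  exact ha.hasStrictDerivAt.map_nhds_eq hz

theorem cover : Stmt_Cover := by
  intro f V hf hVo hVc hVb hsc hfr hd
  have hK : IsCompact (closure V) := hVb.isCompact_closure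
  have hcl : ∀ v ∈ closure V, f v ∈ f '' V → v ∈ V := by
    intro v hv hfv
    by_contra h
    apply hfr v _ hfv
    rw [frontier, hVo.interior_eq]
    exact ⟨hv, h⟩
  -- the restricted map
  let g : V → (f '' V) := fun v => ⟨f v, mem_image_of_mem f v.2⟩
  have hg : Continuous g := by
    apply Continuous.subtype_mk
    exact hf.continuous.comp continuous_subtype_val
  have hgo : IsOpenMap g := by
    intro O hO
    have h1 : IsOpen ((↑) '' O : Set ℂ) := hVo.isOpenMap_subtype_val O hO
    have h2 : IsOpen (f '' ((↑) '' O : Set ℂ)) := by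
      rw [isOpen_iff_mem_nhds]
      rintro _ ⟨v, hv, rfl⟩
      have hvV : v ∈ V := by
        obtain ⟨w, -, rfl⟩ := hv
        exact w.2
      rw [← cover_nhds f hf v (hd v hvV)]
      exact Filter.image_mem_map (h1.mem_nhds hv)
    have h3 : g '' O = (↑) ⁻¹' (f '' ((↑) '' O : Set ℂ)) := by
      ext w
      constructor
      · rintro ⟨v, hv, rfl⟩
        exact ⟨v, ⟨v, hv, rfl⟩, rfl⟩
      · rintro ⟨_, ⟨v, hv, rfl⟩, hw⟩
        exact ⟨v, hv, Subtype.ext hw⟩
    rw [h3]
    exact h2.preimage continuous_subtype_val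
  have hgc : IsClosedMap g := by
    intro C hC
    have h1 : IsCompact (closure ((↑) '' C : Set ℂ)) := by
      apply hK.of_isClosed_subset isClosed_closure
      apply closure_mono
      rintro _ ⟨v, -, rfl⟩
      exact v.2
    have h2 : IsClosed (f '' closure ((↑) '' C : Set ℂ)) := (h1.image hf.continuous).isClosed
    have h3 : g '' C = (↑) ⁻¹' (f '' closure ((↑) '' C : Set ℂ)) := by
      ext w
      constructor
      · rintro ⟨v, hv, rfl⟩
        exact ⟨v, subset_closure ⟨v, hv, rfl⟩, rfl⟩
      · rintro ⟨v, hv, hw⟩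
        have hvV : v ∈ V := by
          apply hcl v
          · refine closure_mono ?_ hv
            rintro _ ⟨v, -, rfl⟩
            exact v.2
          · rw [hw]; exact w.2
        have hvC : (⟨v, hvV⟩ : V) ∈ C := by
          have h4 : (⟨v, hvV⟩ : V) ∈ closure C := by
            rw [closure_subtype]
            exact hv
          rwa [hC.closure_eq] at h4
        exact ⟨⟨v, hvV⟩, hvC, Subtype.ext hw⟩
    rw [h3]
    exact h2.preimage continuous_subtype_val
  have hgf : ∀ x : (f '' V), (g ⁻¹' {x}).Finite := by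
    intro x
    have hfin : {v : ℂ | v ∈ closure V ∧ f v = x}.Finite := by
      have hcs : IsCompact {v : ℂ | v ∈ closure V ∧ f v = x} := by
        have : {v : ℂ | v ∈ closure V ∧ f v = x} = closure V ∩ f ⁻¹' {(x : ℂ)} := by
          ext v; simp
        rw [this]
        exact hK.inter_right (isClosed_singleton.preimage hf.continuous)
      have hU : ∀ v ∈ {v : ℂ | v ∈ closure V ∧ f v = x}, ∃ U : Set ℂ, IsOpen U ∧ v ∈ U ∧
          InjOn f U := by
        intro v hv
        exact cover_injNhd f hf v (hd v (hcl v hv.1 (by rw [hv.2]; exact x.2)))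
      choose! U hU1 hU2 hU3 using hU
      obtain ⟨t, ht, hcov⟩ := hcs.elim_nhds_subcover U (fun v hv => (hU1 v hv).mem_nhds (hU2 v hv))
      apply t.finite_toSet.subset
      intro v hv
      obtain ⟨w, hw, hvw⟩ := mem_iUnion₂.mp (hcov hv)
      have hwS := ht w hw
      have : v = w := hU3 w hwS hvw (hU2 w hwS) (by rw [hv.2, hwS.2])
      rw [this]
      exact hw
    apply Set.Finite.of_finite_image (f := ((↑) : V → ℂ))
    · apply hfin.subset
      rintro _ ⟨v, hv, rfl⟩
      refine ⟨subset_closure v.2, ?_⟩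
      have : g v = x := hv
      exact congrArg Subtype.val this
    · exact Subtype.val_injective.injOn
  have hgl : IsLocalHomeomorph g := by
    rw [isLocalHomeomorph_iff_isOpenEmbedding_restrict]
    intro v
    obtain ⟨U, hU1, hU2, hU3⟩ := cover_injNhd f hf v (hd v v.2)
    have hO : IsOpen ((↑) ⁻¹' U : Set V) := hU1.preimage continuous_subtype_val
    refine ⟨(↑) ⁻¹' U, hO.mem_nhds hU2, ?_⟩
    apply IsOpenEmbedding.of_continuous_injective_isOpenMap
    · exact hg.comp continuous_subtype_val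
    · rintro ⟨a, ha⟩ ⟨b, hb⟩ hab
      apply Subtype.ext
      apply Subtype.ext
      exact hU3 ha hb (congrArg Subtype.val hab)
    · exact hgo.comp hO.isOpenMap_subtype_val
  have hcovm : IsCoveringMap g := by
    rw [isCoveringMap_iff_isCoveringMapOn_univ]
    apply hgc.isCoveringMapOn_of_isLocalHomeomorphOn (fun x _ => hgf x)
    exact fun e _ => hgl e
  have hWo : IsOpen (f '' V) := by
    have := hgo univ isOpen_univ
    rw [isOpen_iff_mem_nhds]
    rintro _ ⟨v, hv, rfl⟩
    rw [← cover_nhds f hf v (hd v hv)]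
    exact Filter.image_mem_map (hVo.mem_nhds hv)
  have : SimplyConnectedSpace (f '' V) := hsc
  have : LocallyPathConnectedSpace (f '' V) := hWo.locallyPathConnectedSpace
  have : PreconnectedSpace V := isPreconnected_iff_preconnectedSpace.mp hVc.isPreconnected
  intro x hx y hy hxy
  obtain ⟨σ, ⟨hσ1, hσ2⟩, -⟩ := hcovm.existsUnique_continuousMap_lifts
    (ContinuousMap.id (f '' V)) (g ⟨x, hx⟩) ⟨x, hx⟩ rfl
  have hσ3 : ∀ w, g (σ w) = w := fun w => congrFun hσ2 w
  have hEq : (fun v : V => σ (g v)) = fun v : V => v := by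
    apply hcovm.eq_of_comp_eq (σ.continuous.comp hg) continuous_id
      (funext fun v => hσ3 (g v)) ⟨x, hx⟩
    exact hσ1
  have hxy' : g ⟨x, hx⟩ = g ⟨y, hy⟩ := Subtype.ext hxy
  have h1 := congrFun hEq ⟨x, hx⟩
  have h2 := congrFun hEq ⟨y, hy⟩

  rw [hxy', h2] at h1
  exact (congrArg Subtype.val h1).symm

end Pool.Agent.AS
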