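import Mathlib

set_option autoImplicit false

/-! # Approximate Sullivan argument (MP_a853b7_an): definitions and statements of the modules

Paper proof: team-store AS_proof.md.  Each module proves `theorem xxx : Stmt_Xxx` (possibly with
other statements as hypotheses). -/

namespace Pool.Agent.AS

open Complex Metric Set Filter Topology MeasureTheory
open scoped ComplexConjugate

/-! ## A1. Cauchy transform -/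

/-- The Cauchy transform. -/
noncomputable def ct (ν : ℂ → ℂ) (z : ℂ) : ℂ := (Real.pi : ℂ)⁻¹ * ∫ u, ν u / (z - u)

/-- A Beltrami coefficient supported in the disc of radius `ρ`. -/
structure Adm (ν : ℂ → ℂ) (ρ : ℝ) : Prop where
  meas : Measurable ν
  bd : ∀ z, ‖ν z‖ ≤ 1
  supp : ∀ z, ρ < ‖z‖ → ν z = 0

def Stmt_CtBound : Prop := ∀ ρ : ℝ, ∃ C : ℝ, 0 < C ∧ ∀ ν : ℂ → ℂ, Adm ν ρ → ∀ z, ‖ct ν z‖ ≤ C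

def Stmt_CtHolder : Prop := ∀ ρ α : ℝ, 0 < α → α < 1 → ∃ C : ℝ, 0 < C ∧ ∀ ν : ℂ → ℂ, Adm ν ρ →
  ∀ z w, ‖ct ν z - ct ν w‖ ≤ C * ‖z - w‖ ^ α

def Stmt_CtHol : Prop := ∀ (ρ : ℝ) (ν : ℂ → ℂ), Adm ν ρ → ∀ V : Set ℂ, IsOpen V →
  (∀ z ∈ V, ν z = 0) → DifferentiableOn ℂ (ct ν) V

def Stmt_CtSum : Prop := ∀ (ρ : ℝ) (n : ℕ) (ν : Fin n → ℂ → ℂ), (∀ i, Adm (ν i) ρ) →
  ∀ (c : Fin n → ℂ) (z : ℂ), ct (fun u => ∑ i, c i * ν i u) z = ∑ i, c i * ct (ν i) z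

def Stmt_CtCircle : Prop := ∀ (ρ : ℝ) (ν : ℂ → ℂ), Adm ν ρ → ∀ (w c : ℂ) (a t T m : ℝ),
  0 < a → a < t → t < T → (∀ u ∈ closedBall w a, ν u = c) →
  (∀ u ∈ ball w T \ closedBall w a, ν u = 0) →
  (∀ z ∈ sphere w t, ‖ct ν z‖ ≤ m) → a ^ 2 * ‖c‖ ≤ t * m

/-! ## A2. The defect of invariance is holomorphic -/

def Stmt_EtaHol : Prop := ∀ (ρ R' : ℝ) (f ν : ℂ → ℂ), Differentiable ℂ f → (∃ z, deriv f z ≠ 0) →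
  Adm ν ρ → (∀ z ∈ ball (0 : ℂ) R', ν z * deriv f z = ν (f z) * conj (deriv f z)) →
  DifferentiableOn ℂ (fun z => ct ν (f z) - deriv f z * ct ν z) (ball 0 R')

/-! ## A3. Invariant extension -/

def Stmt_Ext : Prop := ∀ (f : ℂ → ℂ) (W : Set ℂ), Differentiable ℂ f → IsOpen W →
  (∀ n : ℕ, InjOn (f^[n]) W) →
  (∀ n m : ℕ, n ≠ m → Disjoint (f^[n] '' W) (f^[m] '' W)) →
  ∃ (x lam : ℂ → ℂ), Measurable x ∧ Measurable lam ∧ (∀ z, ‖lam z‖ ≤ 1) ∧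
    (∀ z ∈ W, x z = z ∧ lam z = 1) ∧
    ∀ z, deriv f z ≠ 0 → lam z * deriv f z = lam (f z) * conj (deriv f z) ∧
      (lam z ≠ 0 → x (f z) = x z)

/-! ## A4. Killing coefficients -/

def Stmt_Kill : Prop := ∀ (N : ℕ) (R' : ℝ) (η : Fin (N + 1) → ℂ → ℂ), 0 < R' →
  (∀ i, DifferentiableOn ℂ (η i) (ball 0 R')) →
  ∃ c : Fin (N + 1) → ℂ, (∀ i, ‖c i‖ ≤ 1) ∧ (∃ i, ‖c i‖ = 1) ∧
    ∀ B : ℝ, (∀ z ∈ ball (0 : ℂ) R', ‖∑ i, c i * η i z‖ ≤ B) →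
      ∀ z : ℂ, ‖z‖ ≤ R' / 3 → ‖∑ i, c i * η i z‖ ≤ 2 * B * (1 / 3) ^ N

/-! ## A5. The orbit formula -/

def Stmt_Orbit : Prop := ∀ (f ξ : ℂ → ℂ), Differentiable ℂ f → ∀ (n : ℕ) (w : ℂ),
  deriv (f^[n]) w ≠ 0 →
  ‖ξ w‖ ≤ ‖ξ (f^[n] w)‖ * ‖deriv (f^[n]) w‖⁻¹ +
    ∑ j ∈ Finset.range n, ‖ξ (f (f^[j] w)) - deriv f (f^[j] w) * ξ (f^[j] w)‖ *
      ‖deriv (f^[j + 1]) w‖⁻¹

/-! ## A6. Geometry -/

/-- Every point of the complement of `Ω` is joined to infinity by chains with arbitrarily small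
steps in the complement (so `Ω` has no holes). -/
def Chain (Ω : Set ℂ) : Prop := ∀ p ∉ Ω, ∀ ε > (0 : ℝ), ∀ T : ℝ, ∃ (n : ℕ) (e : ℕ → ℂ), e 0 = p ∧
  (∀ i ≤ n, e i ∉ Ω) ∧ (∀ i < n, dist (e i) (e (i + 1)) < ε) ∧ T < ‖e n‖

def Stmt_Circ : Prop := ∀ Ω : Set ℂ, IsOpen Ω → Chain Ω → ∀ p ∉ Ω, ∀ t > (0 : ℝ),
  ∃ z ∈ sphere p t, z ∉ Ω

def Stmt_Geo : Prop := ∀ Ω : Set ℂ, IsOpen Ω → Chain Ω → ∀ q ∈ frontier Ω, ∀ r > (0 : ℝ),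
  ∃ (p : ℂ) (ρ₀ : ℝ), 0 < ρ₀ ∧ closedBall p (3 * ρ₀) ⊆ ball q r ∧ ∀ t d : ℝ, 0 < d → d ≤ t →
    t ≤ ρ₀ / 2 → ∃ w ∈ Ω, dist w p = t ∧ infDist w Ωᶜ = d

/-! ## A7. Square roots -/

def HasSqrt (Ω : Set ℂ) : Prop := ∀ p ∉ Ω, ∀ ε > (0 : ℝ), ∃ s : ℂ → ℂ,
  DifferentiableOn ℂ s {z | ε < infDist z Ωᶜ} ∧ ∀ z, ε < infDist z Ωᶜ → s z ^ 2 = z - p

def Stmt_Sqrt : Prop := ∀ Ω : Set ℂ, IsOpen Ω → Bornology.IsBounded Ω → Chain Ω → HasSqrt Ω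

/-! ## A8. Comparison -/

def Stmt_Cmp : Prop := ∀ η : ℝ, 0 < η → η < 1 → ∃ κ M K : ℝ, 0 < κ ∧ κ < 1 / 2 ∧ 2 ≤ M ∧ 0 < K ∧
  ∀ Ω : Set ℂ, IsOpen Ω → Bornology.IsBounded Ω → HasSqrt Ω → ∀ (p w : ℂ) (d : ℝ), 0 < d →
  p ∉ Ω → dist w p = d → infDist w Ωᶜ = d → ∀ (ξ : ℂ → ℂ) (C m : ℝ), Continuous ξ →
  (∀ z, ‖ξ z‖ ≤ C) → DifferentiableOn ℂ ξ ((Ω ∩ ball p (M * d)) \ closedBall w (κ * d)) →
  0 < m → m ≤ 1 → (∀ z ∈ frontier Ω ∩ ball p (2 * M * d), ‖ξ z‖ ≤ m) →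
  ∀ z ∈ sphere w (d / 2), ‖ξ z‖ ≤ K * (C + 1) * m ^ (1 - η)

/-! ## A9. The base theorem -/

def Stmt_Base : Prop := ∀ f : ℂ → ℂ, Differentiable ℂ f → (∃ z, deriv f z ≠ 0) →
  ∀ Ω : Set ℂ, IsOpen Ω → Bornology.IsBounded Ω → Chain Ω →
  ∀ (q : ℂ) (r : ℝ), q ∈ frontier Ω → 0 < r → (∀ n : ℕ, InjOn (f^[n]) (Ω ∩ ball q r)) →
  (∀ n m : ℕ, n ≠ m → Disjoint (f^[n] '' (Ω ∩ ball q r)) (f^[m] '' (Ω ∩ ball q r))) →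
  ∀ R τ : ℝ, 0 < R → 0 < τ → τ < 1 → ∃ δ₀ > (0 : ℝ), ∀ δ : ℝ, 0 < δ → δ < δ₀ →
    ∃ z ∈ ball q r ∩ frontier Ω, ∀ w ∈ ball z δ, ∀ n : ℕ, (∀ j < n, ‖f^[j] w‖ < R) →
      1 / δ ≤ ‖deriv (f^[n]) w‖ →
      Real.exp (δ ^ (-τ)) ≤ ∑ j ∈ Finset.range n, ‖deriv (f^[j + 1]) w‖⁻¹

/-! ## Part B. Fatou components -/

/-- The Fatou set, exactly as in the frozen statement. -/
def Fat (f : ℂ → ℂ) : Set ℂ := {z : ℂ | ∃ ε > (0 : ℝ), ∀ φ : ℕ → ℕ, StrictMono φ →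
            ∃ ψ : ℕ → ℕ, StrictMono ψ ∧
              ((∃ g : ℂ → ℂ, TendstoUniformlyOn (fun k => f^[φ (ψ k)]) g atTop
                  (closedBall z ε)) ∨
               (∀ M : ℝ, ∀ᶠ k in atTop, ∀ w ∈ closedBall z ε,
                  M < ‖f^[φ (ψ k)] w‖))}

def Stmt_FatOpen : Prop := ∀ f : ℂ → ℂ, IsOpen (Fat f)

def Stmt_FatInv : Prop := ∀ f : ℂ → ℂ, Differentiable ℂ f → (∃ z, deriv f z ≠ 0) →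
  ∀ z, f z ∈ Fat f ↔ z ∈ Fat f

def Stmt_FatMontel : Prop := ∀ f : ℂ → ℂ, Differentiable ℂ f → ∀ (V : Set ℂ) (R : ℝ), IsOpen V →
  (∀ n : ℕ, ∀ z ∈ V, ‖f^[n] z‖ ≤ R) → V ⊆ Fat f

/-- A component of the Fatou set on which the iterates are bounded by `R`. -/
structure Comp (f : ℂ → ℂ) (R : ℝ) (V : Set ℂ) : Prop where
  op : IsOpen V
  conn : IsConnected V
  fat : V ⊆ Fat f
  fr : ∀ z ∈ frontier V, z ∉ Fat f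
  bd : ∀ n : ℕ, ∀ z ∈ V, ‖f^[n] z‖ ≤ R

def Stmt_CompImage : Prop := ∀ (f : ℂ → ℂ) (R : ℝ) (V : Set ℂ), Differentiable ℂ f →
  (∃ z, deriv f z ≠ 0) → Comp f R V → Comp f R (f '' V)

def Stmt_CompChain : Prop := ∀ (f : ℂ → ℂ) (R : ℝ) (V : Set ℂ), Differentiable ℂ f →
  Comp f R V → Chain V

def Stmt_SC : Prop := ∀ V : Set ℂ, IsOpen V → IsConnected V → Bornology.IsBounded V → Chain V →
  IsSimplyConnected V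

def Stmt_Cover : Prop := ∀ (f : ℂ → ℂ) (V : Set ℂ), Differentiable ℂ f → IsOpen V →
  IsConnected V → Bornology.IsBounded V → IsSimplyConnected (f '' V) →
  (∀ z ∈ frontier V, f z ∉ f '' V) → (∀ z ∈ V, deriv f z ≠ 0) → InjOn f V

/-- B5 + B6. -/
def Stmt_Local : Prop := ∀ (f : ℂ → ℂ) (R : ℝ) (V : Set ℂ), Differentiable ℂ f →
  (∃ z, deriv f z ≠ 0) → Comp f R V →
  (∀ n m : ℕ, n ≠ m → Disjoint (f^[n] '' V) (f^[m] '' V)) →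
  ∀ U : Set ℂ, IsOpen U → (U ∩ frontier V).Nonempty →
  ∃ (q : ℂ) (r : ℝ), q ∈ frontier V ∧ 0 < r ∧ ball q r ⊆ U ∧ ∀ n : ℕ, InjOn (f^[n]) (V ∩ ball q r)

end Pool.Agent.AS
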