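import Mathlib
import Pool.Agent.AS.Defs

set_option autoImplicit false

/-! # Bounds for the Cauchy transform -/

namespace Pool.Agent.AS

open Complex Metric Set Filter Topology MeasureTheory
open scoped ComplexConjugate

namespace Ct1

/-- the truncated kernel -/
noncomputable def gk (s : ℝ) (u : ℂ) : ℝ := (Iio (1 : ℝ)).indicator (fun y : ℝ => y ^ (-s)) ‖u‖

theorem gk_nonneg (s : ℝ) (u : ℂ) : 0 ≤ gk s u := by
  unfold gk
  by_cases h : ‖u‖ ∈ Iio (1 : ℝ)
  · rw [indicator_of_mem h]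
    positivity
  · rw [indicator_of_notMem h]

theorem integrable_gk {s : ℝ} (hs : s < 2) : Integrable (gk s) := by
  have h := integrable_fun_norm_addHaar (volume : Measure ℂ)
    (f := fun y : ℝ => (Iio (1 : ℝ)).indicator (fun y : ℝ => y ^ (-s)) y)
  unfold gk
  rw [h]
  have h3 : ∀ y ∈ Ioi (0 : ℝ), y ^ (Module.finrank ℝ ℂ - 1) •
      (Iio (1 : ℝ)).indicator (fun y : ℝ => y ^ (-s)) y =
      (Iio (1 : ℝ)).indicator (fun y : ℝ => y ^ (1 - s)) y := by
    intro y hy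
    simp only [Complex.finrank_real_complex, Nat.add_one_sub_one, pow_one, smul_eq_mul]
    by_cases hyr : y ∈ Iio (1 : ℝ)
    · rw [indicator_of_mem hyr, indicator_of_mem hyr]
      rw [sub_eq_add_neg, Real.rpow_add hy, Real.rpow_one]
    · rw [indicator_of_notMem hyr, indicator_of_notMem hyr, mul_zero]
  rw [integrableOn_congr_fun h3 measurableSet_Ioi, integrableOn_indicator_iff measurableSet_Iio]
  have h4 : Iio (1 : ℝ) ∩ Ioi 0 = Ioo 0 1 := by
    ext y; simp only [mem_inter_iff, mem_Iio, mem_Ioi, mem_Ioo]; tauto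
  rw [h4]
  exact (intervalIntegral.integrableOn_Ioo_rpow_iff one_pos).2 (by linarith)

theorem kernel_le {s : ℝ} (hs : 0 ≤ s) (u : ℂ) : ‖u‖ ^ (-s) ≤ 1 + gk s u := by
  by_cases h : ‖u‖ < 1
  · have : gk s u = ‖u‖ ^ (-s) := by
      unfold gk
      rw [indicator_of_mem (mem_Iio.2 h)]
    rw [this]; linarith
  · have h1 : ‖u‖ ^ (-s) ≤ 1 := Real.rpow_le_one_of_one_le_of_nonpos (not_lt.1 h) (by linarith)
    have := gk_nonneg s u
    linarith

theorem integrable_gk_sub {s : ℝ} (hs : s < 2) (z : ℂ) : Integrable fun u => gk s (z - u) :=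
  (integrable_gk hs).comp_sub_left z

theorem integral_gk_sub (s : ℝ) (z : ℂ) : ∫ u, gk s (z - u) = ∫ u, gk s u :=
  integral_sub_left_eq_self (gk s) volume z

/-- indicator of the support -/
noncomputable def bk (ρ : ℝ) (u : ℂ) : ℝ := (closedBall (0 : ℂ) ρ).indicator (fun _ => (1 : ℝ)) u

theorem bk_nonneg (ρ : ℝ) (u : ℂ) : 0 ≤ bk ρ u := by
  unfold bk
  apply indicator_nonneg
  intro y _
  exact zero_le_one

theorem integrable_bk (ρ : ℝ) : Integrable (bk ρ) := by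
  unfold bk
  rw [integrable_indicator_iff measurableSet_closedBall]
  exact integrableOn_const (by
    exact (measure_closedBall_lt_top).ne)

theorem bk_eq {ρ : ℝ} {u : ℂ} (h : ‖u‖ ≤ ρ) : bk ρ u = 1 := by
  unfold bk
  rw [indicator_of_mem]
  rw [mem_closedBall, dist_zero_right]
  exact h

theorem norm_integrand_le {ν : ℂ → ℂ} {ρ : ℝ} (h : Adm ν ρ) (z u : ℂ) :
    ‖ν u / (z - u)‖ ≤ bk ρ u + gk 1 (z - u) := by
  by_cases hu : ‖u‖ ≤ ρ
  · rw [bk_eq hu, norm_div]
    calc ‖ν u‖ / ‖z - u‖ ≤ 1 / ‖z - u‖ := by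
          gcongr
          exact h.bd u
      _ = ‖z - u‖ ^ (-(1 : ℝ)) := by rw [Real.rpow_neg_one, one_div]
      _ ≤ 1 + gk 1 (z - u) := kernel_le zero_le_one _
  · rw [h.supp u (not_le.1 hu), zero_div, norm_zero]
    exact add_nonneg (bk_nonneg _ _) (gk_nonneg _ _)

theorem integrable_integrand {ν : ℂ → ℂ} {ρ : ℝ} (h : Adm ν ρ) (z : ℂ) :
    Integrable fun u => ν u / (z - u) := by
  refine Integrable.mono' ((integrable_bk ρ).add (integrable_gk_sub (s := 1) (by norm_num) z)) ?_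
    (Eventually.of_forall fun u => norm_integrand_le h z u)
  exact (h.meas.div (measurable_const.sub measurable_id)).aestronglyMeasurable

/-- two point estimate -/
theorem pow_ineq {a b d α : ℝ} (ha : 0 < a) (hb : 0 < b) (hd : 0 ≤ d) (hdab : d ≤ a + b)
    (hα0 : 0 < α) (hα1 : α < 1) :
    d / (a * b) ≤ 2 * d ^ α * (a ^ (-(1 + α)) + b ^ (-(1 + α))) := by
  wlog hab : a ≤ b with H
  · have := H hb ha hd (by linarith) hα0 hα1 (not_le.1 hab).le
    rw [mul_comm b a, add_comm (b ^ _)] at this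
    exact this
  rcases eq_or_lt_of_le hd with rfl | hd
  · rw [zero_div]
    positivity
  have e1 : d = d ^ α * d ^ (1 - α) := by
    rw [← Real.rpow_add hd]; simp
  have e2 : d ^ (1 - α) ≤ 2 * b ^ (1 - α) := by
    calc d ^ (1 - α) ≤ (2 * b) ^ (1 - α) := Real.rpow_le_rpow hd.le (by linarith) (by linarith)
      _ = 2 ^ (1 - α) * b ^ (1 - α) := Real.mul_rpow (by norm_num) hb.le
      _ ≤ 2 ^ (1 : ℝ) * b ^ (1 - α) := by
          gcongr
          · norm_num
          · linarith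
      _ = 2 * b ^ (1 - α) := by rw [Real.rpow_one]
  have e3 : b ^ (1 - α) = b * b ^ (-α) := by
    rw [sub_eq_add_neg, Real.rpow_add hb, Real.rpow_one]
  have e4 : b ^ (-α) ≤ a ^ (-α) := Real.rpow_le_rpow_of_nonpos ha hab (by linarith)
  have e5 : a ^ (-(1 + α)) = a⁻¹ * a ^ (-α) := by
    rw [neg_add, Real.rpow_add ha, Real.rpow_neg_one]
  have e6 : d / (a * b) ≤ 2 * d ^ α * a ^ (-(1 + α)) := by
    rw [div_le_iff₀ (by positivity), e5]
    calc d = d ^ α * d ^ (1 - α) := e1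
      _ ≤ d ^ α * (2 * (b * a ^ (-α))) := by
          gcongr
          rw [e3] at e2
          have : b * b ^ (-α) ≤ b * a ^ (-α) := by gcongr
          linarith
      _ = 2 * d ^ α * (a⁻¹ * a ^ (-α)) * (a * b) := by
          field_simp
  have e7 : 0 ≤ 2 * d ^ α * b ^ (-(1 + α)) := by positivity
  linarith [e6, e7, mul_add (2 * d ^ α) (a ^ (-(1 + α))) (b ^ (-(1 + α)))]

theorem norm_diff_le {ν : ℂ → ℂ} {ρ α : ℝ} (h : Adm ν ρ) (hα0 : 0 < α) (hα1 : α < 1)
    (z w u : ℂ) (hz : u ≠ z) (hw : u ≠ w) :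
    ‖ν u / (z - u) - ν u / (w - u)‖ ≤ 2 * ‖z - w‖ ^ α *
      (2 * bk ρ u + gk (1 + α) (z - u) + gk (1 + α) (w - u)) := by
  have hpos : 0 ≤ gk (1 + α) (z - u) := gk_nonneg _ _
  have hpos' : 0 ≤ gk (1 + α) (w - u) := gk_nonneg _ _
  have hbk := bk_nonneg ρ u
  by_cases hu : ‖u‖ ≤ ρ
  · have hz0 : z - u ≠ 0 := sub_ne_zero.2 (Ne.symm hz)
    have hw0 : w - u ≠ 0 := sub_ne_zero.2 (Ne.symm hw)
    have e1 : ν u / (z - u) - ν u / (w - u) = ν u * ((w - z) / ((z - u) * (w - u))) := by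
      field_simp
      ring
    rw [e1, norm_mul, norm_div, norm_mul, norm_sub_rev w z, bk_eq hu]
    have e2 := pow_ineq (norm_pos_iff.2 hz0) (norm_pos_iff.2 hw0) (norm_nonneg (z - w))
      (by
        have : z - w = (z - u) - (w - u) := by ring
        rw [this]
        exact norm_sub_le _ _) hα0 hα1
    have e3 := kernel_le (s := 1 + α) (by linarith) (z - u)
    have e4 := kernel_le (s := 1 + α) (by linarith) (w - u)
    have e5 : 0 ≤ ‖z - w‖ / (‖z - u‖ * ‖w - u‖) := by positivity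
    calc ‖ν u‖ * (‖z - w‖ / (‖z - u‖ * ‖w - u‖)) ≤ 1 * (‖z - w‖ / (‖z - u‖ * ‖w - u‖)) := by
          gcongr
          exact h.bd u
      _ ≤ 2 * ‖z - w‖ ^ α * (‖z - u‖ ^ (-(1 + α)) + ‖w - u‖ ^ (-(1 + α))) := by rw [one_mul]; exact e2
      _ ≤ 2 * ‖z - w‖ ^ α * (2 * 1 + gk (1 + α) (z - u) + gk (1 + α) (w - u)) := by
          apply mul_le_mul_of_nonneg_left _ (by positivity)
          linarith
  · rw [h.supp u (not_le.1 hu), zero_div, zero_div, sub_zero, norm_zero]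
    positivity

end Ct1

open Ct1

theorem ctBound : Stmt_CtBound := by
  intro ρ
  have hV : 0 ≤ ∫ u, bk ρ u := integral_nonneg fun u => bk_nonneg ρ u
  have hG : 0 ≤ ∫ u, gk 1 u := integral_nonneg fun u => gk_nonneg 1 u
  refine ⟨(∫ u, bk ρ u) + (∫ u, gk 1 u) + 1, by linarith, fun ν h z => ?_⟩
  have h1 : ‖∫ u, ν u / (z - u)‖ ≤ ∫ u, (bk ρ u + gk 1 (z - u)) :=
    norm_integral_le_of_norm_le ((integrable_bk ρ).add (integrable_gk_sub (by norm_num) z))
      (Eventually.of_forall fun u => norm_integrand_le h z u)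
  rw [integral_add (integrable_bk ρ) (integrable_gk_sub (by norm_num) z), integral_gk_sub] at h1
  unfold ct
  rw [norm_mul, norm_inv, Complex.norm_real, Real.norm_of_nonneg Real.pi_pos.le]
  have h2 : Real.pi⁻¹ ≤ 1 := inv_le_one_of_one_le₀ (by linarith [Real.pi_gt_three])
  have h3 : Real.pi⁻¹ * ‖∫ u, ν u / (z - u)‖ ≤ 1 * ((∫ u, bk ρ u) + (∫ u, gk 1 u)) := by
    gcongr
  linarith

theorem ctHolder : Stmt_CtHolder := by
  intro ρ α hα0 hα1
  have hV : 0 ≤ ∫ u, bk ρ u := integral_nonneg fun u => bk_nonneg ρ u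
  have hG : 0 ≤ ∫ u, gk (1 + α) u := integral_nonneg fun u => gk_nonneg (1 + α) u
  refine ⟨2 * (2 * (∫ u, bk ρ u) + (∫ u, gk (1 + α) u) + (∫ u, gk (1 + α) u)) + 1,
    by linarith, fun ν h z w => ?_⟩
  have hs : 1 + α < 2 := by linarith
  have hi1 : Integrable fun u => 2 * bk ρ u + gk (1 + α) (z - u) + gk (1 + α) (w - u) :=
    (((integrable_bk ρ).const_mul 2).add (integrable_gk_sub hs z)).add (integrable_gk_sub hs w)
  have hne : ∀ z : ℂ, ∀ᵐ u : ℂ, u ≠ z := fun z => by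
    have : (volume : Measure ℂ) {z} = 0 := measure_singleton z
    rw [ae_iff]
    simpa using this
  have h1 : ‖∫ u, (ν u / (z - u) - ν u / (w - u))‖ ≤ ∫ u, 2 * ‖z - w‖ ^ α *
      (2 * bk ρ u + gk (1 + α) (z - u) + gk (1 + α) (w - u)) := by
    refine norm_integral_le_of_norm_le (hi1.const_mul _) ?_
    filter_upwards [hne z, hne w] with u hz hw
    exact norm_diff_le h hα0 hα1 z w u hz hw
  have hI : ∫ u, (2 * bk ρ u + gk (1 + α) (z - u) + gk (1 + α) (w - u)) =
      2 * (∫ u, bk ρ u) + (∫ u, gk (1 + α) u) + (∫ u, gk (1 + α) u) := by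
    have hj : Integrable fun u => 2 * bk ρ u + gk (1 + α) (z - u) :=
      ((integrable_bk ρ).const_mul 2).add (integrable_gk_sub hs z)
    rw [integral_add hj (integrable_gk_sub hs w),
      integral_add ((integrable_bk ρ).const_mul 2) (integrable_gk_sub hs z), integral_const_mul,
      integral_gk_sub, integral_gk_sub]
  rw [integral_sub (integrable_integrand h z) (integrable_integrand h w), integral_const_mul,
    hI] at h1
  have h0 : ct ν z - ct ν w = (Real.pi : ℂ)⁻¹ * ((∫ u, ν u / (z - u)) - ∫ u, ν u / (w - u)) := by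
    unfold ct
    ring
  rw [h0, norm_mul, norm_inv, Complex.norm_real, Real.norm_of_nonneg Real.pi_pos.le]
  have h2 : Real.pi⁻¹ ≤ 1 := inv_le_one_of_one_le₀ (by linarith [Real.pi_gt_three])
  have h3 : Real.pi⁻¹ * ‖(∫ u, ν u / (z - u)) - ∫ u, ν u / (w - u)‖ ≤
      1 * (2 * ‖z - w‖ ^ α * (2 * (∫ u, bk ρ u) + (∫ u, gk (1 + α) u) + (∫ u, gk (1 + α) u))) := by
    gcongr
  have h4 : 0 ≤ ‖z - w‖ ^ α := by positivity
  calc _ ≤ _ := h3
    _ ≤ _ := by linarith

end Pool.Agent.AS
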