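import Pool.Agent.AS.Defs

set_option autoImplicit false

/-! # The Cauchy transform: holomorphy off the support, linearity -/

namespace Pool.Agent.AS

open Complex Metric Set Filter Topology MeasureTheory
open scoped ComplexConjugate

/-- The kernel `1 / |u|` is integrable on discs. -/
theorem ct2_loc (T : ℝ) :
    Integrable (fun u : ℂ => (Set.Iic T).indicator (fun y : ℝ => y⁻¹) ‖u‖) := by
  rw [integrable_fun_norm_addHaar (volume : Measure ℂ)
    (f := (Set.Iic T).indicator (fun y : ℝ => y⁻¹))]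
  rw [Complex.finrank_real_complex]
  have h1 : IntegrableOn (fun _ : ℝ => (1 : ℝ)) (Ioc 0 T) := by
    rw [integrableOn_const_iff (C := (1 : ℝ))]
    right
    simp
  have h2 : EqOn (fun y : ℝ => y ^ (2 - 1) • (Set.Iic T).indicator (fun y : ℝ => y⁻¹) y)
      ((Ioc 0 T).indicator fun _ => (1 : ℝ)) (Ioi 0) := by
    intro y hy
    have hy0 : 0 < y := hy
    by_cases hT : y ≤ T
    · rw [indicator_of_mem (show y ∈ Ioc 0 T from ⟨hy0, hT⟩)]
      show y ^ (2 - 1) • (Set.Iic T).indicator (fun y : ℝ => y⁻¹) y = 1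
      rw [indicator_of_mem (show y ∈ Iic T from hT)]
      simp [hy0.ne']
    · rw [indicator_of_notMem (show y ∉ Ioc 0 T from fun h => hT h.2)]
      show y ^ (2 - 1) • (Set.Iic T).indicator (fun y : ℝ => y⁻¹) y = 0
      rw [indicator_of_notMem (show y ∉ Iic T from hT)]
      simp
  rw [integrableOn_congr_fun h2 measurableSet_Ioi]
  exact ((integrable_indicator_iff measurableSet_Ioc).2 h1).integrableOn

/-- The integrand of the Cauchy transform is integrable. -/
theorem ct2_int {ρ : ℝ} {ν : ℂ → ℂ} (hν : Adm ν ρ) (z : ℂ) :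
    Integrable fun u => ν u / (z - u) := by
  have h1 := (ct2_loc (ρ + ‖z‖)).comp_sub_left z
  refine h1.mono' (hν.meas.div (measurable_const.sub measurable_id)).aestronglyMeasurable
    (Eventually.of_forall fun u => ?_)
  show ‖ν u / (z - u)‖ ≤ (Set.Iic (ρ + ‖z‖)).indicator (fun y : ℝ => y⁻¹) ‖z - u‖
  by_cases hu : ‖z - u‖ ≤ ρ + ‖z‖
  · rw [indicator_of_mem (show ‖z - u‖ ∈ Iic (ρ + ‖z‖) from hu), norm_div, div_eq_mul_inv]
    exact mul_le_of_le_one_left (inv_nonneg.2 (norm_nonneg _)) (hν.bd u)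
  · have h2 : ρ < ‖u‖ := by
      have := norm_sub_le z u
      linarith [not_le.1 hu]
    rw [hν.supp u h2, zero_div, norm_zero,
      indicator_of_notMem (show ‖z - u‖ ∉ Iic (ρ + ‖z‖) from hu)]

theorem ctSum : Stmt_CtSum := by
  intro ρ n ν hν c z
  unfold ct
  have h1 : ∀ u : ℂ, (∑ i, c i * ν i u) / (z - u) = ∑ i, c i * (ν i u / (z - u)) := by
    intro u
    rw [Finset.sum_div]
    exact Finset.sum_congr rfl fun i _ => mul_div_assoc _ _ _
  simp only [h1]
  rw [integral_finsetSum _ fun i _ => (ct2_int (hν i) z).const_mul (c i), Finset.mul_sum]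
  refine Finset.sum_congr rfl fun i _ => ?_
  rw [integral_const_mul]
  ring

theorem ctHol : Stmt_CtHol := by
  intro ρ ν hν V hV hV0 z₀ hz₀
  obtain ⟨δ', hδ', hball⟩ := Metric.isOpen_iff.1 hV z₀ hz₀
  set δ : ℝ := δ' / 2 with hδdef
  have hδ : 0 < δ := by positivity
  have hne : ∀ u, ν u ≠ 0 → ∀ z ∈ ball z₀ δ, δ ≤ ‖z - u‖ := by
    intro u hu z hz
    by_contra hlt
    rw [not_le] at hlt
    refine hu (hV0 u (hball ?_))
    rw [mem_ball, dist_eq_norm] at hz ⊢
    calc ‖u - z₀‖ = ‖(z - z₀) - (z - u)‖ := by ring_nf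
      _ ≤ ‖z - z₀‖ + ‖z - u‖ := norm_sub_le _ _
      _ < δ + δ := add_lt_add hz hlt
      _ = δ' := by rw [hδdef]; ring
  have key := hasDerivAt_integral_of_dominated_loc_of_deriv_le (μ := (volume : Measure ℂ))
    (F := fun z u => ν u / (z - u)) (F' := fun z u => -ν u / (z - u) ^ 2) (x₀ := z₀)
    (s := ball z₀ δ) (bound := (closedBall (0 : ℂ) ρ).indicator fun _ => δ⁻¹ ^ 2)
    (ball_mem_nhds z₀ hδ)
    (Eventually.of_forall fun z => (ct2_int hν z).aestronglyMeasurable) (ct2_int hν z₀)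
    ((hν.meas.neg.div ((measurable_const.sub measurable_id).pow_const 2)).aestronglyMeasurable)
    (Eventually.of_forall fun u z hz => ?_)
    ?_ (Eventually.of_forall fun u z hz => ?_)
  · exact ((key.2.const_mul ((Real.pi : ℂ)⁻¹)).differentiableAt).differentiableWithinAt
  · by_cases hu : ν u = 0
    · rw [hu, neg_zero, zero_div, norm_zero]
      exact indicator_nonneg (fun _ _ => by positivity) _
    · have h1 : u ∈ closedBall (0 : ℂ) ρ := by
        rw [mem_closedBall, dist_zero_right]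
        by_contra hlt
        exact hu (hν.supp u (not_le.1 hlt))
      rw [indicator_of_mem h1, norm_div, norm_neg, norm_pow, div_eq_mul_inv, ← inv_pow]
      have h2 := hne u hu z hz
      have h3 : ‖z - u‖⁻¹ ≤ δ⁻¹ := inv_anti₀ hδ h2
      calc ‖ν u‖ * ‖z - u‖⁻¹ ^ 2 ≤ 1 * δ⁻¹ ^ 2 := by
            refine mul_le_mul (hν.bd u) ?_ (by positivity) zero_le_one
            exact pow_le_pow_left₀ (by positivity) h3 2
        _ = δ⁻¹ ^ 2 := one_mul _
  · rw [integrable_indicator_iff measurableSet_closedBall]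
    exact integrableOn_const (by exact measure_closedBall_lt_top.ne)
  · by_cases hu : ν u = 0
    · simp only [hu, zero_div, neg_zero]
      exact hasDerivAt_const z (0 : ℂ)
    · have h2 := hne u hu z hz
      have h3 : z - u ≠ 0 := by
        intro h
        rw [h, norm_zero] at h2
        linarith
      have h4 : HasDerivAt (fun x : ℂ => x - u) 1 z := (hasDerivAt_id z).sub_const u
      have h5 : HasDerivAt (fun x : ℂ => ν u * (x - u)⁻¹) (ν u * (-1 / (z - u) ^ 2)) z :=
        (h4.inv h3).const_mul (ν u)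
      have e1 : (fun x : ℂ => ν u / (x - u)) = fun x : ℂ => ν u * (x - u)⁻¹ := by
        funext x
        rw [div_eq_mul_inv]
      have e2 : -ν u / (z - u) ^ 2 = ν u * (-1 / (z - u) ^ 2) := by
        rw [neg_div, neg_div, mul_neg, mul_one_div]
      show HasDerivAt (fun x : ℂ => ν u / (x - u)) (-ν u / (z - u) ^ 2) z
      rw [e1, e2]
      exact h5

end Pool.Agent.AS
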