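import Pool.Agent.AS.Defs

set_option autoImplicit false

/-! # A1 (d): the circle integral of the Cauchy transform -/

namespace Pool.Agent.AS

open Complex Metric Set Filter Topology MeasureTheory
open scoped Real

/-- The kernel of the double integral. -/
noncomputable def Ct3_K (ν : ℂ → ℂ) (w : ℂ) (t : ℝ) (θ : ℝ) (u : ℂ) : ℂ :=
  deriv (circleMap w t) θ * (ν u / (circleMap w t θ - u))

theorem Ct3_meas {ν : ℂ → ℂ} (hν : Measurable ν) (w : ℂ) (t : ℝ) :
    Measurable (Function.uncurry (Ct3_K ν w t)) := by
  have h1 : Measurable (fun p : ℝ × ℂ => deriv (circleMap w t) p.1) := by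
    simp only [deriv_circleMap]
    exact (((continuous_circleMap 0 t).measurable.comp measurable_fst).mul_const _)
  have h2 : Measurable (fun p : ℝ × ℂ => circleMap w t p.1) :=
    (continuous_circleMap w t).measurable.comp measurable_fst
  exact h1.mul ((hν.comp measurable_snd).div (h2.sub measurable_snd))

theorem Ct3_dist {w u z : ℂ} {a t T : ℝ} (hz : dist z w = t)
    (hu : u ∉ ball w T \ closedBall w a) : min (T - t) (t - a) ≤ ‖z - u‖ := by
  rw [← dist_eq_norm]
  by_cases h : u ∈ ball w T
  · have h2 : u ∈ closedBall w a := by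
      by_contra hh
      exact hu ⟨h, hh⟩
    have h3 : dist u w ≤ a := h2
    have h4 : dist z w ≤ dist z u + dist u w := dist_triangle z u w
    refine (min_le_right _ _).trans ?_
    linarith
  · have h3 : T ≤ dist u w := by
      simpa [mem_ball, not_lt] using h
    have h4 : dist u w ≤ dist u z + dist z w := dist_triangle u z w
    rw [dist_comm u z] at h4
    refine (min_le_left _ _).trans ?_
    linarith

theorem Ct3_bound {ν : ℂ → ℂ} {ρ : ℝ} (hν : Adm ν ρ) {w : ℂ} {a t T : ℝ} (hat : a < t)
    (htT : t < T) (ha : 0 < a) (h0 : ∀ u ∈ ball w T \ closedBall w a, ν u = 0) (θ : ℝ) (u : ℂ) :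
    ‖Ct3_K ν w t θ u‖ ≤ (closedBall (0 : ℂ) ρ).indicator (fun _ => t * (1 / min (T - t) (t - a))) u := by
  have hδ : 0 < min (T - t) (t - a) := lt_min (by linarith) (by linarith)
  have ht : 0 < t := ha.trans hat
  by_cases hu : ν u = 0
  · have : Ct3_K ν w t θ u = 0 := by simp [Ct3_K, hu]
    rw [this, norm_zero]
    apply indicator_nonneg
    intro _ _
    positivity
  · have hu1 : u ∈ closedBall (0 : ℂ) ρ := by
      by_contra hh
      apply hu
      apply hν.supp
      simpa [mem_closedBall, not_le] using hh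
    have hu2 : u ∉ ball w T \ closedBall w a := fun hh => hu (h0 u hh)
    rw [indicator_of_mem hu1]
    have hz : dist (circleMap w t θ) w = t := by
      rw [dist_eq_norm, circleMap_sub_center, norm_circleMap_zero, abs_of_pos ht]
    have h1 := Ct3_dist hz hu2
    unfold Ct3_K
    rw [norm_mul, norm_div, deriv_circleMap, norm_mul, norm_circleMap_zero, abs_of_pos ht]
    simp only [Complex.norm_I, mul_one]
    apply mul_le_mul_of_nonneg_left _ ht.le
    exact div_le_div₀ zero_le_one (hν.bd u) hδ h1

theorem Ct3_int {ν : ℂ → ℂ} {ρ : ℝ} (hν : Adm ν ρ) {w : ℂ} {a t T : ℝ} (hat : a < t)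
    (htT : t < T) (ha : 0 < a) (h0 : ∀ u ∈ ball w T \ closedBall w a, ν u = 0) :
    Integrable (Function.uncurry (Ct3_K ν w t))
      ((volume.restrict (Ioc (0 : ℝ) (2 * π))).prod volume) := by
  have hg : Integrable (fun p : ℝ × ℂ =>
      (closedBall (0 : ℂ) ρ).indicator (fun _ => t * (1 / min (T - t) (t - a))) p.2)
      ((volume.restrict (Ioc (0 : ℝ) (2 * π))).prod volume) := by
    have h1 : Integrable ((closedBall (0 : ℂ) ρ).indicator
        (fun _ : ℂ => t * (1 / min (T - t) (t - a)))) volume := by
      rw [integrable_indicator_iff measurableSet_closedBall]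
      exact integrableOn_const measure_closedBall_lt_top.ne
    exact h1.comp_snd _
  refine hg.mono' (Ct3_meas hν.meas w t).aestronglyMeasurable ?_
  refine Filter.Eventually.of_forall ?_
  intro p
  exact Ct3_bound hν hat htT ha h0 p.1 p.2

theorem Ct3_inner {ν : ℂ → ℂ} {w c : ℂ} {a t T : ℝ} (hat : a < t) (htT : t < T) (ha : 0 < a)
    (hc : ∀ u ∈ closedBall w a, ν u = c)
    (h0 : ∀ u ∈ ball w T \ closedBall w a, ν u = 0) (u : ℂ) :
    ∫ θ in Ioc (0 : ℝ) (2 * π), Ct3_K ν w t θ u =
      (closedBall w a).indicator (fun _ => (2 * π * I : ℂ) * c) u := by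
  have ht : 0 < t := ha.trans hat
  have e1 : ∫ θ in Ioc (0 : ℝ) (2 * π), Ct3_K ν w t θ u = ν u * ∮ z in C(w, t), (z - u)⁻¹ := by
    rw [circleIntegral, intervalIntegral.integral_of_le (by positivity), ← integral_const_mul]
    congr 1
    ext θ
    simp only [Ct3_K, smul_eq_mul]
    ring
  rw [e1]
  by_cases h1 : u ∈ closedBall w a
  · rw [indicator_of_mem h1, hc u h1]
    have h2 : u ∈ ball w t := closedBall_subset_ball hat h1
    rw [circleIntegral.integral_sub_inv_of_mem_ball h2]
    ring
  · rw [indicator_of_notMem h1]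
    by_cases h2 : u ∈ ball w T
    · rw [h0 u ⟨h2, h1⟩, zero_mul]
    · have h3 : u ∉ closedBall w t := fun hh => h2 (closedBall_subset_ball htT hh)
      have h4 : ∮ z in C(w, t), (z - u)⁻¹ = 0 := by
        apply DiffContOnCl.circleIntegral_eq_zero ht.le
        apply DifferentiableOn.diffContOnCl
        rw [closure_ball w ht.ne']
        intro z hz
        have : z - u ≠ 0 := by
          intro hh
          apply h3
          rw [sub_eq_zero] at hh
          rw [← hh]
          exact hz
        exact (((differentiableAt_id).sub_const u).inv this).differentiableWithinAt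
      rw [h4, mul_zero]

theorem ctCircle : Stmt_CtCircle := by
  intro ρ ν hν w c a t T m ha hat htT hc h0 hm
  have ht : 0 < t := ha.trans hat
  have e1 : ∮ z in C(w, t), ct ν z = (2 * π * I : ℂ) * (a ^ 2 * c) := by
    have f1 : ∮ z in C(w, t), ct ν z = (π : ℂ)⁻¹ *
        ∫ θ in Ioc (0 : ℝ) (2 * π), ∫ u, Ct3_K ν w t θ u := by
      rw [circleIntegral, intervalIntegral.integral_of_le (by positivity), ← integral_const_mul]
      congr 1
      ext θ
      simp only [Ct3_K, smul_eq_mul, ct]
      rw [integral_const_mul]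
      ring
    rw [f1, integral_integral_swap (Ct3_int hν hat htT ha h0)]
    have f2 : ∀ u, ∫ θ in Ioc (0 : ℝ) (2 * π), Ct3_K ν w t θ u =
      (closedBall w a).indicator (fun _ => (2 * π * I : ℂ) * c) u :=
      Ct3_inner hat htT ha hc h0
    simp_rw [f2]
    rw [integral_indicator measurableSet_closedBall, setIntegral_const]
    have f3 : volume.real (closedBall w a) = π * a ^ 2 := by
      rw [Measure.real, Complex.volume_closedBall]
      simp only [ENNReal.toReal_mul, ENNReal.toReal_pow, ENNReal.toReal_ofReal ha.le]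
      simp
      ring
    rw [f3]
    have hπ : (π : ℂ) ≠ 0 := by exact_mod_cast Real.pi_ne_zero
    simp only [Complex.real_smul]
    push_cast
    field_simp
  have e2 : ‖∮ z in C(w, t), ct ν z‖ ≤ 2 * π * t * m :=
    circleIntegral.norm_integral_le_of_norm_le_const ht.le hm
  rw [e1] at e2
  simp only [norm_mul, norm_pow, Complex.norm_I, Complex.norm_real, Real.norm_eq_abs,
    abs_of_pos Real.pi_pos, abs_of_pos ha, Complex.norm_ofNat, mul_one] at e2
  have hπ := Real.pi_pos
  have : 2 * π * (a ^ 2 * ‖c‖) ≤ 2 * π * (t * m) := by nlinarith [e2]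
  exact le_of_mul_le_mul_left this (by positivity)

end Pool.Agent.AS
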