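import Pool.Agent.AS.Defs

set_option autoImplicit false

/-! # Approximate Sullivan argument: simple connectivity of domains without holes, two steps -/

namespace Pool.Agent.AS

open Complex Metric Set Filter Topology

/-- Non-vanishing holomorphic functions have holomorphic square roots. -/
def SqrtProp (V : Set ℂ) : Prop := ∀ h : ℂ → ℂ, DifferentiableOn ℂ h V → (∀ z ∈ V, h z ≠ 0) →
  ∃ g : ℂ → ℂ, DifferentiableOn ℂ g V ∧ ∀ z ∈ V, g z ^ 2 = h z

def Stmt_SCa : Prop := ∀ V : Set ℂ, IsOpen V → IsConnected V → Bornology.IsBounded V → Chain V →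
  SqrtProp V

def Stmt_SCb : Prop := ∀ V : Set ℂ, IsOpen V → IsConnected V → Bornology.IsBounded V →
  SqrtProp V → IsSimplyConnected V

theorem sc_of (ha : Stmt_SCa) (hb : Stmt_SCb) : Stmt_SC := fun V h1 h2 h3 h4 =>
  hb V h1 h2 h3 (ha V h1 h2 h3 h4)

end Pool.Agent.AS
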