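import Pool.Agent.AS.Defs
import Pool.Agent.AS.Small

set_option autoImplicit false

/-! # Approximate Sullivan argument: slow escape -/

namespace Pool.Agent.AS

open Complex Metric Set Filter Topology

theorem deriv_iterate_succ' {f : ℂ → ℂ} (hf : Differentiable ℂ f) (n : ℕ) (w : ℂ) :
    deriv (f^[n + 1]) w = deriv f (f^[n] w) * deriv (f^[n]) w := by
  rw [Function.iterate_succ']
  exact deriv_comp w (hf _) (hf.iterate n w)

theorem deriv_iterate_le {f : ℂ → ℂ} (hf : Differentiable ℂ f) {R L : ℝ} (hL1 : 1 ≤ L)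
    (hL : ∀ z : ℂ, ‖z‖ < R → ‖deriv f z‖ ≤ L) {w : ℂ} {n : ℕ} (hw : ∀ j < n, ‖f^[j] w‖ < R) :
    ∀ k ≤ n, ‖deriv (f^[n]) w‖ ≤ L ^ (n - k) * ‖deriv (f^[k]) w‖ := by
  induction n with
  | zero =>
    intro k hk
    obtain rfl : k = 0 := by omega
    simp
  | succ n ih =>
    intro k hk
    rcases Nat.lt_or_ge n k with h | h
    · obtain rfl : k = n + 1 := by omega
      simp
    · have h1 := ih (fun j hj => hw j (by omega)) k h
      rw [deriv_iterate_succ' hf, norm_mul]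
      have h2 : n + 1 - k = (n - k) + 1 := by omega
      rw [h2, pow_succ]
      calc ‖deriv f (f^[n] w)‖ * ‖deriv (f^[n]) w‖
          ≤ L * (L ^ (n - k) * ‖deriv (f^[k]) w‖) :=
            mul_le_mul (hL _ (hw n (by omega))) h1 (norm_nonneg _) (by linarith)
        _ = _ := by ring

/-- The inequality (S) at a point `z` of the frontier implies that the disc of radius `δ` around
`z` escapes slowly. -/
theorem escape {f : ℂ → ℂ} (hf : Differentiable ℂ f) {R L τ τ₂ δ : ℝ} (hL1 : 1 ≤ L)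
    (hL : ∀ z : ℂ, ‖z‖ < R + 1 → ‖deriv f z‖ ≤ L) {z : ℂ} (hz : ∀ n : ℕ, ‖f^[n] z‖ ≤ R)
    (hδ : 0 < δ) (hδ1 : δ < 1) (hsm : (1 + Real.log L) * δ ^ τ₂ < 1 * δ ^ τ)
    (hS : ∀ w ∈ ball z δ, ∀ n : ℕ, (∀ j < n, ‖f^[j] w‖ < R + 1) →
      1 / δ ≤ ‖deriv (f^[n]) w‖ →
      Real.exp (δ ^ (-τ₂)) ≤ ∑ j ∈ Finset.range n, ‖deriv (f^[j + 1]) w‖⁻¹) :
    ∀ n : ℕ, (n : ℝ) ≤ δ ^ (-τ) → ∀ w ∈ ball z δ, ‖f^[n] w‖ < R + 1 := by
  by_contra hcon
  push Not at hcon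
  classical
  have hex : ∃ n : ℕ, ∃ w ∈ ball z δ, R + 1 ≤ ‖f^[n] w‖ := by
    obtain ⟨n, -, w, hw, h⟩ := hcon
    exact ⟨n, w, hw, h⟩
  set n := Nat.find hex with hn
  obtain ⟨w₀, hw₀, hw₀R⟩ := Nat.find_spec hex
  have hmin : ∀ j < n, ∀ w ∈ ball z δ, ‖f^[j] w‖ < R + 1 := by
    intro j hj w hw
    by_contra h
    push Not at h
    exact Nat.find_min hex hj ⟨w, hw, h⟩
  have hnτ : (n : ℝ) ≤ δ ^ (-τ) := by
    obtain ⟨n', hn', w, hw, h⟩ := hcon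
    have : n ≤ n' := Nat.find_min' hex ⟨w, hw, h⟩
    exact (Nat.cast_le.2 this).trans hn'
  obtain ⟨w₁, hw₁, hw₁d⟩ : ∃ w ∈ ball z δ, 1 / δ ≤ ‖deriv (f^[n]) w‖ := by
    by_contra hno
    push Not at hno
    have h1 := Convex.norm_image_sub_le_of_norm_deriv_le (f := f^[n]) (s := ball z δ) (C := 1 / δ)
      (fun x _ => hf.iterate n x) (fun x hx => (hno x hx).le) (convex_ball z δ)
      (mem_ball_self hδ) hw₀
    have h2 : ‖w₀ - z‖ < δ := by rwa [mem_ball, dist_eq_norm] at hw₀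
    have h3 : 1 / δ * ‖w₀ - z‖ < 1 := by
      rw [one_div, inv_mul_lt_iff₀ hδ, mul_one]
      exact h2
    have h4 : ‖f^[n] w₀‖ ≤ ‖f^[n] w₀ - f^[n] z‖ + ‖f^[n] z‖ := by
      calc ‖f^[n] w₀‖ = ‖(f^[n] w₀ - f^[n] z) + f^[n] z‖ := by rw [sub_add_cancel]
        _ ≤ _ := norm_add_le _ _
    have h5 := hz n
    have h6 : R + 1 ≤ ‖f^[n] w₀‖ := hw₀R
    linarith
  have hS1 := hS w₁ hw₁ n (fun j hj => hmin j hj w₁ hw₁) hw₁d
  have hdpos : 0 < ‖deriv (f^[n]) w₁‖ := lt_of_lt_of_le (by positivity) hw₁d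
  have hterm : ∀ j ∈ Finset.range n, ‖deriv (f^[j + 1]) w₁‖⁻¹ ≤ L ^ n := by
    intro j hj
    rw [Finset.mem_range] at hj
    have h1 := deriv_iterate_le hf hL1 hL (w := w₁) (n := n)
      (fun j hj => hmin j hj w₁ hw₁) (j + 1) (by omega)
    have h2 : 0 < ‖deriv (f^[j + 1]) w₁‖ := by
      by_contra h
      have h0 : ‖deriv (f^[j + 1]) w₁‖ = 0 := le_antisymm (not_lt.1 h) (norm_nonneg _)
      rw [h0, mul_zero] at h1
      linarith
    rw [inv_le_comm₀ h2 (by positivity)]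
    have h3 : L ^ (n - (j + 1)) ≤ L ^ n := pow_le_pow_right₀ hL1 (by omega)
    have h4 : 1 ≤ 1 / δ := by
      rw [le_div_iff₀ hδ]
      linarith
    have h5 : 1 ≤ L ^ n * ‖deriv (f^[j + 1]) w₁‖ :=
      calc (1 : ℝ) ≤ ‖deriv (f^[n]) w₁‖ := h4.trans hw₁d
        _ ≤ L ^ (n - (j + 1)) * ‖deriv (f^[j + 1]) w₁‖ := h1
        _ ≤ _ := mul_le_mul_of_nonneg_right h3 h2.le
    rw [inv_le_iff_one_le_mul₀' (by positivity)]
    exact h5
  have hsum : ∑ j ∈ Finset.range n, ‖deriv (f^[j + 1]) w₁‖⁻¹ ≤ n * L ^ n := by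
    calc _ ≤ ∑ _j ∈ Finset.range n, L ^ n := Finset.sum_le_sum hterm
      _ = n * L ^ n := by simp
  have hLpos : 0 < L := by linarith
  have h7 : (n : ℝ) * L ^ n ≤ Real.exp (n * (1 + Real.log L)) := by
    have e1 : (n : ℝ) ≤ Real.exp n := by
      have := Real.add_one_le_exp (n : ℝ)
      linarith
    have e2 : L ^ n = Real.exp (n * Real.log L) := by
      rw [← Real.log_pow, Real.exp_log (by positivity)]
    rw [e2]
    calc (n : ℝ) * Real.exp (n * Real.log L) ≤ Real.exp n * Real.exp (n * Real.log L) :=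
          mul_le_mul_of_nonneg_right e1 (Real.exp_pos _).le
      _ = _ := by rw [← Real.exp_add]; ring_nf
  have h8 : δ ^ (-τ₂) ≤ n * (1 + Real.log L) :=
    Real.exp_le_exp.1 (hS1.trans (hsum.trans h7))
  have hlog : 0 ≤ Real.log L := Real.log_nonneg hL1
  have h9 : δ ^ (-τ₂) ≤ δ ^ (-τ) * (1 + Real.log L) :=
    h8.trans (mul_le_mul_of_nonneg_right hnτ (by linarith))
  have hp1 : 0 < δ ^ τ := Real.rpow_pos_of_pos hδ _
  have hp2 : 0 < δ ^ τ₂ := Real.rpow_pos_of_pos hδ _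
  rw [Real.rpow_neg hδ.le, Real.rpow_neg hδ.le, inv_mul_eq_div, inv_eq_one_div,
    div_le_div_iff₀ hp2 hp1] at h9
  linarith

/-- (S) and (E) for a component of the Fatou set. -/
theorem main_comp (hBase : Stmt_Base) (hLocal : Stmt_Local) (hChain : Stmt_CompChain)
    {f : ℂ → ℂ} {R : ℝ} {V : Set ℂ} (hf : Differentiable ℂ f) (hnc : ∃ z, deriv f z ≠ 0)
    (hV : Comp f R V) (hdis : ∀ n m : ℕ, n ≠ m → Disjoint (f^[n] '' V) (f^[m] '' V))
    {U : Set ℂ} (hU : IsOpen U) (hUV : (U ∩ frontier V).Nonempty) {τ : ℝ} (hτ0 : 0 < τ)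
    (hτ1 : τ < 1) : ∃ δ₀ > (0 : ℝ), ∀ δ : ℝ, 0 < δ → δ < δ₀ → ∃ z ∈ U ∩ frontier V,
      (∀ w ∈ ball z δ, ∀ n : ℕ, (∀ j < n, ‖f^[j] w‖ < R + 1) → 1 / δ ≤ ‖deriv (f^[n]) w‖ →
        Real.exp (δ ^ (-τ)) ≤ ∑ j ∈ Finset.range n, ‖deriv (f^[j + 1]) w‖⁻¹) ∧
      ∀ n : ℕ, (n : ℝ) ≤ δ ^ (-τ) → ∀ w ∈ ball z δ, ‖f^[n] w‖ < R + 1 := by
  obtain ⟨q, r, hq, hr, hqU, hinj⟩ := hLocal f R V hf hnc hV hdis U hU hUV
  have hR0 : 0 ≤ R := by
    obtain ⟨x, hx⟩ := hV.conn.nonempty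
    exact (norm_nonneg _).trans (hV.bd 0 x hx)
  have hVb : Bornology.IsBounded V := by
    refine (isBounded_closedBall (x := (0 : ℂ)) (r := R)).subset fun z hz => ?_
    rw [mem_closedBall_zero_iff]
    exact hV.bd 0 z hz
  have hdis' : ∀ n m : ℕ, n ≠ m → Disjoint (f^[n] '' (V ∩ ball q r)) (f^[m] '' (V ∩ ball q r)) :=
    fun n m hnm => (hdis n m hnm).mono (image_mono inter_subset_left)
      (image_mono inter_subset_left)
  set τ₂ : ℝ := (1 + τ) / 2 with hτ₂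
  obtain ⟨δ₁, hδ₁, h1⟩ := hBase f hf hnc V hV.op hVb (hChain f R V hf hV) q r hq hr hinj hdis'
    (R + 1) τ₂ (by linarith) (by rw [hτ₂]; linarith) (by rw [hτ₂]; linarith)
  have hfd : Continuous (deriv f) := (hf.contDiff (n := 1)).continuous_deriv le_rfl
  obtain ⟨L₀, hL₀⟩ := (isCompact_closedBall (0 : ℂ) (R + 1)).exists_bound_of_continuousOn
    hfd.continuousOn
  set L : ℝ := max 1 L₀ with hL
  have hLb : ∀ z : ℂ, ‖z‖ < R + 1 → ‖deriv f z‖ ≤ L := fun z hz =>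
    (hL₀ z (by rw [mem_closedBall_zero_iff]; exact hz.le)).trans (le_max_right _ _)
  have hev : ∀ᶠ δ : ℝ in 𝓝[>] 0, (1 + Real.log L) * δ ^ τ₂ < 1 * δ ^ τ :=
    small_cmp (by rw [hτ₂]; linarith) one_pos
  rw [eventually_nhdsWithin_iff, Metric.eventually_nhds_iff] at hev
  obtain ⟨δ₂, hδ₂, hev⟩ := hev
  refine ⟨min 1 (min δ₁ δ₂), lt_min one_pos (lt_min hδ₁ hδ₂), fun δ hδ hδδ => ?_⟩
  have hδ1 : δ < 1 := hδδ.trans_le (min_le_left _ _)
  have hδδ₁ : δ < δ₁ := hδδ.trans_le ((min_le_right _ _).trans (min_le_left _ _))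
  have hδδ₂ : δ < δ₂ := hδδ.trans_le ((min_le_right _ _).trans (min_le_right _ _))
  have hsm := hev (y := δ) (by rw [Real.dist_eq, sub_zero, abs_of_pos hδ]; exact hδδ₂) hδ
  obtain ⟨z, hz, hzS⟩ := h1 δ hδ hδδ₁
  have hzb : ∀ n : ℕ, ‖f^[n] z‖ ≤ R := by
    intro n
    have hcl : z ∈ closure V := frontier_subset_closure hz.2
    have hclosed : IsClosed {z : ℂ | ‖f^[n] z‖ ≤ R} :=
      isClosed_le ((hf.iterate n).continuous.norm) continuous_const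
    exact closure_minimal (fun y hy => hV.bd n y hy) hclosed hcl
  refine ⟨z, ⟨hqU hz.1, hz.2⟩, ?_, ?_⟩
  · intro w hw n hn hd
    refine le_trans (Real.exp_le_exp.2 ?_) (hzS w hw n hn hd)
    refine Real.rpow_le_rpow_of_exponent_ge hδ hδ1.le ?_
    rw [hτ₂]
    linarith
  · exact escape hf (le_max_left _ _) hLb hzb hδ hδ1 hsm hzS

/-- The component of the Fatou set containing a point is a `Comp`. -/
theorem comp_of (hOpen : Stmt_FatOpen) {f : ℂ → ℂ} {R : ℝ} {z₀ : ℂ} (hz₀ : z₀ ∈ Fat f)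
    (hR : ∀ n : ℕ, ∀ w ∈ connectedComponentIn (Fat f) z₀, ‖f^[n] w‖ ≤ R) :
    Comp f R (connectedComponentIn (Fat f) z₀) := by
  have hop : IsOpen (connectedComponentIn (Fat f) z₀) := (hOpen f).connectedComponentIn
  refine ⟨hop, isConnected_connectedComponentIn_iff.2 hz₀, connectedComponentIn_subset _ _, ?_, hR⟩
  intro z hz hzF
  obtain ⟨r, hr, hball⟩ := Metric.isOpen_iff.1 (hOpen f) z hzF
  have hzc : z ∈ closure (connectedComponentIn (Fat f) z₀) := frontier_subset_closure hz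
  obtain ⟨y, hyb, hyU⟩ := mem_closure_iff.1 hzc (ball z r) isOpen_ball (mem_ball_self hr)
  have h1 : ball z r ⊆ connectedComponentIn (Fat f) y :=
    (convex_ball z r).isPreconnected.subset_connectedComponentIn hyb hball
  rw [← connectedComponentIn_eq hyU] at h1
  have h2 : z ∈ connectedComponentIn (Fat f) z₀ := h1 (mem_ball_self hr)
  rw [hop.frontier_eq] at hz
  exact hz.2 h2

/-- A function with a wandering set is not constant. -/
theorem nonconst_of {f : ℂ → ℂ} (hf : Differentiable ℂ f) {V : Set ℂ} (hV : V.Nonempty)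
    (hdis : ∀ n m : ℕ, n ≠ m → Disjoint (f^[n] '' V) (f^[m] '' V)) : ∃ z, deriv f z ≠ 0 := by
  by_contra hcon
  push Not at hcon
  obtain ⟨x, hx⟩ := hV
  have h1 : f (f x) = f x := is_const_of_deriv_eq_zero hf hcon _ _
  exact Set.disjoint_left.1 (hdis 1 2 (by norm_num)) (show f x ∈ f^[1] '' V from ⟨x, hx, rfl⟩)
    (show f x ∈ f^[2] '' V from ⟨x, hx, h1⟩)

end Pool.Agent.AS
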