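import Pool.Agent.AS.Defs

set_option autoImplicit false

/-! # Approximate Sullivan argument, A2: the defect of invariance is holomorphic -/

namespace Pool.Agent.AS

open Complex Metric Set Filter Topology MeasureTheory
open scoped ComplexConjugate

theorem eta_det (z : ℂ) :
    ((ContinuousLinearMap.toSpanSingleton ℂ z).restrictScalars ℝ).det = ‖z‖ ^ 2 := by
  have h : (((ContinuousLinearMap.toSpanSingleton ℂ z).restrictScalars ℝ : ℂ →L[ℝ] ℂ) :
      ℂ →ₗ[ℝ] ℂ) = Algebra.lmul ℝ ℂ z := by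
    ext w <;> simp [mul_comm]
  unfold ContinuousLinearMap.det
  rw [h, ← Algebra.norm_apply, Algebra.norm_complex_apply, Complex.normSq_eq_norm_sq]

/-! ## Integrability of the kernel -/

theorem eta_integrable {ρ : ℝ} {ν : ℂ → ℂ} (hν : Adm ν ρ) (z : ℂ) :
    Integrable (fun u : ℂ => ν u / (z - u)) := by
  have h1 : LocallyIntegrable (fun v : ℂ => v⁻¹) (volume : Measure ℂ) := by
    refine locallyIntegrable_of_norm_le_rpow (μ := (volume : Measure ℂ)) (C := 1) (α := 1)
      (by rw [Complex.finrank_real_complex]; norm_num)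
      (by rw [Complex.finrank_real_complex]; norm_num) ?_ ?_
    · refine Filter.Eventually.of_forall fun v => ?_
      rw [one_mul, Real.rpow_neg (norm_nonneg _), Real.rpow_one, norm_inv]
    · exact measurable_inv.aestronglyMeasurable
  have h2 : IntegrableOn (fun v : ℂ => v⁻¹) (closedBall (0 : ℂ) (‖z‖ + ρ)) :=
    h1.integrableOn_isCompact (isCompact_closedBall _ _)
  have h3 : Integrable ((closedBall (0 : ℂ) (‖z‖ + ρ)).indicator fun v : ℂ => v⁻¹) :=
    h2.integrable_indicator measurableSet_closedBall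
  have h4 := h3.comp_sub_left z
  refine h4.mono ?_ (Filter.Eventually.of_forall fun u => ?_)
  · exact (hν.meas.div (measurable_const.sub measurable_id)).aestronglyMeasurable
  · by_cases hu : ρ < ‖u‖
    · rw [hν.supp u hu, zero_div, norm_zero]
      exact norm_nonneg _
    · have hmem : z - u ∈ closedBall (0 : ℂ) (‖z‖ + ρ) := by
        rw [mem_closedBall_zero_iff]
        have := norm_sub_le z u
        linarith
      rw [indicator_of_mem hmem, norm_div, norm_inv]
      have := hν.bd u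
      rw [div_eq_mul_inv]
      calc ‖ν u‖ * ‖z - u‖⁻¹ ≤ 1 * ‖z - u‖⁻¹ :=
            mul_le_mul_of_nonneg_right this (inv_nonneg.2 (norm_nonneg _))
        _ = ‖z - u‖⁻¹ := one_mul _

theorem eta_adm {ρ : ℝ} {ν : ℂ → ℂ} (hν : Adm ν ρ) {S : Set ℂ} (hS : MeasurableSet S) :
    Adm (S.indicator ν) ρ where
  meas := hν.meas.indicator hS
  bd := fun z => by
    by_cases h : z ∈ S
    · rw [indicator_of_mem h]; exact hν.bd z
    · rw [indicator_of_notMem h, norm_zero]; exact zero_le_one
  supp := fun z hz => by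
    by_cases h : z ∈ S
    · rw [indicator_of_mem h]; exact hν.supp z hz
    · rw [indicator_of_notMem h]

theorem eta_ct_split {ρ : ℝ} {ν : ℂ → ℂ} (hν : Adm ν ρ) {S : Set ℂ} (hS : MeasurableSet S)
    (z : ℂ) : ct ν z = ct (S.indicator ν) z + ct (Sᶜ.indicator ν) z := by
  unfold ct
  rw [← mul_add, ← integral_add (eta_integrable (eta_adm hν hS) z)
    (eta_integrable (eta_adm hν hS.compl) z)]
  congr 1
  refine integral_congr_ae (Filter.Eventually.of_forall fun u => ?_)
  show ν u / (z - u) = S.indicator ν u / (z - u) + Sᶜ.indicator ν u / (z - u)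
  rw [← add_div]
  congr 1
  by_cases h : u ∈ S
  · rw [indicator_of_mem h, indicator_of_notMem (fun hc : u ∈ Sᶜ => hc h), add_zero]
  · rw [indicator_of_notMem h, indicator_of_mem (show u ∈ Sᶜ from h), zero_add]

theorem eta_ct_ind (ν : ℂ → ℂ) {S : Set ℂ} (hS : MeasurableSet S) (z : ℂ) :
    ct (S.indicator ν) z = (Real.pi : ℂ)⁻¹ * ∫ u in S, ν u / (z - u) := by
  unfold ct
  rw [← integral_indicator hS]
  congr 1
  refine integral_congr_ae (Filter.Eventually.of_forall fun u => ?_)
  show S.indicator ν u / (z - u) = S.indicator (fun u => ν u / (z - u)) u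
  by_cases h : u ∈ S
  · rw [indicator_of_mem h, indicator_of_mem h]
  · rw [indicator_of_notMem h, indicator_of_notMem h, zero_div]

theorem eta_ct_continuous (hH : Stmt_CtHolder) {ρ : ℝ} {ν : ℂ → ℂ} (hν : Adm ν ρ) :
    Continuous (ct ν) := by
  obtain ⟨C, hC, h⟩ := hH ρ (1 / 2) (by norm_num) (by norm_num)
  rw [continuous_iff_continuousAt]
  intro z
  rw [ContinuousAt, tendsto_iff_norm_sub_tendsto_zero]
  have h1 : Tendsto (fun w : ℂ => C * ‖w - z‖ ^ (1 / 2 : ℝ)) (𝓝 z) (𝓝 0) := by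
    have hc : Continuous fun w : ℂ => C * ‖w - z‖ ^ (1 / 2 : ℝ) := by
      refine continuous_const.mul ?_
      exact ((continuous_id.sub continuous_const).norm).rpow_const fun _ => Or.inr (by norm_num)
    have := hc.tendsto z
    simpa using this
  exact squeeze_zero (fun _ => norm_nonneg _) (fun w => h ν hν w z) h1

/-! ## Measurability of a derivative with respect to a parameter -/

theorem eta_deriv_meas {μ : Measure ℂ} {F : ℂ → ℂ → ℂ} {F' : ℂ → ℂ} {z₀ : ℂ} {r : ℝ} (hr : 0 < r)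
    (hF : ∀ z ∈ ball z₀ r, AEStronglyMeasurable (F z) μ)
    (hd : ∀ᵐ u ∂μ, HasDerivAt (fun z => F z u) (F' u) z₀) : AEStronglyMeasurable F' μ := by
  set s : ℕ → ℂ := fun n => z₀ + ((r / (n + 2) : ℝ) : ℂ) with hs
  have hpos : ∀ n : ℕ, 0 < r / ((n : ℝ) + 2) := fun n => by positivity
  have hlim : Tendsto (fun n : ℕ => r / ((n : ℝ) + 2)) atTop (𝓝 0) := by
    refine Tendsto.div_atTop tendsto_const_nhds ?_
    exact tendsto_atTop_add_const_right _ _ tendsto_natCast_atTop_atTop
  have hs1 : Tendsto s atTop (𝓝[≠] z₀) := by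
    refine tendsto_nhdsWithin_iff.2 ⟨?_, Filter.Eventually.of_forall fun n => ?_⟩
    · have h := (Complex.continuous_ofReal.tendsto 0).comp hlim
      have h' := h.const_add z₀
      rw [Complex.ofReal_zero, add_zero] at h'
      exact h'
    · simp only [mem_compl_iff, mem_singleton_iff, hs]
      intro h
      have h1 : ((r / ((n : ℝ) + 2) : ℝ) : ℂ) = 0 := by linear_combination h
      have h2 := Complex.ofReal_eq_zero.1 h1
      exact (hpos n).ne' h2
  have hs2 : ∀ n, s n ∈ ball z₀ r := fun n => by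
    rw [mem_ball, dist_eq_norm]
    simp only [hs, add_sub_cancel_left]
    rw [Complex.norm_real, Real.norm_eq_abs, abs_of_pos (hpos n)]
    rw [div_lt_iff₀ (by positivity)]
    nlinarith [Nat.cast_nonneg (α := ℝ) n]
  refine aestronglyMeasurable_of_tendsto_ae (u := atTop)
    (f := fun (n : ℕ) (u : ℂ) => (s n - z₀)⁻¹ * (F (s n) u - F z₀ u)) ?_ ?_
  · intro n
    exact ((hF _ (hs2 n)).sub (hF _ (mem_ball_self hr))).const_mul _
  · filter_upwards [hd] with u hu
    have h1 := (hasDerivAt_iff_tendsto_slope.1 hu).comp hs1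
    exact h1

/-! ## The kernel -/

/-- The kernel, continued to the diagonal. -/
noncomputable def etaK (f : ℂ → ℂ) (u z : ℂ) : ℂ :=
  dslope (fun w => deriv f u ^ 2 - deriv f w * dslope f u w) u z / dslope f u z

theorem etaK_of_ne {f : ℂ → ℂ} {u z : ℂ} (h : z ≠ u) (hf : f z ≠ f u) :
    etaK f u z = deriv f u ^ 2 / (f z - f u) - deriv f z / (z - u) := by
  have h1 : z - u ≠ 0 := sub_ne_zero.2 h
  have h2 : f z - f u ≠ 0 := sub_ne_zero.2 hf
  unfold etaK
  rw [dslope_of_ne _ h, dslope_of_ne _ h, slope_def_field, slope_def_field, dslope_of_ne _ h,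
    dslope_same, slope_def_field]
  field_simp
  ring

theorem eta_dslope_diff {f : ℂ → ℂ} (hf : Differentiable ℂ f) (u : ℂ) :
    Differentiable ℂ (dslope f u) := by
  rw [← differentiableOn_univ]
  exact (Complex.differentiableOn_dslope Filter.univ_mem).2 hf.differentiableOn

theorem eta_deriv_diff {f : ℂ → ℂ} (hf : Differentiable ℂ f) : Differentiable ℂ (deriv f) := by
  rw [← differentiableOn_univ]
  exact (hf.differentiableOn (s := univ)).deriv isOpen_univ

theorem etaK_diff {f : ℂ → ℂ} (hf : Differentiable ℂ f) {u z : ℂ} (h : dslope f u z ≠ 0) :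
    DifferentiableAt ℂ (etaK f u) z := by
  have h1 : Differentiable ℂ (fun w => deriv f u ^ 2 - deriv f w * dslope f u w) :=
    (differentiable_const _).sub ((eta_deriv_diff hf).mul (eta_dslope_diff hf u))
  exact ((eta_dslope_diff h1 u) z).div ((eta_dslope_diff hf u) z) h

/-- Data of the local argument. -/
structure EtaLoc (f : ℂ → ℂ) (z₀ a : ℂ) (r L : ℝ) : Prop where
  hf : Differentiable ℂ f
  ha : a ≠ 0
  hr : 0 < r
  hL : 0 ≤ L
  near : ∀ z ∈ ball z₀ r, ‖deriv f z - a‖ ≤ ‖a‖ / 2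
  lip : ∀ z ∈ ball z₀ r, ∀ w ∈ ball z₀ r, ‖deriv f z - deriv f w‖ ≤ L * ‖z - w‖

namespace EtaLoc

variable {f : ℂ → ℂ} {z₀ a : ℂ} {r L : ℝ}

theorem low (E : EtaLoc f z₀ a r L) {z u : ℂ} (hz : z ∈ ball z₀ r) (hu : u ∈ ball z₀ r) :
    ‖a‖ / 2 * ‖z - u‖ ≤ ‖f z - f u‖ := by
  have h1 : ‖(f z - a * z) - (f u - a * u)‖ ≤ ‖a‖ / 2 * ‖z - u‖ := by
    refine Convex.norm_image_sub_le_of_norm_hasDerivWithin_le (𝕜 := ℂ)
      (f := fun w => f w - a * w) (f' := fun w => deriv f w - a) (s := ball z₀ r) ?_ ?_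
      (convex_ball _ _) hu hz
    · intro w hw
      have h := ((E.hf w).hasDerivAt.sub ((hasDerivAt_id w).const_mul a)).hasDerivWithinAt
        (s := ball z₀ r)
      rw [mul_one] at h
      exact h
    · intro w hw
      exact E.near w hw
  have h2 : f z - f u = a * (z - u) + ((f z - a * z) - (f u - a * u)) := by ring
  have h3 : ‖a * (z - u)‖ = ‖a‖ * ‖z - u‖ := norm_mul _ _
  have h4 : ‖a * (z - u)‖ ≤ ‖f z - f u‖ + ‖(f z - a * z) - (f u - a * u)‖ := by
    have h5 : a * (z - u) = (f z - f u) - ((f z - a * z) - (f u - a * u)) := by ring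
    rw [h5]
    exact norm_sub_le _ _
  linarith

theorem ne (E : EtaLoc f z₀ a r L) {z u : ℂ} (hz : z ∈ ball z₀ r) (hu : u ∈ ball z₀ r)
    (h : z ≠ u) : f z ≠ f u := by
  intro h1
  have h2 := E.low hz hu
  rw [h1, sub_self, norm_zero] at h2
  have h3 : 0 < ‖a‖ / 2 * ‖z - u‖ :=
    mul_pos (half_pos (norm_pos_iff.2 E.ha)) (norm_pos_iff.2 (sub_ne_zero.2 h))
  linarith

theorem inj (E : EtaLoc f z₀ a r L) : InjOn f (ball z₀ r) := by
  intro z hz u hu h
  by_contra hne
  exact E.ne hz hu hne h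

theorem der_ne (E : EtaLoc f z₀ a r L) {z : ℂ} (hz : z ∈ ball z₀ r) : deriv f z ≠ 0 := by
  intro h
  have h1 := E.near z hz
  rw [h, zero_sub, norm_neg] at h1
  have := norm_pos_iff.2 E.ha
  linarith

theorem der_le (E : EtaLoc f z₀ a r L) {z : ℂ} (hz : z ∈ ball z₀ r) :
    ‖deriv f z‖ ≤ 2 * ‖a‖ := by
  have h1 := E.near z hz
  have h2 : ‖deriv f z‖ ≤ ‖deriv f z - a‖ + ‖a‖ := by
    have := norm_add_le (deriv f z - a) a
    simpa using this
  have := norm_nonneg a
  linarith

theorem slope_ne (E : EtaLoc f z₀ a r L) {z u : ℂ} (hz : z ∈ ball z₀ r) (hu : u ∈ ball z₀ r) :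
    dslope f u z ≠ 0 := by
  by_cases h : z = u
  · rw [h, dslope_same]
    exact E.der_ne hu
  · rw [dslope_of_ne _ h, slope_def_field]
    exact div_ne_zero (sub_ne_zero.2 (E.ne hz hu h)) (sub_ne_zero.2 h)

theorem taylor (E : EtaLoc f z₀ a r L) {z u : ℂ} (hz : z ∈ ball z₀ r) (hu : u ∈ ball z₀ r) :
    ‖f z - f u - deriv f u * (z - u)‖ ≤ L * ‖z - u‖ * ‖z - u‖ := by
  have h1 : ‖(f z - deriv f u * z) - (f u - deriv f u * u)‖ ≤ L * ‖z - u‖ * ‖z - u‖ := by
    refine Convex.norm_image_sub_le_of_norm_hasDerivWithin_le (𝕜 := ℂ)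
      (f := fun w => f w - deriv f u * w) (f' := fun w => deriv f w - deriv f u)
      (s := ball z₀ r ∩ closedBall u ‖z - u‖) ?_ ?_
      ((convex_ball _ _).inter (convex_closedBall _ _)) ⟨hu, ?_⟩ ⟨hz, ?_⟩
    · intro w hw
      have h := ((E.hf w).hasDerivAt.sub ((hasDerivAt_id w).const_mul
        (deriv f u))).hasDerivWithinAt (s := ball z₀ r ∩ closedBall u ‖z - u‖)
      rw [mul_one] at h
      exact h
    · intro w hw
      refine (E.lip w hw.1 u hu).trans ?_
      refine mul_le_mul_of_nonneg_left ?_ E.hL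
      have := hw.2
      rwa [mem_closedBall, dist_eq_norm] at this
    · exact mem_closedBall_self (norm_nonneg _)
    · rw [mem_closedBall, dist_eq_norm]
  have h2 : f z - f u - deriv f u * (z - u) = (f z - deriv f u * z) - (f u - deriv f u * u) := by
    ring
  rw [h2]
  exact h1

theorem bound_ne (E : EtaLoc f z₀ a r L) {z u : ℂ} (hz : z ∈ ball z₀ r) (hu : u ∈ ball z₀ r)
    (h : z ≠ u) : ‖etaK f u z‖ ≤ 5 * L := by
  rw [etaK_of_ne h (E.ne hz hu h)]
  have ha : 0 < ‖a‖ := norm_pos_iff.2 E.ha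
  have h1 : z - u ≠ 0 := sub_ne_zero.2 h
  have hd : 0 < ‖z - u‖ := norm_pos_iff.2 h1
  have h2 : f z - f u ≠ 0 := sub_ne_zero.2 (E.ne hz hu h)
  have hlow := E.low hz hu
  have hfp : 0 < ‖f z - f u‖ := norm_pos_iff.2 h2
  have h3 : deriv f u ^ 2 / (f z - f u) - deriv f z / (z - u) =
      (-(deriv f u * (f z - f u - deriv f u * (z - u)))
        - (f z - f u) * (deriv f z - deriv f u)) / ((f z - f u) * (z - u)) := by
    field_simp
    ring
  rw [h3, norm_div, norm_mul, div_le_iff₀ (by positivity)]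
  have h4 : ‖-(deriv f u * (f z - f u - deriv f u * (z - u)))
        - (f z - f u) * (deriv f z - deriv f u)‖ ≤
      (2 * ‖a‖) * (L * ‖z - u‖ * ‖z - u‖) + ‖f z - f u‖ * (L * ‖z - u‖) := by
    refine (norm_sub_le _ _).trans ?_
    rw [norm_neg, norm_mul, norm_mul]
    refine add_le_add ?_ ?_
    · exact mul_le_mul (E.der_le hu) (E.taylor hz hu) (norm_nonneg _) (by positivity)
    · exact mul_le_mul_of_nonneg_left (E.lip z hz u hu) (norm_nonneg _)
  refine h4.trans ?_
  have h5 : (2 * ‖a‖) * (L * ‖z - u‖ * ‖z - u‖) ≤ 4 * L * (‖f z - f u‖ * ‖z - u‖) := by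
    have h6 : 0 ≤ 4 * L * ‖z - u‖ := by
      have := E.hL
      positivity
    nlinarith [mul_le_mul_of_nonneg_left hlow h6]
  nlinarith

theorem bound (E : EtaLoc f z₀ a r L) {z u : ℂ} (hz : z ∈ ball z₀ r) (hu : u ∈ ball z₀ r) :
    ‖etaK f u z‖ ≤ 5 * L := by
  by_cases h : z = u
  · have hc : ContinuousAt (etaK f u) z := (etaK_diff E.hf (E.slope_ne hz hu)).continuousAt
    have ht : Tendsto (fun w => ‖etaK f u w‖) (𝓝[≠] z) (𝓝 ‖etaK f u z‖) :=
      (hc.norm).tendsto.mono_left nhdsWithin_le_nhds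
    refine le_of_tendsto ht ?_
    filter_upwards [self_mem_nhdsWithin, nhdsWithin_le_nhds (isOpen_ball.mem_nhds hz)] with w hw hw2
    exact E.bound_ne hw2 hu (by rw [← h]; exact hw)
  · exact E.bound_ne hz hu h

theorem bound_deriv (E : EtaLoc f z₀ a r L) {z u : ℂ} (hz : z ∈ ball z₀ (r / 2))
    (hu : u ∈ ball z₀ r) : ‖deriv (etaK f u) z‖ ≤ 5 * L / (r / 4) := by
  have hr := E.hr
  have hsub : closedBall z (r / 4) ⊆ ball z₀ r := by
    intro w hw
    rw [mem_closedBall] at hw
    rw [mem_ball] at hz ⊢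
    have := dist_triangle w z z₀
    linarith
  refine Complex.norm_deriv_le_of_forall_mem_sphere_norm_le (by positivity) ?_ ?_
  · apply DifferentiableOn.diffContOnCl
    intro w hw
    have hw' : w ∈ ball z₀ r := by
      apply hsub
      exact closure_ball_subset_closedBall hw
    exact (etaK_diff E.hf (E.slope_ne hw' hu)).differentiableWithinAt
  · intro w hw
    exact E.bound (hsub (sphere_subset_closedBall hw)) hu

theorem meas (E : EtaLoc f z₀ a r L) {ν : ℂ → ℂ} (hν : Measurable ν) {z : ℂ}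
    (hz : z ∈ ball z₀ r) :
    AEStronglyMeasurable (fun u => ν u * etaK f u z) (volume.restrict (ball z₀ r)) := by
  have h1 : Measurable (fun u => ν u * (deriv f u ^ 2 / (f z - f u) - deriv f z / (z - u))) := by
    refine hν.mul ((Measurable.div ?_ ?_).sub (Measurable.div measurable_const ?_))
    · exact (measurable_deriv f).pow_const 2
    · exact measurable_const.sub E.hf.continuous.measurable
    · exact measurable_const.sub measurable_id
  refine h1.aestronglyMeasurable.congr ?_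
  have h2 : ∀ᵐ u ∂(volume.restrict (ball z₀ r)), u ∈ ball z₀ r :=
    ae_restrict_mem measurableSet_ball
  have h3 : ∀ᵐ u ∂(volume.restrict (ball z₀ r)), u ∉ ({z} : Set ℂ) :=
    (countable_singleton z).ae_notMem _
  filter_upwards [h2, h3] with u hu hne
  have hne' : z ≠ u := fun h => hne (by rw [h]; exact mem_singleton u)
  rw [etaK_of_ne hne' (E.ne hz hu hne')]

/-- the integral of the kernel is differentiable -/
theorem int_diff (E : EtaLoc f z₀ a r L) {ν : ℂ → ℂ} (hν : Measurable ν) (hb : ∀ z, ‖ν z‖ ≤ 1) :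
    DifferentiableAt ℂ (fun z => ∫ u in ball z₀ r, ν u * etaK f u z) z₀ := by
  have hr := E.hr
  have hfin : IsFiniteMeasure (volume.restrict (ball z₀ r)) :=
    ⟨by rw [Measure.restrict_apply_univ]; exact measure_ball_lt_top⟩
  have h2 : ∀ᵐ u ∂(volume.restrict (ball z₀ r)), u ∈ ball z₀ r :=
    ae_restrict_mem measurableSet_ball
  have hd : ∀ᵐ u ∂(volume.restrict (ball z₀ r)), ∀ z ∈ ball z₀ (r / 2),
      HasDerivAt (fun z => ν u * etaK f u z) (ν u * deriv (etaK f u) z) z := by
    filter_upwards [h2] with u hu z hz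
    have hz' : z ∈ ball z₀ r := ball_subset_ball (by linarith) hz
    exact (etaK_diff E.hf (E.slope_ne hz' hu)).hasDerivAt.const_mul _
  have h := hasDerivAt_integral_of_dominated_loc_of_deriv_le
    (μ := volume.restrict (ball z₀ r)) (F := fun z u => ν u * etaK f u z)
    (F' := fun z u => ν u * deriv (etaK f u) z) (bound := fun _ => 5 * L / (r / 4))
    (x₀ := z₀) (s := ball z₀ (r / 2)) (ball_mem_nhds z₀ (by linarith)) ?_ ?_ ?_ ?_ ?_ hd
  · exact h.2.differentiableAt
  · filter_upwards [ball_mem_nhds z₀ hr] with z hz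
    exact E.meas hν hz
  · refine Integrable.of_bound (E.meas hν (mem_ball_self hr)) (5 * L) ?_
    filter_upwards [h2] with u hu
    rw [norm_mul]
    have h3 := E.bound (mem_ball_self hr) hu
    calc ‖ν u‖ * ‖etaK f u z₀‖ ≤ 1 * (5 * L) :=
          mul_le_mul (hb u) h3 (norm_nonneg _) zero_le_one
      _ = 5 * L := one_mul _
  · refine eta_deriv_meas (F := fun z u => ν u * etaK f u z) (z₀ := z₀) (r := r) hr
      (fun z hz => E.meas hν hz) ?_
    filter_upwards [hd] with u hu
    exact hu z₀ (mem_ball_self (by linarith))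
  · filter_upwards [h2] with u hu z hz
    rw [norm_mul]
    have h3 := E.bound_deriv hz hu
    calc ‖ν u‖ * ‖deriv (etaK f u) z‖ ≤ 1 * (5 * L / (r / 4)) :=
          mul_le_mul (hb u) h3 (norm_nonneg _) zero_le_one
      _ = 5 * L / (r / 4) := one_mul _
  · exact integrable_const _

theorem image_open (E : EtaLoc f z₀ a r L) : IsOpen (f '' ball z₀ r) := by
  rw [isOpen_iff_mem_nhds]
  rintro _ ⟨z, hz, rfl⟩
  have h1 : HasStrictDerivAt f (deriv f z) z :=
    ((E.hf.analyticAt z).hasStrictDerivAt)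
  have h2 := h1.map_nhds_eq (E.der_ne hz)
  rw [← h2]
  exact image_mem_map (isOpen_ball.mem_nhds hz)

/-- change of variables -/
theorem change (E : EtaLoc f z₀ a r L) {ν : ℂ → ℂ}
    (hinv : ∀ z ∈ ball z₀ r, ν z * deriv f z = ν (f z) * conj (deriv f z)) (z : ℂ) :
    ∫ v in f '' ball z₀ r, ν v / (f z - v) =
      ∫ u in ball z₀ r, ν u * (deriv f u ^ 2 / (f z - f u)) := by
  have h1 := integral_image_eq_integral_abs_det_fderiv_smul (volume : Measure ℂ)
    (s := ball z₀ r) (f := f)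
    (f' := fun w => (ContinuousLinearMap.toSpanSingleton ℂ (deriv f w)).restrictScalars ℝ)
    measurableSet_ball
    (fun w _ => (((E.hf w).hasDerivAt.hasFDerivAt).restrictScalars ℝ).hasFDerivWithinAt)
    E.inj (fun v => ν v / (f z - v))
  rw [h1]
  refine setIntegral_congr_fun measurableSet_ball fun u hu => ?_
  show |((ContinuousLinearMap.toSpanSingleton ℂ (deriv f u)).restrictScalars ℝ).det| •
    (ν (f u) / (f z - f u)) = ν u * (deriv f u ^ 2 / (f z - f u))
  rw [eta_det, abs_of_nonneg (by positivity), Complex.real_smul]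
  have h2 : ((‖deriv f u‖ ^ 2 : ℝ) : ℂ) = deriv f u * conj (deriv f u) := by
    rw [Complex.mul_conj, Complex.normSq_eq_norm_sq]
  rw [h2]
  have h3 := hinv u hu
  calc deriv f u * conj (deriv f u) * (ν (f u) / (f z - f u)) =
        deriv f u * (ν (f u) * conj (deriv f u)) / (f z - f u) := by ring
    _ = deriv f u * (ν u * deriv f u) / (f z - f u) := by rw [h3]
    _ = ν u * (deriv f u ^ 2 / (f z - f u)) := by ring

/-- the singular part of the defect is the integral of the kernel -/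
theorem main (E : EtaLoc f z₀ a r L) {ν : ℂ → ℂ} {ρ : ℝ} (hν : Adm ν ρ)
    (hinv : ∀ z ∈ ball z₀ r, ν z * deriv f z = ν (f z) * conj (deriv f z)) {z : ℂ}
    (hz : z ∈ ball z₀ r) :
    ct ((f '' ball z₀ r).indicator ν) (f z) - deriv f z * ct ((ball z₀ r).indicator ν) z =
      (Real.pi : ℂ)⁻¹ * ∫ u in ball z₀ r, ν u * etaK f u z := by
  rw [eta_ct_ind ν E.image_open.measurableSet, eta_ct_ind ν measurableSet_ball, E.change hinv]
  have ha : 0 < ‖a‖ := norm_pos_iff.2 E.ha
  have hI := eta_integrable hν z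
  have h2 : Integrable (fun u => ν u * (deriv f z / (z - u))) (volume.restrict (ball z₀ r)) := by
    have h := (hI.integrableOn (s := ball z₀ r)).const_mul (deriv f z)
    refine h.congr (Filter.Eventually.of_forall fun u => ?_)
    show deriv f z * (ν u / (z - u)) = ν u * (deriv f z / (z - u))
    ring
  have hmem : ∀ᵐ u ∂(volume.restrict (ball z₀ r)), u ∈ ball z₀ r :=
    ae_restrict_mem measurableSet_ball
  have h1 : Integrable (fun u => ν u * (deriv f u ^ 2 / (f z - f u)))
      (volume.restrict (ball z₀ r)) := by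
    have h := ((hI.norm.integrableOn (s := ball z₀ r))).const_mul (8 * ‖a‖)
    refine Integrable.mono' h ?_ ?_
    · refine Measurable.aestronglyMeasurable ?_
      refine hν.meas.mul (Measurable.div ?_ ?_)
      · exact (measurable_deriv f).pow_const 2
      · exact measurable_const.sub E.hf.continuous.measurable
    · filter_upwards [hmem] with u hu
      by_cases hzu : z = u
      · rw [hzu, sub_self, div_zero, mul_zero, norm_zero]
        positivity
      · have hd : 0 < ‖z - u‖ := norm_pos_iff.2 (sub_ne_zero.2 hzu)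
        have hlow := E.low hz hu
        have hfp : 0 < ‖f z - f u‖ := norm_pos_iff.2 (sub_ne_zero.2 (E.ne hz hu hzu))
        rw [norm_mul, norm_div, norm_pow, norm_div]
        have h3 : ‖deriv f u‖ ^ 2 / ‖f z - f u‖ ≤ 8 * ‖a‖ / ‖z - u‖ := by
          rw [div_le_div_iff₀ hfp hd]
          have h4 : ‖deriv f u‖ ^ 2 ≤ (2 * ‖a‖) ^ 2 :=
            pow_le_pow_left₀ (norm_nonneg _) (E.der_le hu) 2
          calc ‖deriv f u‖ ^ 2 * ‖z - u‖ ≤ (2 * ‖a‖) ^ 2 * ‖z - u‖ :=
                mul_le_mul_of_nonneg_right h4 hd.le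
            _ = 8 * ‖a‖ * (‖a‖ / 2 * ‖z - u‖) := by ring
            _ ≤ 8 * ‖a‖ * ‖f z - f u‖ := mul_le_mul_of_nonneg_left hlow (by positivity)
        calc ‖ν u‖ * (‖deriv f u‖ ^ 2 / ‖f z - f u‖) ≤ ‖ν u‖ * (8 * ‖a‖ / ‖z - u‖) :=
              mul_le_mul_of_nonneg_left h3 (norm_nonneg _)
          _ = 8 * ‖a‖ * (‖ν u‖ / ‖z - u‖) := by ring
  have h5 : ∫ u in ball z₀ r, ν u * etaK f u z =
      ∫ u in ball z₀ r, (ν u * (deriv f u ^ 2 / (f z - f u)) - ν u * (deriv f z / (z - u))) := by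
    have h3 : ∀ᵐ u ∂(volume.restrict (ball z₀ r)), u ∉ ({z} : Set ℂ) :=
      (countable_singleton z).ae_notMem _
    refine integral_congr_ae ?_
    filter_upwards [hmem, h3] with u hu hne
    have hne' : z ≠ u := fun h => hne (by rw [h]; exact mem_singleton u)
    rw [etaK_of_ne hne' (E.ne hz hu hne'), mul_sub]
  rw [h5, integral_sub h1 h2, mul_sub]
  congr 1
  have h6 : ∫ u in ball z₀ r, ν u * (deriv f z / (z - u)) =
      deriv f z * ∫ u in ball z₀ r, ν u / (z - u) := by
    rw [← integral_const_mul]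
    refine integral_congr_ae (Filter.Eventually.of_forall fun u => ?_)
    show ν u * (deriv f z / (z - u)) = deriv f z * (ν u / (z - u))
    ring
  rw [h6]
  ring

end EtaLoc

theorem eta_loc_exists {f : ℂ → ℂ} (hf : Differentiable ℂ f) {z₀ : ℂ} {R' : ℝ}
    (hz : z₀ ∈ ball (0 : ℂ) R') (ha : deriv f z₀ ≠ 0) :
    ∃ r L : ℝ, ball z₀ r ⊆ ball (0 : ℂ) R' ∧ EtaLoc f z₀ (deriv f z₀) r L := by
  have hd := eta_deriv_diff hf
  have hdd := eta_deriv_diff hd
  have ha' : 0 < ‖deriv f z₀‖ := norm_pos_iff.2 ha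
  have h1 : ∀ᶠ z in 𝓝 z₀, ‖deriv f z - deriv f z₀‖ < ‖deriv f z₀‖ / 2 := by
    have hc : ContinuousAt (fun z => ‖deriv f z - deriv f z₀‖) z₀ :=
      ((hd.continuous.sub continuous_const).norm).continuousAt
    have h0 : ‖deriv f z₀ - deriv f z₀‖ < ‖deriv f z₀‖ / 2 := by
      rw [sub_self, norm_zero]; exact half_pos ha'
    exact hc.eventually (gt_mem_nhds h0)
  obtain ⟨r1, hr1, hr1'⟩ := Metric.eventually_nhds_iff_ball.1 h1
  obtain ⟨r2, hr2, hr2'⟩ := Metric.isOpen_iff.1 isOpen_ball z₀ hz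
  obtain ⟨B, hB⟩ := (isCompact_closedBall z₀ (min r1 r2)).exists_bound_of_continuousOn
    hdd.continuous.continuousOn
  refine ⟨min r1 r2, max B 0, (ball_subset_ball (min_le_right _ _)).trans hr2',
    hf, ha, lt_min hr1 hr2, le_max_right _ _, ?_, ?_⟩
  · intro z hz
    exact (hr1' z (ball_subset_ball (min_le_left _ _) hz)).le
  · intro z hz w hw
    refine Convex.norm_image_sub_le_of_norm_hasDerivWithin_le (𝕜 := ℂ)
      (f := deriv f) (f' := deriv (deriv f)) (s := ball z₀ (min r1 r2)) ?_ ?_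
      (convex_ball _ _) hw hz
    · intro x _
      exact (hd x).hasDerivAt.hasDerivWithinAt
    · intro x hx
      exact (hB x (ball_subset_closedBall hx)).trans (le_max_left _ _)

theorem eta_local (h2 : Stmt_CtHol) {ρ R' : ℝ} {f ν : ℂ → ℂ}
    (hf : Differentiable ℂ f) (hν : Adm ν ρ)
    (hinv : ∀ z ∈ ball (0 : ℂ) R', ν z * deriv f z = ν (f z) * conj (deriv f z)) {z₀ : ℂ}
    (hz : z₀ ∈ ball (0 : ℂ) R') (ha : deriv f z₀ ≠ 0) :
    DifferentiableAt ℂ (fun z => ct ν (f z) - deriv f z * ct ν z) z₀ := by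
  obtain ⟨r, L, hsub, E⟩ := eta_loc_exists hf hz ha
  have hr := E.hr
  have hA := E.image_open
  have hm0 : z₀ ∈ ball z₀ r := mem_ball_self hr
  have hinv' : ∀ z ∈ ball z₀ r, ν z * deriv f z = ν (f z) * conj (deriv f z) :=
    fun z hz => hinv z (hsub hz)
  -- the regular parts
  have hR1 : DifferentiableAt ℂ (fun z => ct ((f '' ball z₀ r)ᶜ.indicator ν) (f z)) z₀ := by
    have h := h2 ρ _ (eta_adm hν hA.measurableSet.compl) (f '' ball z₀ r) hA
      (fun v hv => indicator_of_notMem (fun hc : v ∈ (f '' ball z₀ r)ᶜ => hc hv) _)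
    have h' := h.differentiableAt (hA.mem_nhds ⟨z₀, hm0, rfl⟩)
    exact h'.comp z₀ (hf z₀)
  have hR2 : DifferentiableAt ℂ (fun z => deriv f z * ct ((ball z₀ r)ᶜ.indicator ν) z) z₀ := by
    have h := h2 ρ _ (eta_adm hν measurableSet_ball.compl) (ball z₀ r) isOpen_ball
      (fun v hv => indicator_of_notMem (fun hc : v ∈ (ball z₀ r)ᶜ => hc hv) _)
    have h' := h.differentiableAt (isOpen_ball.mem_nhds hm0)
    exact ((eta_deriv_diff hf) z₀).mul h'
  have hS := (E.int_diff hν.meas hν.bd).const_mul ((Real.pi : ℂ)⁻¹)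
  have htot := (hS.add hR1).sub hR2
  refine htot.congr_of_eventuallyEq ?_
  filter_upwards [isOpen_ball.mem_nhds hm0] with z hz'
  have h3 := E.main hν hinv' hz'
  have h4 := eta_ct_split hν hA.measurableSet (f z)
  have h5 := eta_ct_split hν (measurableSet_ball (x := z₀) (ε := r)) z
  show ct ν (f z) - deriv f z * ct ν z =
    (Real.pi : ℂ)⁻¹ * (∫ u in ball z₀ r, ν u * etaK f u z) +
      ct ((f '' ball z₀ r)ᶜ.indicator ν) (f z) - deriv f z * ct ((ball z₀ r)ᶜ.indicator ν) z
  rw [h4, h5, ← h3]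
  ring

theorem etaHol (h1 : Stmt_CtHolder) (h2 : Stmt_CtHol) : Stmt_EtaHol := by
  intro ρ R' f ν hf hne hν hinv z₀ hz
  refine DifferentiableAt.differentiableWithinAt ?_
  by_cases ha : deriv f z₀ = 0
  · have hd := eta_deriv_diff hf
    have hiso : ∀ᶠ z in 𝓝[≠] z₀, deriv f z ≠ 0 := by
      rcases (hd.analyticAt z₀).eventually_eq_zero_or_eventually_ne_zero with h | h
      · exfalso
        obtain ⟨w, hw⟩ := hne
        have hall : EqOn (deriv f) 0 univ :=
          AnalyticOnNhd.eqOn_zero_of_preconnected_of_eventuallyEq_zero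
            (fun z _ => hd.analyticAt z) isPreconnected_univ (mem_univ z₀) h
        exact hw (hall (mem_univ w))
      · exact h
    refine (Complex.analyticAt_of_differentiable_on_punctured_nhds_of_continuousAt ?_
      ?_).differentiableAt
    · filter_upwards [hiso, nhdsWithin_le_nhds (isOpen_ball.mem_nhds hz)] with z hz1 hz2
      exact eta_local h2 hf hν hinv hz2 hz1
    · have hc := eta_ct_continuous h1 hν
      exact ((hc.comp hf.continuous).sub (hd.continuous.mul hc)).continuousAt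
  · exact eta_local h2 hf hν hinv hz ha

end Pool.Agent.AS
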