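import Pool.Agent.AS.Defs

set_option autoImplicit false

/-! # Approximate Sullivan argument: invariant extension (A3) -/

namespace Pool.Agent.AS

open Complex Metric Set Filter Topology MeasureTheory
open scoped ComplexConjugate

/-- The forward orbit of `W`. -/
def extO (f : ℂ → ℂ) (W : Set ℂ) : Set ℂ := {y | ∃ p : ℕ × ℂ, p.2 ∈ W ∧ f^[p.1] p.2 = y}

open Classical in
/-- The time and the starting point of a point of the forward orbit of `W`. -/
noncomputable def extP (f : ℂ → ℂ) (W : Set ℂ) (y : ℂ) : ℕ × ℂ :=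
  if h : y ∈ extO f W then Classical.choose h else (0, 0)

theorem extP_spec {f : ℂ → ℂ} {W : Set ℂ} {y : ℂ} (h : y ∈ extO f W) :
    (extP f W y).2 ∈ W ∧ f^[(extP f W y).1] (extP f W y).2 = y := by
  unfold extP
  rw [dif_pos h]
  exact Classical.choose_spec h

theorem extP_eq {f : ℂ → ℂ} {W : Set ℂ} (hinj : ∀ n : ℕ, InjOn (f^[n]) W)
    (hdis : ∀ n m : ℕ, n ≠ m → Disjoint (f^[n] '' W) (f^[m] '' W)) {n : ℕ} {x : ℂ} (hx : x ∈ W) :
    f^[n] x ∈ extO f W ∧ extP f W (f^[n] x) = (n, x) := by
  have hO : f^[n] x ∈ extO f W := ⟨(n, x), hx, rfl⟩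
  refine ⟨hO, ?_⟩
  obtain ⟨h1, h2⟩ := extP_spec hO
  have hn : (extP f W (f^[n] x)).1 = n := by
    by_contra hne
    exact Set.disjoint_left.mp (hdis _ _ hne) ⟨_, h1, h2⟩ ⟨x, hx, rfl⟩
  rw [hn] at h2
  have hx' : (extP f W (f^[n] x)).2 = x := hinj n h1 hx h2
  exact Prod.ext hn hx'

theorem ext_iter_meas {f : ℂ → ℂ} (hf : Differentiable ℂ f) (n : ℕ) : Measurable (f^[n]) :=
  (hf.continuous.iterate n).measurable

theorem ext_iter_diff {f : ℂ → ℂ} (hf : Differentiable ℂ f) (n : ℕ) :
    Differentiable ℂ (f^[n]) := by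
  induction n with
  | zero => simp
  | succ n ih =>
    rw [Function.iterate_succ']
    exact hf.comp ih

theorem ext_deriv_meas {f : ℂ → ℂ} (n : ℕ) : Measurable (deriv (f^[n])) :=
  measurable_deriv _

theorem extO_meas {f : ℂ → ℂ} {W : Set ℂ} (hf : Differentiable ℂ f) (hW : IsOpen W)
    (hinj : ∀ n : ℕ, InjOn (f^[n]) W) : MeasurableSet (extO f W) := by
  have : extO f W = ⋃ n : ℕ, f^[n] '' W := by
    ext y
    simp only [extO, mem_ofPred_eq, Prod.exists, mem_iUnion, mem_image]
  rw [this]
  exact MeasurableSet.iUnion fun n =>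
    hW.measurableSet.image_of_measurable_injOn (ext_iter_meas hf n) (hinj n)

theorem extP_meas {f : ℂ → ℂ} {W : Set ℂ} (hf : Differentiable ℂ f) (hW : IsOpen W)
    (hinj : ∀ n : ℕ, InjOn (f^[n]) W)
    (hdis : ∀ n m : ℕ, n ≠ m → Disjoint (f^[n] '' W) (f^[m] '' W)) : Measurable (extP f W) := by
  intro S hS
  have hO := extO_meas hf hW hinj
  have h1 : MeasurableSet (⋃ n : ℕ, f^[n] '' (W ∩ {x | (n, x) ∈ S})) := by
    refine MeasurableSet.iUnion fun n => ?_
    have h2 : MeasurableSet (W ∩ {x | (n, x) ∈ S}) :=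
      hW.measurableSet.inter (measurable_prodMk_left hS)
    exact h2.image_of_measurable_injOn (ext_iter_meas hf n) ((hinj n).mono inter_subset_left)
  have h3 : extP f W ⁻¹' S = (⋃ n : ℕ, f^[n] '' (W ∩ {x | (n, x) ∈ S})) ∪
      ((extO f W)ᶜ ∩ {_y | ((0, 0) : ℕ × ℂ) ∈ S}) := by
    ext y
    simp only [mem_preimage, mem_union, mem_iUnion, mem_image, mem_inter_iff, mem_ofPred_eq,
      mem_compl_iff]
    constructor
    · intro h
      by_cases hy : y ∈ extO f W
      · left
        obtain ⟨e1, e2⟩ := extP_spec hy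
        exact ⟨(extP f W y).1, (extP f W y).2, ⟨e1, h⟩, e2⟩
      · right
        unfold extP at h
        rw [dif_neg hy] at h
        exact ⟨hy, h⟩
    · rintro (⟨n, x, ⟨hx, hxS⟩, rfl⟩ | ⟨hy, h⟩)
      · rw [(extP_eq hinj hdis hx).2]
        exact hxS
      · unfold extP
        rw [dif_neg hy]
        exact h
  rw [h3]
  exact h1.union (hO.compl.inter (MeasurableSet.const _))

open Classical in
/-- The coefficient on the forward orbit. -/
noncomputable def extL (f : ℂ → ℂ) (W : Set ℂ) (y : ℂ) : ℂ :=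
  if y ∈ extO f W then deriv (f^[(extP f W y).1]) (extP f W y).2 /
    conj (deriv (f^[(extP f W y).1]) (extP f W y).2) else 0

theorem extL_meas {f : ℂ → ℂ} {W : Set ℂ} (hf : Differentiable ℂ f) (hW : IsOpen W)
    (hinj : ∀ n : ℕ, InjOn (f^[n]) W)
    (hdis : ∀ n m : ℕ, n ≠ m → Disjoint (f^[n] '' W) (f^[m] '' W)) : Measurable (extL f W) := by
  unfold extL
  have hg : Measurable fun p : ℕ × ℂ => deriv (f^[p.1]) p.2 / conj (deriv (f^[p.1]) p.2) := by
    apply measurable_from_prod_countable_right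
    intro n
    exact (ext_deriv_meas n).div (Complex.continuous_conj.measurable.comp (ext_deriv_meas n))
  exact Measurable.ite (extO_meas hf hW hinj) (hg.comp (extP_meas hf hW hinj hdis))
    measurable_const

theorem ext_norm_le (a : ℂ) : ‖a / conj a‖ ≤ 1 := by
  rw [norm_div, RCLike.norm_conj]
  exact div_self_le_one _

theorem ext_norm_le' (a : ℂ) : ‖conj a / a‖ ≤ 1 := by
  rw [norm_div, RCLike.norm_conj]
  exact div_self_le_one _

theorem extL_norm (f : ℂ → ℂ) (W : Set ℂ) (y : ℂ) : ‖extL f W y‖ ≤ 1 := by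
  unfold extL
  split_ifs
  · exact ext_norm_le _
  · simp

/-- The first time at which the orbit meets `extO`. -/
noncomputable def extM (f : ℂ → ℂ) (W : Set ℂ) (z : ℂ) : ℕ := sInf {m | f^[m] z ∈ extO f W}

theorem extM_meas {f : ℂ → ℂ} {W : Set ℂ} (hf : Differentiable ℂ f) (hW : IsOpen W)
    (hinj : ∀ n : ℕ, InjOn (f^[n]) W) : Measurable (extM f W) := by
  have hO := extO_meas hf hW hinj
  have hk : ∀ k : ℕ, MeasurableSet {z | f^[k] z ∈ extO f W} := fun k => ext_iter_meas hf k hO
  apply measurable_to_countable'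
  intro m
  have : extM f W ⁻¹' {m} = ({z | f^[m] z ∈ extO f W} ∩ ⋂ k ∈ {k | k < m},
      {z | f^[k] z ∈ extO f W}ᶜ) ∪ ((⋂ k : ℕ, {z | f^[k] z ∈ extO f W}ᶜ) ∩ {_z | m = 0}) := by
    ext z
    simp only [mem_preimage, mem_singleton_iff, mem_union, mem_inter_iff, mem_ofPred_eq,
      mem_iInter, mem_compl_iff]
    unfold extM
    constructor
    · intro h
      by_cases hex : ∃ k, f^[k] z ∈ extO f W
      · left
        have h1 : sInf {m | f^[m] z ∈ extO f W} ∈ {m | f^[m] z ∈ extO f W} := Nat.sInf_mem hex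
        rw [h] at h1
        refine ⟨h1, fun k hk hc => ?_⟩
        have := Nat.sInf_le (s := {m | f^[m] z ∈ extO f W}) hc
        omega
      · right
        push Not at hex
        refine ⟨hex, ?_⟩
        rw [← h]
        have : {m | f^[m] z ∈ extO f W} = ∅ := by
          ext k
          simpa using hex k
        rw [this]
        exact Nat.sInf_empty
    · rintro (⟨h1, h2⟩ | ⟨h1, h2⟩)
      · apply le_antisymm
        · exact Nat.sInf_le h1
        · by_contra hc
          push Not at hc
          exact h2 _ hc (Nat.sInf_mem (s := {m | f^[m] z ∈ extO f W}) ⟨m, h1⟩)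
      · have : {m | f^[m] z ∈ extO f W} = ∅ := by
          ext k
          simpa using h1 k
        rw [this, Nat.sInf_empty, h2]
  rw [this]
  refine ((hk m).inter ?_).union ((MeasurableSet.iInter fun k => (hk k).compl).inter
    (MeasurableSet.const _))
  exact MeasurableSet.biInter (Set.to_countable _) fun k _ => (hk k).compl

theorem ext_fwd {f : ℂ → ℂ} {W : Set ℂ} {z : ℂ} (h : z ∈ extO f W) : f z ∈ extO f W := by
  obtain ⟨p, h1, h2⟩ := h
  refine ⟨(p.1 + 1, p.2), h1, ?_⟩
  rw [← h2]
  exact Function.iterate_succ_apply' f p.1 p.2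

theorem extM_zero {f : ℂ → ℂ} {W : Set ℂ} {z : ℂ} (h : z ∈ extO f W) : extM f W z = 0 := by
  unfold extM
  have := Nat.sInf_le (s := {m | f^[m] z ∈ extO f W}) (m := 0) h
  omega

theorem extM_none {f : ℂ → ℂ} {W : Set ℂ} {z : ℂ} (h : ∀ k, f^[k] z ∉ extO f W) :
    extM f W z = 0 := by
  unfold extM
  have : {m | f^[m] z ∈ extO f W} = ∅ := by
    ext k
    simpa using h k
  rw [this]
  exact Nat.sInf_empty

theorem extM_succ {f : ℂ → ℂ} {W : Set ℂ} {z : ℂ} (h : z ∉ extO f W)
    (hex : ∃ k, f^[k] z ∈ extO f W) : extM f W z = extM f W (f z) + 1 := by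
  have hsucc : ∀ k, f^[k + 1] z = f^[k] (f z) := fun k => Function.iterate_succ_apply f k z
  obtain ⟨k, hk⟩ := hex
  have hk0 : k ≠ 0 := by
    rintro rfl
    exact h hk
  obtain ⟨j, rfl⟩ := Nat.exists_eq_succ_of_ne_zero hk0
  have hj : f^[j] (f z) ∈ extO f W := by
    rw [← hsucc]
    exact hk
  have h1 : f^[extM f W (f z)] (f z) ∈ extO f W :=
    Nat.sInf_mem (s := {m | f^[m] (f z) ∈ extO f W}) ⟨j, hj⟩
  have h2 : f^[extM f W z] z ∈ extO f W := Nat.sInf_mem (s := {m | f^[m] z ∈ extO f W}) ⟨_, hk⟩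
  apply le_antisymm
  · apply Nat.sInf_le
    show f^[extM f W (f z) + 1] z ∈ extO f W
    rw [hsucc]
    exact h1
  · have h3 : extM f W z ≠ 0 := by
      intro h0
      rw [h0] at h2
      exact h h2
    obtain ⟨i, hi⟩ := Nat.exists_eq_succ_of_ne_zero h3
    rw [hi] at h2 ⊢
    have h4 : f^[i] (f z) ∈ extO f W := by
      rw [← hsucc]
      exact h2
    have := Nat.sInf_le (s := {m | f^[m] (f z) ∈ extO f W}) h4
    unfold extM at *
    omega

theorem ext_chain {f : ℂ → ℂ} (hf : Differentiable ℂ f) (n : ℕ) (z : ℂ) :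
    deriv (f^[n + 1]) z = deriv (f^[n]) (f z) * deriv f z := by
  rw [Function.iterate_succ]
  exact deriv_comp z (ext_iter_diff hf n).differentiableAt hf.differentiableAt

theorem ext_chain' {f : ℂ → ℂ} (hf : Differentiable ℂ f) (n : ℕ) (z : ℂ) :
    deriv (f^[n + 1]) z = deriv f (f^[n] z) * deriv (f^[n]) z := by
  rw [Function.iterate_succ']
  exact deriv_comp z hf.differentiableAt (ext_iter_diff hf n).differentiableAt

theorem extend : Stmt_Ext := by
  intro f W hf hW hinj hdis
  have hP := extP_meas hf hW hinj hdis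
  have hL := extL_meas hf hW hinj hdis
  have hM := extM_meas hf hW hinj
  have hcomp : Measurable fun z => f^[extM f W z] z := by
    have : Measurable fun p : ℕ × ℂ => f^[p.1] p.2 :=
      measurable_from_prod_countable_right fun n => ext_iter_meas hf n
    exact this.comp (hM.prodMk measurable_id)
  have hder : Measurable fun z => deriv (f^[extM f W z]) z := by
    have : Measurable fun p : ℕ × ℂ => deriv (f^[p.1]) p.2 :=
      measurable_from_prod_countable_right fun n => ext_deriv_meas n
    exact this.comp (hM.prodMk measurable_id)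
  have hWO : ∀ z ∈ W, z ∈ extO f W ∧ extP f W z = (0, z) := fun z hz =>
    extP_eq (n := 0) hinj hdis hz
  refine ⟨fun z => (extP f W (f^[extM f W z] z)).2,
    fun z => extL f W (f^[extM f W z] z) *
      (conj (deriv (f^[extM f W z]) z) / deriv (f^[extM f W z]) z),
    measurable_snd.comp (hP.comp hcomp),
    (hL.comp hcomp).mul ((Complex.continuous_conj.measurable.comp hder).div hder), ?_, ?_, ?_⟩
  · intro z
    rw [norm_mul]
    exact mul_le_one₀ (extL_norm f W _) (norm_nonneg _) (ext_norm_le' _)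
  · intro z hz
    obtain ⟨h1, h2⟩ := hWO z hz
    have h3 := extM_zero h1
    dsimp only
    rw [h3]
    simp only [Function.iterate_zero, id_eq]
    refine ⟨by rw [h2], ?_⟩
    unfold extL
    rw [if_pos h1, h2]
    simp
  · intro z hz
    have hcz : conj (deriv f z) ≠ 0 := by
      simpa using hz
    dsimp only
    by_cases hO : z ∈ extO f W
    · have hO' := ext_fwd hO
      rw [extM_zero hO, extM_zero hO']
      simp only [Function.iterate_zero, id_eq, deriv_id, map_one, div_one, mul_one]
      obtain ⟨p, hp, rfl⟩ := hO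
      have e1 := (extP_eq (n := p.1) hinj hdis hp).2
      have e2 := (extP_eq (n := p.1 + 1) hinj hdis hp).2
      have e3 : f (f^[p.1] p.2) = f^[p.1 + 1] p.2 := (Function.iterate_succ_apply' f p.1 p.2).symm
      have hO1 := (extP_eq (n := p.1) hinj hdis hp).1
      have hO2 := (extP_eq (n := p.1 + 1) hinj hdis hp).1
      rw [e3]
      refine ⟨?_, fun _ => by rw [e1, e2]⟩
      unfold extL
      rw [if_pos hO1, if_pos hO2, e1, e2]
      dsimp only
      rw [ext_chain' hf]
      rw [map_mul]
      by_cases hd : deriv (f^[p.1]) p.2 = 0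
      · rw [hd]
        simp
      · have hcd : conj (deriv (f^[p.1]) p.2) ≠ 0 := by simpa using hd
        field_simp
    · by_cases hex : ∃ k, f^[k] z ∈ extO f W
      · rw [extM_succ hO hex]
        have e4 : f^[extM f W (f z) + 1] z = f^[extM f W (f z)] (f z) :=
          Function.iterate_succ_apply f _ z
        rw [e4]
        refine ⟨?_, fun _ => rfl⟩
        rw [ext_chain hf, map_mul]
        by_cases hd : deriv (f^[extM f W (f z)]) (f z) = 0
        · rw [hd]
          simp
        · field_simp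
      · push Not at hex
        have hex' : ∀ k, f^[k] (f z) ∉ extO f W := by
          intro k
          rw [← Function.iterate_succ_apply f k z]
          exact hex _
        rw [extM_none hex, extM_none hex']
        have h5 : z ∉ extO f W := hO
        have h6 : f z ∉ extO f W := hex' 0
        simp only [Function.iterate_zero, id_eq]
        unfold extL
        rw [if_neg h5, if_neg h6]
        simp

end Pool.Agent.AS
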