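import Pool.Agent.AS.Defs

set_option autoImplicit false

/-! # The Fatou set is open and completely invariant (B1) -/

namespace Pool.Agent.AS

open Complex Metric Set Filter Topology MeasureTheory
open scoped ComplexConjugate

theorem fatOpen : Stmt_FatOpen := by
  intro f
  rw [Metric.isOpen_iff]
  rintro z ⟨ε, hε, h⟩
  refine ⟨ε / 2, by positivity, fun w hw => ⟨ε / 2, by positivity, fun φ hφ => ?_⟩⟩
  have hsub : closedBall w (ε / 2) ⊆ closedBall z ε := by
    intro v hv
    rw [mem_closedBall] at hv ⊢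
    rw [mem_ball] at hw
    have := dist_triangle v w z
    linarith
  obtain ⟨ψ, hψ, h1⟩ := h φ hφ
  refine ⟨ψ, hψ, ?_⟩
  rcases h1 with ⟨g, hg⟩ | h1
  · exact Or.inl ⟨g, hg.mono hsub⟩
  · exact Or.inr fun M => (h1 M).mono fun k hk v hv => hk v (hsub hv)

theorem fatInv : Stmt_FatInv := by
  intro f hf hnc z
  constructor
  · rintro ⟨ε, hε, h⟩
    obtain ⟨δ, hδ, hδ'⟩ := Metric.continuous_iff'.1 hf.continuous z ε hε |>.exists_mem.elim
      (fun s hs => Metric.mem_nhds_iff.1 hs.1 |>.imp fun δ hδ =>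
        (⟨hδ.1, fun v hv => hs.2 v (hδ.2 hv)⟩ : 0 < δ ∧ ∀ v ∈ ball z δ, dist (f v) (f z) < ε))
    have hmap : ∀ v ∈ closedBall z (δ / 2), f v ∈ closedBall (f z) ε := by
      intro v hv
      rw [mem_closedBall] at hv ⊢
      exact (hδ' v (by rw [mem_ball]; linarith)).le
    refine ⟨δ / 2, by positivity, fun φ hφ => ?_⟩
    have hφ' : StrictMono fun k => φ (k + 1) - 1 := by
      intro a b hab
      have h1 : φ (a + 1) < φ (b + 1) := hφ (by omega)
      have h2 : 0 < φ (a + 1) := lt_of_le_of_lt (Nat.zero_le (φ a)) (hφ (Nat.lt_succ_self a))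
      show φ (a + 1) - 1 < φ (b + 1) - 1
      omega
    obtain ⟨ψ, hψ, h1⟩ := h _ hφ'
    have key : ∀ k v, f^[φ (ψ k + 1)] v = f^[φ (ψ k + 1) - 1] (f v) := by
      intro k v
      have h2 : 0 < φ (ψ k + 1) :=
        lt_of_le_of_lt (Nat.zero_le (φ (ψ k))) (hφ (Nat.lt_succ_self (ψ k)))
      rw [← Function.iterate_succ_apply]
      congr 1
      omega
    refine ⟨fun k => ψ k + 1, fun a b hab => Nat.add_lt_add_right (hψ hab) 1, ?_⟩
    rcases h1 with ⟨g, hg⟩ | h1
    · left
      refine ⟨fun v => g (f v), ?_⟩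
      rw [Metric.tendstoUniformlyOn_iff] at hg ⊢
      intro e he
      filter_upwards [hg e he] with k hk v hv
      rw [key]
      exact hk (f v) (hmap v hv)
    · right
      intro M
      filter_upwards [h1 M] with k hk v hv
      rw [key]
      exact hk (f v) (hmap v hv)
  · rintro ⟨ε, hε, h⟩
    have hopen : IsOpen (f '' ball z ε) := by
      have han : AnalyticOnNhd ℂ f univ := fun w _ => hf.analyticAt w
      rcases han.is_constant_or_isOpen isPreconnected_univ with ⟨c, hc⟩ | h1
      · exfalso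
        obtain ⟨w, hw⟩ := hnc
        apply hw
        have : f = fun _ => c := funext fun v => hc v (mem_univ v)
        rw [this]
        simp
      · exact h1 _ (subset_univ _) isOpen_ball
    obtain ⟨δ, hδ, hδ'⟩ := Metric.isOpen_iff.1 hopen (f z) ⟨z, mem_ball_self hε, rfl⟩
    have hpre : ∀ v : ℂ, ∃ w : ℂ, v ∈ closedBall (f z) (δ / 2) → w ∈ closedBall z ε ∧ f w = v := by
      intro v
      by_cases hv : v ∈ closedBall (f z) (δ / 2)
      · rw [mem_closedBall] at hv
        obtain ⟨w, hw, hw'⟩ := hδ' (mem_ball.2 (by linarith : dist v (f z) < δ))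
        exact ⟨w, fun _ => ⟨ball_subset_closedBall hw, hw'⟩⟩
      · exact ⟨0, fun h => absurd h hv⟩
    choose p hp using hpre
    refine ⟨δ / 2, by positivity, fun φ hφ => ?_⟩
    have hφ' : StrictMono fun k => φ k + 1 := fun a b hab => Nat.add_lt_add_right (hφ hab) 1
    obtain ⟨ψ, hψ, h1⟩ := h _ hφ'
    refine ⟨ψ, hψ, ?_⟩
    have key : ∀ k v, v ∈ closedBall (f z) (δ / 2) →
        f^[φ (ψ k)] v = f^[φ (ψ k) + 1] (p v) := by
      intro k v hv
      rw [Function.iterate_succ_apply, (hp v hv).2]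
    rcases h1 with ⟨g, hg⟩ | h1
    · left
      refine ⟨fun v => g (p v), ?_⟩
      rw [Metric.tendstoUniformlyOn_iff] at hg ⊢
      intro e he
      filter_upwards [hg e he] with k hk v hv
      rw [key k v hv]
      exact hk (p v) (hp v hv).1
    · right
      intro M
      filter_upwards [h1 M] with k hk v hv
      rw [key k v hv]
      exact hk (p v) (hp v hv).1

end Pool.Agent.AS
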