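import Pool.Agent.AS.Defs

set_option autoImplicit false

/-! # Approximate Sullivan argument: Montel's theorem and the Fatou set -/

namespace Pool.Agent.AS

open Complex Metric Set Filter Topology

theorem fatB_iter_diff {f : ℂ → ℂ} (hf : Differentiable ℂ f) (n : ℕ) :
    Differentiable ℂ (f^[n]) := hf.iterate n

theorem fatB_subseq {F : ℕ → ℂ → ℂ} {z : ℂ} {r R : ℝ} (hr : 0 < r)
    (hd : ∀ n, Differentiable ℂ (F n)) (hb : ∀ n, ∀ w ∈ ball z r, ‖F n w‖ ≤ R) :
    ∃ ψ : ℕ → ℕ, StrictMono ψ ∧ ∃ g : ℂ → ℂ,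
      TendstoUniformlyOn (fun k => F (ψ k)) g atTop (closedBall z (r / 4)) := by
  classical
  set K : Set ℂ := closedBall z (r / 4) with hK
  have hKc : IsCompact K := isCompact_closedBall z (r / 4)
  have : CompactSpace K := isCompact_iff_compactSpace.1 hKc
  have hKb : K ⊆ ball z r := fun w hw => by
    rw [mem_closedBall] at hw
    rw [mem_ball]
    linarith
  -- Lipschitz bound
  have hlip : ∀ n, ∀ w ∈ K, ∀ w' ∈ K, dist (F n w') (F n w) ≤ 2 * R / (3 * r / 4) * dist w' w := by
    intro n w hw w' hw'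
    rw [hK, mem_closedBall] at hw hw'
    have hsub : ball w (3 * r / 4) ⊆ ball z r := fun u hu => by
      rw [mem_ball] at hu ⊢
      linarith [dist_triangle u w z]
    refine Complex.dist_le_div_mul_dist_of_mapsTo_ball (hd n).differentiableOn (fun u hu => ?_) ?_
    · have h1 := hb n u (hsub hu)
      have h2 := hb n w (hsub (mem_ball_self (by positivity)))
      rw [mem_closedBall, dist_eq_norm]
      calc ‖F n u - F n w‖ ≤ ‖F n u‖ + ‖F n w‖ := norm_sub_le _ _
        _ ≤ 2 * R := by linarith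
    · rw [mem_ball]
      have := dist_triangle_right w' w z
      linarith
  let G : ℕ → BoundedContinuousFunction K ℂ := fun n =>
    BoundedContinuousFunction.mkOfCompact ⟨fun w => F n w, (hd n).continuous.comp continuous_subtype_val⟩
  have hGv : ∀ n (w : K), G n w = F n w := fun n w => rfl
  have hcomp : IsCompact (closure (range G)) := by
    refine BoundedContinuousFunction.arzela_ascoli (closedBall (0 : ℂ) R)
      (isCompact_closedBall 0 R) (range G) ?_ ?_
    · rintro h w ⟨n, rfl⟩
      rw [hGv, mem_closedBall_zero_iff]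
      exact hb n w (hKb w.2)
    · refine Metric.equicontinuous_of_continuity_modulus
        (fun t => 2 * R / (3 * r / 4) * t) ?_ _ ?_
      · have : Tendsto (fun t : ℝ => 2 * R / (3 * r / 4) * t) (𝓝 0)
            (𝓝 (2 * R / (3 * r / 4) * 0)) := tendsto_id.const_mul _
        simpa using this
      · rintro w w' ⟨h, n, rfl⟩
        change dist (F n w) (F n w') ≤ _
        exact hlip n w' w'.2 w w.2
  obtain ⟨a, -, ψ, hψ, ha⟩ := hcomp.tendsto_subseq (x := G) fun n => subset_closure ⟨n, rfl⟩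
  refine ⟨ψ, hψ, fun w => if h : w ∈ K then a ⟨w, h⟩ else 0, ?_⟩
  rw [BoundedContinuousFunction.tendsto_iff_tendstoUniformly, Metric.tendstoUniformly_iff] at ha
  rw [Metric.tendstoUniformlyOn_iff]
  intro e he
  filter_upwards [ha e he] with n hn w hw
  have := hn ⟨w, hw⟩
  simp only [hw, dif_pos]
  exact this

theorem fatMontel : Stmt_FatMontel := by
  intro f hf V R hV hb z hz
  obtain ⟨r, hr, hrV⟩ := Metric.isOpen_iff.1 hV z hz
  refine ⟨r / 4, by positivity, fun φ _ => ?_⟩
  obtain ⟨ψ, hψ, g, hg⟩ := fatB_subseq (F := fun k => f^[φ k]) (z := z) (r := r) (R := R) hr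
    (fun n => fatB_iter_diff hf (φ n)) (fun n w hw => hb (φ n) w (hrV hw))
  exact ⟨ψ, hψ, Or.inl ⟨g, hg⟩⟩

end Pool.Agent.AS
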