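import Pool.Agent.AS.Defs

set_option autoImplicit false

/-! # Module Geo (A6): circles and points at prescribed distances -/

namespace Pool.Agent.AS

open Complex Metric Set Filter Topology

theorem geo_step (a b p : ℂ) (t : ℝ) (ha : dist a p ≤ t) (hb : t < dist b p) :
    ∃ z ∈ sphere p t, dist a z ≤ dist a b := by
  have hc : ContinuousOn (fun s : ℝ => dist (a + s * (b - a)) p) (Icc 0 1) := by fun_prop
  have h := intermediate_value_Icc (zero_le_one' ℝ) hc
  have ht : t ∈ Icc (dist (a + (0 : ℝ) * (b - a)) p) (dist (a + (1 : ℝ) * (b - a)) p) := by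
    constructor
    · simpa using ha
    · simpa using hb.le
  obtain ⟨s, hs, e⟩ := h ht
  refine ⟨a + s * (b - a), e, ?_⟩
  rw [dist_eq_norm, show a - (a + s * (b - a)) = -(s * (b - a)) by ring, norm_neg, norm_mul,
    Complex.norm_real, Real.norm_of_nonneg hs.1, dist_eq_norm, norm_sub_rev a b]
  exact mul_le_of_le_one_left (norm_nonneg _) hs.2

theorem circ : Stmt_Circ := by
  intro Ω hO hch p hp t ht
  by_contra hcon
  push Not at hcon
  have hsub : sphere p t ⊆ Ω := fun z hz => hcon z hz
  obtain ⟨δ, hδ, hth⟩ := (isCompact_sphere p t).exists_thickening_subset_open hO hsub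
  obtain ⟨n, e, e0, hnot, hstep, hlast⟩ := hch p hp δ hδ (‖p‖ + t)
  have key : ∀ i ≤ n, dist (e i) p ≤ t := by
    intro i
    induction i with
    | zero => intro _; rw [e0, dist_self]; exact ht.le
    | succ i ih =>
      intro hi
      have hprev := ih (by omega)
      by_contra hc
      push Not at hc
      obtain ⟨z, hz, hd⟩ := geo_step (e i) (e (i + 1)) p t hprev hc
      apply hnot i (by omega)
      apply hth
      rw [mem_thickening_iff]
      exact ⟨z, hz, lt_of_le_of_lt hd (hstep i (by omega))⟩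
  have h1 := key n le_rfl
  have h2 : ‖e n‖ ≤ ‖p‖ + dist (e n) p := by
    rw [dist_eq_norm]
    calc ‖e n‖ = ‖p + (e n - p)‖ := by congr 1; ring
      _ ≤ _ := norm_add_le _ _
  linarith

theorem geo : Stmt_Geo := by
  intro Ω hO hch q hq r hr
  have hqc : q ∈ closure Ω := frontier_subset_closure hq
  have hqn : q ∉ Ω := by
    rw [hO.frontier_eq] at hq
    exact hq.2
  obtain ⟨a, haO, haq⟩ := Metric.mem_closure_iff.1 hqc (r / 8) (by positivity)
  have hne : (Ωᶜ).Nonempty := ⟨q, hqn⟩
  have hcl : IsClosed Ωᶜ := hO.isClosed_compl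
  obtain ⟨p, hp, hpa⟩ := hcl.exists_infDist_eq_dist hne a
  have hρ : 0 < infDist a Ωᶜ := (hcl.notMem_iff_infDist_pos hne).1 (fun h => h haO)
  have hρq : infDist a Ωᶜ < r / 8 := by
    refine lt_of_le_of_lt (infDist_le_dist_of_mem (x := a) (show q ∈ Ωᶜ from hqn)) ?_
    rw [dist_comm]; exact haq
  refine ⟨p, infDist a Ωᶜ, hρ, ?_, ?_⟩
  · intro z hz
    rw [mem_closedBall] at hz
    rw [mem_ball]
    have h1 : dist z q ≤ dist z p + dist p q := dist_triangle _ _ _
    have h2 : dist p q ≤ dist p a + dist a q := dist_triangle _ _ _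
    rw [dist_comm p a, ← hpa] at h2
    rw [dist_comm] at haq
    linarith
  · intro t d hd hdt htρ
    set ρ := infDist a Ωᶜ with hρdef
    have ht : 0 < t := lt_of_lt_of_le hd hdt
    obtain ⟨z0, hz0, hz0n⟩ := circ Ω hO hch p hp t ht
    have hpa' : ‖a - p‖ = ρ := by rw [← dist_eq_norm]; exact hpa.symm
    have hz1 : p + ((t / ρ : ℝ) : ℂ) * (a - p) ∈ sphere p t := by
      rw [mem_sphere, dist_eq_norm, add_sub_cancel_left, norm_mul, Complex.norm_real,
        Real.norm_of_nonneg (by positivity), hpa']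
      field_simp
    have hz1d : d ≤ infDist (p + ((t / ρ : ℝ) : ℂ) * (a - p)) Ωᶜ := by
      have h1 : infDist a Ωᶜ ≤ infDist (p + ((t / ρ : ℝ) : ℂ) * (a - p)) Ωᶜ
          + dist a (p + ((t / ρ : ℝ) : ℂ) * (a - p)) := infDist_le_infDist_add_dist
      have h2 : dist a (p + ((t / ρ : ℝ) : ℂ) * (a - p)) = ρ - t := by
        rw [dist_eq_norm, show a - (p + ((t / ρ : ℝ) : ℂ) * (a - p))
          = ((1 - t / ρ : ℝ) : ℂ) * (a - p) by push_cast; ring, norm_mul, Complex.norm_real,
          Real.norm_of_nonneg, hpa']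
        · field_simp
        · rw [sub_nonneg, div_le_one hρ]; linarith
      rw [h2] at h1
      linarith
    have hz0d : infDist z0 Ωᶜ ≤ d := by
      rw [infDist_zero_of_mem (show z0 ∈ Ωᶜ from hz0n)]; exact hd.le
    have hconn : IsPreconnected (sphere p t) :=
      isPreconnected_sphere (by rw [Complex.rank_real_complex]; exact Nat.one_lt_ofNat) p t
    obtain ⟨w, hw, hwd⟩ := hconn.intermediate_value hz0 hz1
      (continuous_infDist_pt Ωᶜ).continuousOn ⟨hz0d, hz1d⟩
    refine ⟨w, ?_, hw, hwd⟩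
    by_contra hwn
    have : infDist w Ωᶜ = 0 := infDist_zero_of_mem hwn
    linarith

end Pool.Agent.AS
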