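import Pool.Agent.AS.Defs
import Mathlib

set_option autoImplicit false

namespace Pool.Agent.AS

open Complex Metric Set Filter Topology MeasureTheory
open scoped ComplexConjugate

/-! ## A5. The orbit formula -/

theorem kill_deriv_succ (f : ℂ → ℂ) (hf : Differentiable ℂ f) (n : ℕ) (w : ℂ) :
    deriv (f^[n + 1]) w = deriv f (f^[n] w) * deriv (f^[n]) w := by
  rw [Function.iterate_succ']
  exact deriv_comp w (hf _) ((hf.iterate n) w)

theorem orbit : Stmt_Orbit := by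
  intro f ξ hf n
  induction n with
  | zero =>
      intro w _
      simp
  | succ n ih =>
      intro w hw
      have hd := kill_deriv_succ f hf n w
      have h1 : deriv (f^[n]) w ≠ 0 := fun h => hw (by rw [hd, h, mul_zero])
      have h2 : deriv f (f^[n] w) ≠ 0 := fun h => hw (by rw [hd, h, zero_mul])
      have h3 := ih w h1
      have hn1 : 0 < ‖deriv (f^[n]) w‖ := norm_pos_iff.mpr h1
      have hn2 : 0 < ‖deriv f (f^[n] w)‖ := norm_pos_iff.mpr h2
      have key : ‖ξ (f^[n] w)‖ ≤ (‖ξ (f^[n + 1] w)‖ +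
          ‖ξ (f (f^[n] w)) - deriv f (f^[n] w) * ξ (f^[n] w)‖) * ‖deriv f (f^[n] w)‖⁻¹ := by
        rw [← div_eq_mul_inv, le_div_iff₀ hn2]
        have e : deriv f (f^[n] w) * ξ (f^[n] w) = ξ (f^[n + 1] w) -
            (ξ (f (f^[n] w)) - deriv f (f^[n] w) * ξ (f^[n] w)) := by
          rw [Function.iterate_succ_apply']; ring
        calc ‖ξ (f^[n] w)‖ * ‖deriv f (f^[n] w)‖ = ‖deriv f (f^[n] w) * ξ (f^[n] w)‖ := by
              rw [norm_mul, mul_comm]
          _ = ‖ξ (f^[n + 1] w) - (ξ (f (f^[n] w)) - deriv f (f^[n] w) * ξ (f^[n] w))‖ := by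
              rw [← e]
          _ ≤ _ := norm_sub_le _ _
      have hd' : ‖deriv (f^[n + 1]) w‖⁻¹ = ‖deriv f (f^[n] w)‖⁻¹ * ‖deriv (f^[n]) w‖⁻¹ := by
        rw [hd, norm_mul, mul_inv]
      rw [Finset.sum_range_succ, hd']
      have h4 : ‖ξ (f^[n] w)‖ * ‖deriv (f^[n]) w‖⁻¹ ≤ ((‖ξ (f^[n + 1] w)‖ +
          ‖ξ (f (f^[n] w)) - deriv f (f^[n] w) * ξ (f^[n] w)‖) * ‖deriv f (f^[n] w)‖⁻¹) *
            ‖deriv (f^[n]) w‖⁻¹ :=
        mul_le_mul_of_nonneg_right key (inv_nonneg.mpr (norm_nonneg _))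
      nlinarith [h3, h4]

/-! ## A4. Killing coefficients -/

theorem kill_tail (N : ℕ) (R' : ℝ) (hR : 0 < R') (g : ℂ → ℂ)
    (hg : DifferentiableOn ℂ g (ball 0 R')) (h0 : ∀ k < N, iteratedDeriv k g 0 = 0) (B : ℝ)
    (hB : ∀ z ∈ ball (0 : ℂ) R', ‖g z‖ ≤ B) (z : ℂ) (hz : ‖z‖ ≤ R' / 3) :
    ‖g z‖ ≤ 2 * B * (1 / 3) ^ N := by
  have hB0 : 0 ≤ B := le_trans (norm_nonneg _) (hB 0 (mem_ball_self hR))
  -- Cauchy estimates
  have hc : ∀ k : ℕ, ‖iteratedDeriv k g 0‖ * R' ^ k ≤ k.factorial * B := by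
    intro k
    have h1 : ∀ r : ℝ, 0 < r → r < R' → ‖iteratedDeriv k g 0‖ * r ^ k ≤ k.factorial * B := by
      intro r hr hr'
      have h2 : closedBall (0 : ℂ) r ⊆ ball 0 R' := closedBall_subset_ball hr'
      have h3 : DiffContOnCl ℂ g (ball 0 r) := by
        apply DifferentiableOn.diffContOnCl
        rw [closure_ball _ hr.ne']
        exact hg.mono h2
      have h4 := Complex.norm_iteratedDeriv_le_of_forall_mem_sphere_norm_le k hr h3
        (C := B) (fun w hw => hB w (h2 (sphere_subset_closedBall hw)))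
      rwa [le_div_iff₀ (pow_pos hr k)] at h4
    have ht : Tendsto (fun r : ℝ => ‖iteratedDeriv k g 0‖ * r ^ k) (𝓝[<] R')
        (𝓝 (‖iteratedDeriv k g 0‖ * R' ^ k)) := by
      apply Tendsto.mono_left _ nhdsWithin_le_nhds
      exact (continuous_const.mul (continuous_pow k)).tendsto R'
    refine le_of_tendsto ht ?_
    have : Ioo 0 R' ∈ 𝓝[<] R' := Ioo_mem_nhdsLT hR
    filter_upwards [this] with r hr using h1 r hr.1 hr.2
  have hzb : z ∈ ball (0 : ℂ) R' := by
    rw [mem_ball_zero_iff]; linarith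
  have hs := Complex.hasSum_taylorSeries_on_ball hg hzb
  have hs' := (hasSum_nat_add_iff' N).mpr hs
  have hz0 : ∑ i ∈ Finset.range N, ((i.factorial : ℂ)⁻¹ • (z - 0) ^ i • iteratedDeriv i g 0) = 0 := by
    apply Finset.sum_eq_zero
    intro i hi
    rw [h0 i (Finset.mem_range.mp hi)]
    simp
  rw [hz0, sub_zero] at hs'
  have hgeo : HasSum (fun k : ℕ => B * (1 / 3 : ℝ) ^ (k + N))
      (B * (1 / 3 : ℝ) ^ N * (1 - 1 / 3)⁻¹) := by
    have h := (hasSum_geometric_of_lt_one (by norm_num : (0 : ℝ) ≤ 1 / 3)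
      (by norm_num : (1 / 3 : ℝ) < 1)).mul_left (B * (1 / 3 : ℝ) ^ N)
    have e : (fun k : ℕ => B * (1 / 3 : ℝ) ^ (k + N)) =
        fun k : ℕ => B * (1 / 3 : ℝ) ^ N * (1 / 3 : ℝ) ^ k := by
      funext k; rw [pow_add]; ring
    rw [e]; exact h
  have hterm : ∀ k : ℕ, ‖(((k + N).factorial : ℂ)⁻¹ • (z - 0) ^ (k + N) •
      iteratedDeriv (k + N) g 0)‖ ≤ B * (1 / 3 : ℝ) ^ (k + N) := by
    intro k
    generalize k + N = m
    rw [norm_smul, norm_smul, norm_inv, Complex.norm_natCast, norm_pow, sub_zero]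
    have hf : (0 : ℝ) < m.factorial := by exact_mod_cast m.factorial_pos
    have h1 : ‖z‖ ^ m ≤ (R' / 3) ^ m := pow_le_pow_left₀ (norm_nonneg _) hz m
    have h2 : ‖z‖ ^ m * ‖iteratedDeriv m g 0‖ ≤ (1 / 3) ^ m * (m.factorial * B) := by
      calc ‖z‖ ^ m * ‖iteratedDeriv m g 0‖ ≤ (R' / 3) ^ m * ‖iteratedDeriv m g 0‖ :=
            mul_le_mul_of_nonneg_right h1 (norm_nonneg _)
        _ = (1 / 3) ^ m * (‖iteratedDeriv m g 0‖ * R' ^ m) := by rw [div_eq_mul_one_div, mul_pow]; ring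
        _ ≤ _ := mul_le_mul_of_nonneg_left (hc m) (by positivity)
    rw [inv_mul_le_iff₀ hf]
    calc _ ≤ (1 / 3 : ℝ) ^ m * (m.factorial * B) := h2
      _ = _ := by ring
  have hle := tsum_of_norm_bounded hgeo hterm
  simp only [sub_zero] at hs' hle
  rw [hs'.tsum_eq] at hle
  refine hle.trans ?_
  have : (0 : ℝ) ≤ B * (1 / 3) ^ N := by positivity
  norm_num
  nlinarith

theorem kill : Stmt_Kill := by
  intro N R' η hR hη
  have han : ∀ (i : Fin (N + 1)) (k : ℕ), ContDiffAt ℂ k (η i) 0 := by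
    intro i k
    have h := (hη i).analyticAt (isOpen_ball.mem_nhds (mem_ball_self hR))
    exact h.contDiffAt
  -- the linear conditions
  let L : (Fin (N + 1) → ℂ) →ₗ[ℂ] (Fin N → ℂ) :=
    { toFun := fun c k => ∑ i, c i * iteratedDeriv (k : ℕ) (η i) 0
      map_add' := by
        intro a b; funext k
        simp [add_mul, Finset.sum_add_distrib]
      map_smul' := by
        intro a b; funext k
        simp [Finset.mul_sum, mul_assoc] }
  have hL : LinearMap.ker L ≠ ⊥ := by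
    apply LinearMap.ker_ne_bot_of_finrank_lt
    simp
  obtain ⟨c, hcL, hc0⟩ := Submodule.exists_mem_ne_zero_of_ne_bot hL
  obtain ⟨i0, -, hi0⟩ := Finset.exists_max_image Finset.univ (fun i => ‖c i‖)
    ⟨(0 : Fin (N + 1)), Finset.mem_univ _⟩
  have hpos : 0 < ‖c i0‖ := by
    by_contra h
    apply hc0
    funext i
    have h1 : ‖c i‖ ≤ ‖c i0‖ := hi0 i (Finset.mem_univ _)
    have h2 : ‖c i‖ ≤ 0 := by linarith
    simpa using h2
  have hLc : ∀ k < N, ∑ i, c i * iteratedDeriv k (η i) 0 = 0 := by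
    intro k hk
    have := congrFun (LinearMap.mem_ker.mp hcL) ⟨k, hk⟩
    simpa [L] using this
  refine ⟨fun i => c i / (‖c i0‖ : ℂ), ?_, ⟨i0, ?_⟩, ?_⟩
  · intro i
    rw [norm_div, Complex.norm_real, norm_norm, div_le_one hpos]
    exact hi0 i (Finset.mem_univ _)
  · rw [norm_div, Complex.norm_real, norm_norm, div_self hpos.ne']
  · intro B hB z hz
    refine kill_tail N R' hR (fun z => ∑ i, c i / (‖c i0‖ : ℂ) * η i z) ?_ ?_ B hB z hz
    · exact DifferentiableOn.fun_sum fun i _ => (hη i).const_mul _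
    · intro k hk
      rw [iteratedDeriv_fun_sum (fun i _ => (contDiffAt_const.mul (han i k)))]
      have : ∀ i : Fin (N + 1), iteratedDeriv k (fun z => c i / (‖c i0‖ : ℂ) * η i z) 0 =
          (‖c i0‖ : ℂ)⁻¹ * (c i * iteratedDeriv k (η i) 0) := by
        intro i
        rw [iteratedDeriv_const_mul _ (han i k)]
        rw [div_eq_mul_inv]; ring
      rw [Finset.sum_congr rfl (fun i _ => this i), ← Finset.mul_sum, hLc k hk, mul_zero]

end Pool.Agent.AS
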