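import Pool.Agent.AS.Defs

set_option autoImplicit false

/-! # Approximate Sullivan argument: local injectivity of all iterates near the boundary -/

namespace Pool.Agent.AS

open Complex Metric Set Filter Topology

/-- The zeros of the derivative of a non-constant entire function are isolated. -/
theorem local_isolated {g : ℂ → ℂ} (hg : Differentiable ℂ g) (hne : ∃ z, g z ≠ 0) (x : ℂ) :
    ∀ᶠ z in 𝓝[≠] x, g z ≠ 0 := by
  by_contra hcon
  have h1 : ∃ᶠ z in 𝓝[≠] x, g z = 0 := by
    rw [Filter.Frequently]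
    intro h
    exact hcon h
  have han : AnalyticOnNhd ℂ g univ := fun z _ => hg.analyticAt z
  have h2 := han.eqOn_zero_of_preconnected_of_frequently_eq_zero isPreconnected_univ (mem_univ x) h1
  obtain ⟨z, hz⟩ := hne
  exact hz (h2 (mem_univ z))

theorem local_finite {g : ℂ → ℂ} (hg : Differentiable ℂ g) (hne : ∃ z, g z ≠ 0) {K : Set ℂ}
    (hK : IsCompact K) : (K ∩ {z | g z = 0}).Finite := by
  by_contra hinf
  obtain ⟨x, -, hx⟩ := Set.Infinite.exists_accPt_of_subset_isCompact (K := K) hinf hK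
    inter_subset_left
  have h1 := local_isolated hg hne x
  rw [accPt_iff_frequently_nhdsNE] at hx
  exact hx (h1.mono fun z hz h => hz h.2)

theorem local_image_succ (f : ℂ → ℂ) (V : Set ℂ) (j : ℕ) :
    f^[j + 1] '' V = f '' (f^[j] '' V) := by
  rw [Function.iterate_succ', image_comp]

theorem local_comp {f : ℂ → ℂ} {R : ℝ} {V : Set ℂ} (hImg : Stmt_CompImage)
    (hf : Differentiable ℂ f) (hnc : ∃ z, deriv f z ≠ 0) (hV : Comp f R V) (j : ℕ) :
    Comp f R (f^[j] '' V) := by
  induction j with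
  | zero => simpa using hV
  | succ j ih =>
    rw [local_image_succ]
    exact hImg f R _ hf hnc ih

/-- A connected set which meets `V` and its complement meets the frontier of `V`. -/
theorem local_frontier {S V : Set ℂ} (hS : IsPreconnected S) (hV : IsOpen V) {y z : ℂ} (hy : y ∈ S)
    (hyV : y ∈ V) (hz : z ∈ S) (hzV : z ∉ V) : (S ∩ frontier V).Nonempty := by
  by_contra hcon
  rw [not_nonempty_iff_eq_empty] at hcon
  have h1 : S ⊆ V ∪ (closure V)ᶜ := by
    intro x hx
    by_contra h
    rw [mem_union, not_or, mem_compl_iff, not_not] at h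
    have : x ∈ S ∩ frontier V := ⟨hx, by rw [hV.frontier_eq]; exact ⟨h.2, h.1⟩⟩
    rw [hcon] at this
    exact this
  have h2 := hS.subset_left_of_subset_union hV isClosed_closure.isOpen_compl
    (disjoint_left.2 fun x hx hx' => hx' (subset_closure hx)) h1 ⟨y, hy, hyV⟩
  exact hzV (h2 hz)

theorem localInj (hImg : Stmt_CompImage) (hChain : Stmt_CompChain) (hSC : Stmt_SC)
    (hCov : Stmt_Cover) (hCirc : Stmt_Circ) (hInv : Stmt_FatInv) : Stmt_Local := by
  intro f R V hf hnc hV hdis U hU hUV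
  have hcomp : ∀ j, Comp f R (f^[j] '' V) := local_comp hImg hf hnc hV
  have hfd : Differentiable ℂ (deriv f) := by
    intro z
    exact ((hf.analyticAt z).deriv).differentiableAt
  have hfin := local_finite hfd hnc (isCompact_closedBall (0 : ℂ) R)
  -- critical points
  have hm : ∃ m : ℕ, ∀ j ≥ m, ∀ z ∈ f^[j] '' V, deriv f z ≠ 0 := by
    have hbad : {j : ℕ | ∃ z ∈ f^[j] '' V, deriv f z = 0}.Finite := by
      have h1 : ∀ j ∈ {j : ℕ | ∃ z ∈ f^[j] '' V, deriv f z = 0}, ∃ z : ℂ,
          z ∈ closedBall (0 : ℂ) R ∩ {z | deriv f z = 0} ∧ z ∈ f^[j] '' V := by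
        rintro j ⟨z, hz, hz0⟩
        refine ⟨z, ⟨?_, hz0⟩, hz⟩
        rw [mem_closedBall_zero_iff]
        simpa using (hcomp j).bd 0 z hz
      choose! c hc1 hc2 using h1
      refine Set.Finite.of_finite_image (f := c) (hfin.subset ?_) ?_
      · rintro _ ⟨j, hj, rfl⟩
        exact hc1 j hj
      · intro i hi j hj hij
        by_contra hne
        exact Set.disjoint_left.1 (hdis i j hne) (hc2 i hi) (hij ▸ hc2 j hj)
    obtain ⟨m, hm⟩ := hbad.bddAbove
    refine ⟨m + 1, fun j hj z hz h0 => ?_⟩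
    have := hm (show j ∈ {j : ℕ | ∃ z ∈ f^[j] '' V, deriv f z = 0} from ⟨z, hz, h0⟩)
    omega
  obtain ⟨m, hm⟩ := hm
  have hinjf : ∀ j ≥ m, InjOn f (f^[j] '' V) := by
    intro j hj
    have hc := hcomp j
    have hc' := hcomp (j + 1)
    rw [local_image_succ] at hc'
    have hb : ∀ j, Bornology.IsBounded (f^[j] '' V) := fun j => by
      refine (isBounded_closedBall (x := (0 : ℂ)) (r := R)).subset fun z hz => ?_
      rw [mem_closedBall_zero_iff]
      simpa using (hcomp j).bd 0 z hz
    have hb' : Bornology.IsBounded (f '' (f^[j] '' V)) := by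
      rw [← local_image_succ]
      exact hb (j + 1)
    refine hCov f _ hf hc.op hc.conn (hb j) (hSC _ hc'.op hc'.conn hb'
      (hChain f R _ hf hc')) ?_ (hm j hj)
    intro z hz hzV
    exact hc.fr z hz ((hInv f hf hnc z).1 (hc'.fat hzV))
  have hinjV : ∀ n, InjOn (f^[n]) (f^[m] '' V) := by
    intro n
    induction n with
    | zero => exact injOn_id _
    | succ n ih =>
      rw [Function.iterate_succ']
      refine InjOn.comp (t := f^[m + n] '' V) (hinjf (m + n) (by omega)) ih ?_
      rintro _ ⟨z, hz, rfl⟩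
      refine ⟨z, hz, ?_⟩
      rw [← Function.iterate_add_apply, add_comm]
  -- the iterate `f^[m]`
  have hfm : Differentiable ℂ (f^[m]) := hf.iterate m
  have hfmd : Differentiable ℂ (deriv (f^[m])) := by
    intro z
    exact ((hfm.analyticAt z).deriv).differentiableAt
  have hfmne : ∃ z, deriv (f^[m]) z ≠ 0 := by
    by_contra hcon
    push Not at hcon
    obtain ⟨x, hx⟩ := hV.conn.nonempty
    have hconst : ∀ z, f^[m] z = f^[m] x := fun z => is_const_of_deriv_eq_zero hfm hcon z x
    have h1 : f^[m] '' V = {f^[m] x} := by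
      apply Subset.antisymm
      · rintro _ ⟨z, -, rfl⟩
        exact hconst z
      · rintro _ rfl
        exact ⟨x, hx, rfl⟩
    have h2 := (hcomp m).op
    rw [h1] at h2
    exact not_isOpen_singleton _ h2
  obtain ⟨q, hqU, hqV, hqd⟩ : ∃ q, q ∈ U ∧ q ∈ frontier V ∧ deriv (f^[m]) q ≠ 0 := by
    by_contra hcon
    push Not at hcon
    obtain ⟨q₀, hq₀U, hq₀V⟩ := hUV
    have h1 := local_isolated hfmd hfmne q₀
    rw [eventually_nhdsWithin_iff] at h1
    obtain ⟨s, hs, hsub⟩ := Metric.eventually_nhds_iff_ball.1 (h1.and (hU.mem_nhds hq₀U))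
    have hnofr : ∀ z ∈ ball q₀ s, z ≠ q₀ → z ∉ frontier V := fun z hz hzne hzV =>
      (hsub z hz).1 hzne (hcon z (hsub z hz).2 hzV)
    have hq₀nV : q₀ ∉ V := by
      intro h
      rw [hV.op.frontier_eq] at hq₀V
      exact hq₀V.2 h
    obtain ⟨y, hyV, hy⟩ := Metric.mem_closure_iff.1 (frontier_subset_closure hq₀V) s hs
    have hyne : y ≠ q₀ := fun h => hq₀nV (h ▸ hyV)
    have ht : 0 < dist y q₀ := dist_pos.2 hyne
    obtain ⟨z, hz, hzV⟩ := hCirc V hV.op (hChain f R V hf hV) q₀ hq₀nV (dist y q₀) ht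
    have hpre : IsPreconnected (sphere q₀ (dist y q₀)) :=
      isPreconnected_sphere (by rw [Complex.rank_real_complex]; norm_num) _ _
    obtain ⟨u, hu, huV⟩ := local_frontier hpre hV.op (y := y) (mem_sphere.2 rfl) hyV hz hzV
    rw [mem_sphere] at hu
    refine hnofr u ?_ ?_ huV
    · rw [mem_ball, hu, dist_comm]
      exact hy
    · intro h
      rw [h, dist_self] at hu
      linarith
  -- local injectivity at `q`
  have hst : HasStrictDerivAt (f^[m]) (deriv (f^[m]) q) q :=
    (hfm.analyticAt q).hasStrictDerivAt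
  set e := (hst.hasStrictFDerivAt_equiv hqd).toOpenPartialHomeomorph (f^[m]) with he
  have hsrc : e.source ∈ 𝓝 q :=
    e.open_source.mem_nhds (hst.hasStrictFDerivAt_equiv hqd).mem_toOpenPartialHomeomorph_source
  have hinje : InjOn (f^[m]) e.source := e.injOn
  obtain ⟨r, hr, hsub⟩ := Metric.mem_nhds_iff.1 (Filter.inter_mem hsrc (hU.mem_nhds hqU))
  refine ⟨q, r, hqV, hr, fun z hz => (hsub hz).2, fun n => ?_⟩
  have hinjb : InjOn (f^[m]) (V ∩ ball q r) := hinje.mono fun z hz => (hsub hz.2).1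
  rcases le_or_gt n m with hnm | hnm
  · intro x hx y hy hxy
    refine hinjb hx hy ?_
    obtain ⟨k, rfl⟩ := Nat.exists_eq_add_of_le hnm
    rw [add_comm, Function.iterate_add_apply, Function.iterate_add_apply, hxy]
  · intro x hx y hy hxy
    obtain ⟨k, rfl⟩ := Nat.exists_eq_add_of_le hnm.le
    rw [add_comm, Function.iterate_add_apply, Function.iterate_add_apply] at hxy
    exact hinjb hx hy (hinjV k ⟨x, hx.1, rfl⟩ ⟨y, hy.1, rfl⟩ hxy)

end Pool.Agent.AS
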