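import Pool.Agent.AS.Defs2
import Pool.Agent.CMerg.MergMain
import Pool.Agent.CMerg.G
import Pool.Agent.CMerg.Smooth
import Pool.Agent.CMerg.Log

set_option autoImplicit false

/-! # Square roots of holomorphic functions on domains without holes -/

namespace Pool.Agent.AS

open Complex Metric Set Filter Topology

/-- the outside of a disc is preconnected -/
theorem sca_outside (R : ℝ) (hR : 0 ≤ R) : IsPreconnected {z : ℂ | R < ‖z‖} := by
  have h : {z : ℂ | R < ‖z‖} =
      (fun p : ℝ × ℝ => (p.1 : ℂ) * Complex.exp (p.2 * Complex.I)) '' (Ioi R ×ˢ univ) := by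
    ext z
    constructor
    · intro hz
      refine ⟨(‖z‖, Complex.arg z), ⟨hz, mem_univ _⟩, ?_⟩
      exact Complex.norm_mul_exp_arg_mul_I z
    · rintro ⟨⟨r, t⟩, ⟨hr, _⟩, rfl⟩
      have hr' : R < r := hr
      have : ‖(r : ℂ) * Complex.exp (t * Complex.I)‖ = r := by
        rw [norm_mul, Complex.norm_exp_ofReal_mul_I, mul_one, Complex.norm_real,
          Real.norm_of_nonneg (by linarith)]
      change R < ‖(r : ℂ) * Complex.exp (t * Complex.I)‖
      rw [this]
      exact hr'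
  rw [h]
  refine (isPreconnected_Ioi.prod isPreconnected_univ).image _ ?_
  exact Continuous.continuousOn (by fun_prop)

/-- the inner parallel set -/
def scaK (V : Set ℂ) (δ : ℝ) : Set ℂ := {z | δ ≤ infDist z Vᶜ}

theorem scaK_compact {V : Set ℂ} (hb : Bornology.IsBounded V) {δ : ℝ} (hδ : 0 < δ) :
    IsCompact (scaK V δ) := by
  refine Metric.isCompact_of_isClosed_isBounded ?_ (hb.subset ?_)
  · exact isClosed_le continuous_const (continuous_infDist_pt _)
  · intro z hz
    by_contra hzV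
    have h1 : infDist z Vᶜ = 0 := infDist_zero_of_mem hzV
    have h2 : δ ≤ infDist z Vᶜ := hz
    linarith

theorem scaK_sub {V : Set ℂ} {δ : ℝ} (hδ : 0 < δ) : scaK V δ ⊆ V := by
  intro z hz
  by_contra hzV
  have h1 : infDist z Vᶜ = 0 := infDist_zero_of_mem hzV
  have h2 : δ ≤ infDist z Vᶜ := hz
  linarith

theorem sca_conn {V : Set ℂ} (hb : Bornology.IsBounded V) (hc : Chain V) {δ : ℝ} (hδ : 0 < δ) :
    IsPreconnected (scaK V δ)ᶜ := by
  obtain ⟨R, hR⟩ := hb.subset_closedBall (0 : ℂ)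
  obtain ⟨R', hR'⟩ : ∃ R' : ℝ, R' = max R 0 := ⟨_, rfl⟩
  have hR0 : 0 ≤ R' := by rw [hR']; exact le_max_right _ _
  have hVR : ∀ z ∈ V, ‖z‖ ≤ R' := by
    intro z hz
    have := hR hz
    rw [mem_closedBall, dist_zero_right] at this
    rw [hR']
    exact this.trans (le_max_left _ _)
  have hout : {z : ℂ | R' < ‖z‖} ⊆ (scaK V δ)ᶜ := by
    intro z hz hzK
    have h1 := hVR z (scaK_sub hδ hzK)
    have h2 : R' < ‖z‖ := hz
    linarith
  have hx0 : ((R' + 1 : ℝ) : ℂ) ∈ {z : ℂ | R' < ‖z‖} := by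
    change R' < ‖((R' + 1 : ℝ) : ℂ)‖
    rw [Complex.norm_real, Real.norm_of_nonneg (by linarith)]
    linarith
  have hVc : (Vᶜ).Nonempty := by
    refine ⟨((R' + 1 : ℝ) : ℂ), fun h => ?_⟩
    have h1 := hVR _ h
    have h2 : R' < ‖((R' + 1 : ℝ) : ℂ)‖ := hx0
    linarith
  have hball : ∀ p ∉ V, ball p δ ⊆ (scaK V δ)ᶜ := by
    intro p hp z hz hzK
    have h1 : infDist z Vᶜ ≤ dist z p := infDist_le_dist_of_mem hp
    have h2 : dist z p < δ := hz
    have h3 : δ ≤ infDist z Vᶜ := hzK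
    linarith
  refine isPreconnected_of_forall ((R' + 1 : ℝ) : ℂ) (fun y hy => ?_)
  have hy1 : infDist y Vᶜ < δ := by
    by_contra hcon
    push Not at hcon
    exact hy hcon
  obtain ⟨p, hpV, hyp⟩ := (infDist_lt_iff hVc).1 hy1
  obtain ⟨n, e, he0, heV, hed, hen⟩ := hc p hpV δ hδ R'
  have hchain : IsPreconnected (⋃ i ∈ Iic n, ball (e i) δ) := by
    refine IsPreconnected.biUnion_of_chain ordConnected_Iic (fun i _ => ?_) (fun i _ hi2 => ?_)
    · exact (convex_ball _ _).isPreconnected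
    · have hi3 : i < n := by
        have : Order.succ i ≤ n := hi2
        rw [Nat.succ_eq_succ] at this
        omega
      refine ⟨e (i + 1), ?_, ?_⟩
      · rw [mem_ball, dist_comm]
        exact hed i hi3
      · rw [Nat.succ_eq_succ]
        exact mem_ball_self hδ
  refine ⟨(⋃ i ∈ Iic n, ball (e i) δ) ∪ {z : ℂ | R' < ‖z‖}, ?_, Or.inr hx0, Or.inl ?_, ?_⟩
  · refine union_subset (iUnion₂_subset fun i hi => hball (e i) (heV i hi)) hout
  · refine mem_iUnion₂.2 ⟨0, Nat.zero_le _, ?_⟩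
    rw [he0]
    exact hyp
  · refine IsPreconnected.union (e n) ?_ hen hchain (sca_outside R' hR0)
    exact mem_iUnion₂.2 ⟨n, mem_Iic.2 le_rfl, mem_ball_self hδ⟩

theorem sca_sqrt {V : Set ℂ} (hb : Bornology.IsBounded V) (hc : Chain V) {δ : ℝ} (hδ : 0 < δ)
    (h : ℂ → ℂ) (hd : DifferentiableOn ℂ h V) (h0 : ∀ z ∈ V, h z ≠ 0) :
    ∃ g : ℂ → ℂ, ContinuousOn g (scaK V δ) ∧ DifferentiableOn ℂ g (interior (scaK V δ)) ∧
      ∀ z ∈ scaK V δ, g z ^ 2 = h z := by
  have hsub := scaK_sub (V := V) hδ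
  have hHol : Pool.Agent.CMerg.Hol (scaK V δ) h :=
    ⟨hd.continuousOn.mono hsub, hd.mono (interior_subset.trans hsub)⟩
  have hlog : Pool.Agent.CMerg.Stmt_Log := Pool.Agent.CMerg.log
    (Pool.Agent.CMerg.merg Pool.Agent.CMerg.g Pool.Agent.CMerg.smooth)
  obtain ⟨w, hw⟩ := hlog (scaK V δ) h (scaK_compact hb hδ) (sca_conn hb hc hδ) hHol
    (fun z hz => h0 z (hsub hz))
  have hwH := Pool.Agent.CMerg.logHol (scaK V δ) h w hHol hw
  refine ⟨fun z => Complex.exp (w z / 2), ?_, ?_, ?_⟩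
  · exact (hwH.1.div_const 2).cexp
  · exact (hwH.2.div_const 2).cexp
  · intro z hz
    rw [← Complex.exp_nat_mul, ← hw.2 z hz]
    congr 1
    push_cast
    ring

theorem scA : Stmt_SCa := by
  classical
  intro V hV hVc hb hc h hd h0
  obtain ⟨z0, hz0⟩ := hVc.nonempty
  have hVne : (Vᶜ).Nonempty := by
    by_contra hcon
    rw [not_nonempty_iff_eq_empty, compl_empty_iff] at hcon
    rw [hcon] at hb
    exact NormedSpace.unbounded_univ ℝ ℂ hb
  -- the exhaustion
  obtain ⟨δ, hδ⟩ : ∃ δ : ℕ → ℝ, δ = fun (n : ℕ) => 1 / ((n : ℝ) + 1) := ⟨_, rfl⟩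
  have hδpos : ∀ n, 0 < δ n := by intro n; rw [hδ]; positivity
  have hδanti : ∀ n m, n ≤ m → δ m ≤ δ n := by
    intro n m hnm
    rw [hδ]
    exact one_div_le_one_div_of_le (by positivity) (by exact_mod_cast Nat.succ_le_succ hnm)
  -- square root of the value at the base point
  obtain ⟨s0, hs0⟩ : ∃ s0 : ℂ, s0 ^ 2 = h z0 := IsAlgClosed.exists_pow_nat_eq _ (by norm_num)
  have hG : ∀ n, ∃ g : ℂ → ℂ, ContinuousOn g (scaK V (δ n)) ∧
      DifferentiableOn ℂ g (interior (scaK V (δ n))) ∧ (∀ z ∈ scaK V (δ n), g z ^ 2 = h z) ∧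
      (z0 ∈ scaK V (δ n) → g z0 = s0) := by
    intro n
    obtain ⟨g, g1, g2, g3⟩ := sca_sqrt hb hc (hδpos n) h hd h0
    by_cases hz : z0 ∈ scaK V (δ n)
    · have h1 : g z0 ^ 2 = s0 ^ 2 := by rw [g3 z0 hz, hs0]
      rcases sq_eq_sq_iff_eq_or_eq_neg.1 h1 with h2 | h2
      · exact ⟨g, g1, g2, g3, fun _ => h2⟩
      · refine ⟨fun z => -g z, g1.neg, g2.neg, fun z hz => ?_, fun _ => ?_⟩
        · rw [neg_sq]; exact g3 z hz
        · change -g z0 = s0
          rw [h2, neg_neg]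
    · exact ⟨g, g1, g2, g3, fun h => absurd h hz⟩
  choose G G1 G2 G3 G4 using hG
  obtain ⟨U, hU⟩ : ∃ U : ℕ → Set ℂ, U = fun n =>
      connectedComponentIn (interior (scaK V (δ n))) z0 := ⟨_, rfl⟩
  have hUsub : ∀ n, U n ⊆ interior (scaK V (δ n)) := by
    intro n; rw [hU]; exact connectedComponentIn_subset _ _
  have hUo : ∀ n, IsOpen (U n) := by
    intro n; rw [hU]; exact isOpen_interior.connectedComponentIn
  have hUc : ∀ n, IsPreconnected (U n) := by
    intro n; rw [hU]; exact isPreconnected_connectedComponentIn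
  have hUz : ∀ n z, z ∈ U n → z0 ∈ U n := by
    intro n z hz
    rw [hU] at hz ⊢
    have hne : (connectedComponentIn (interior (scaK V (δ n))) z0).Nonempty := ⟨z, hz⟩
    exact mem_connectedComponentIn (connectedComponentIn_nonempty_iff.1 hne)
  have hKmono : ∀ n m, n ≤ m → scaK V (δ n) ⊆ scaK V (δ m) := by
    intro n m hnm z hz
    exact (hδanti n m hnm).trans hz
  have hUmono : ∀ n m, n ≤ m → U n ⊆ U m := by
    intro n m hnm
    rw [hU]
    exact connectedComponentIn_mono _ (interior_mono (hKmono n m hnm))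
  have hcov : ∀ z ∈ V, ∃ n, z ∈ U n := by
    intro z hz
    have hpc := (hV.isConnected_iff_isPathConnected).1 hVc
    obtain ⟨γ, hγ⟩ := hpc.joinedIn z0 hz0 z hz
    have hcomp : IsCompact (range γ) := isCompact_range γ.continuous
    obtain ⟨y, hy, hmin⟩ := hcomp.exists_isMinOn ⟨γ 0, mem_range_self _⟩
      ((continuous_infDist_pt (Vᶜ)).continuousOn)
    have hyV : y ∈ V := by
      obtain ⟨t, rfl⟩ := hy
      exact hγ t
    have hpos : 0 < infDist y Vᶜ := by
      rcases lt_or_eq_of_le (infDist_nonneg (x := y) (s := Vᶜ)) with h1 | h1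
      · exact h1
      · exfalso
        have h2 : y ∈ closure Vᶜ := (mem_closure_iff_infDist_zero hVne).2 h1.symm
        rw [hV.isClosed_compl.closure_eq] at h2
        exact h2 hyV
    obtain ⟨n, hn⟩ := exists_nat_one_div_lt hpos
    have hsub : range γ ⊆ interior (scaK V (δ n)) := by
      have ho : IsOpen {z : ℂ | δ n < infDist z Vᶜ} :=
        isOpen_lt continuous_const (continuous_infDist_pt _)
      have h1 : {z : ℂ | δ n < infDist z Vᶜ} ⊆ interior (scaK V (δ n)) :=
        interior_maximal (fun z hz => (show δ n ≤ infDist z Vᶜ from le_of_lt hz)) ho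
      intro x hx
      refine h1 ?_
      have h2 : infDist y Vᶜ ≤ infDist x Vᶜ := hmin hx
      have h3 : δ n < infDist y Vᶜ := by rw [hδ]; exact hn
      exact lt_of_lt_of_le h3 h2
    refine ⟨n, ?_⟩
    rw [hU]
    have h4 : IsPreconnected (range γ) := isPreconnected_range γ.continuous
    have h5 : z0 ∈ range γ := ⟨0, γ.source⟩
    have h6 : z ∈ range γ := ⟨1, γ.target⟩
    exact (h4.subset_connectedComponentIn h5 hsub) h6
  -- agreement
  have hagree : ∀ n m, n ≤ m → EqOn (G n) (G m) (U n) := by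
    intro n m hnm z hz
    have hz0U := hUz n z hz
    have hUK : U n ⊆ scaK V (δ n) := (hUsub n).trans interior_subset
    have hUKm : U n ⊆ scaK V (δ m) := hUK.trans (hKmono n m hnm)
    refine IsPreconnected.eq_of_sq_eq (hUc n) ((G1 n).mono hUK) ((G1 m).mono hUKm) ?_ ?_ hz0U ?_ hz
    · intro x hx
      change G n x ^ 2 = G m x ^ 2
      rw [G3 n x (hUK hx), G3 m x (hUKm hx)]
    · intro x hx hx0
      have h1 := G3 m x (hUKm hx)
      rw [hx0] at h1
      exact h0 x (scaK_sub (hδpos m) (hUKm hx)) (by rw [← h1]; ring)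
    · rw [G4 n (hUK hz0U), G4 m (hUKm hz0U)]
  -- the glued function
  let N : ℂ → ℕ := fun z => if hz : ∃ n, z ∈ U n then Nat.find hz else 0
  have hN : ∀ n z, z ∈ U n → G (N z) z = G n z := by
    intro n z hz
    have hex : ∃ n, z ∈ U n := ⟨n, hz⟩
    have h1 : N z = Nat.find hex := dif_pos hex
    have h2 : z ∈ U (N z) := by rw [h1]; exact Nat.find_spec hex
    have h3 : N z ≤ n := by rw [h1]; exact Nat.find_min' hex hz
    exact hagree (N z) n h3 h2
  refine ⟨fun z => G (N z) z, ?_, ?_⟩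
  · intro z hz
    obtain ⟨n, hn⟩ := hcov z hz
    have hd1 : DifferentiableAt ℂ (G n) z :=
      ((G2 n).mono (hUsub n)).differentiableAt ((hUo n).mem_nhds hn)
    have hev : (fun z => G (N z) z) =ᶠ[𝓝 z] G n := by
      filter_upwards [(hUo n).mem_nhds hn] with x hx
      exact hN n x hx
    exact (hd1.congr_of_eventuallyEq hev).differentiableWithinAt
  · intro z hz
    obtain ⟨n, hn⟩ := hcov z hz
    change G (N z) z ^ 2 = h z
    rw [hN n z hn]
    exact G3 n z (interior_subset (hUsub n hn))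

end Pool.Agent.AS
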