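import Pool.Agent.AS.Defs

set_option autoImplicit false

/-! # Square roots of `z - p` on a set without holes (module Sqrt) -/

namespace Pool.Agent.AS

open Complex Metric Set Filter Topology

theorem sqrt_ratio_mem {z a b : ℂ} (h : dist a b < dist z b) :
    (z - a) / (z - b) ∈ slitPlane := by
  have hzb : z - b ≠ 0 := by
    intro h0
    rw [sub_eq_zero.1 h0, dist_self] at h
    exact absurd h (not_lt.2 dist_nonneg)
  have h1 : (z - a) / (z - b) = 1 + (b - a) / (z - b) := by
    field_simp
    ring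
  rw [h1]
  refine mem_slitPlane_of_norm_lt_one ?_
  rw [norm_div, div_lt_one (norm_pos_iff.2 hzb), ← dist_eq_norm, ← dist_eq_norm, dist_comm]
  exact h

theorem sqrt_prod {n : ℕ} (z : ℂ) (e : ℕ → ℂ) (h : ∀ i ≤ n, z - e i ≠ 0) :
    ∏ i ∈ Finset.range n, (z - e i) / (z - e (i + 1)) = (z - e 0) / (z - e n) := by
  induction n with
  | zero => simp [div_self (h 0 le_rfl)]
  | succ n ih =>
    rw [Finset.prod_range_succ, ih fun i hi => h i (by omega)]
    have h1 := h n (by omega)
    have h2 := h (n + 1) le_rfl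
    field_simp

theorem sqrtChain : Stmt_Sqrt := by
  intro Ω _ hb hchain p hp ε hε
  obtain ⟨B, hB⟩ := hb.exists_norm_le
  obtain ⟨n, e, he0, heΩ, hstep, hT⟩ := hchain p hp ε hε (max B 0)
  have hen : e n ≠ 0 := by
    intro h0
    rw [h0, norm_zero] at hT
    exact absurd (le_max_right B 0) (not_le.2 hT)
  obtain ⟨c, hc⟩ := IsAlgClosed.exists_pow_nat_eq (-(e n)) (n := 2) two_pos
  -- facts on the set
  have hfar : ∀ z : ℂ, ε < infDist z Ωᶜ → ∀ i ≤ n, ε < dist z (e i) := by
    intro z hz i hi
    exact hz.trans_le (infDist_le_dist_of_mem (heΩ i hi))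
  have hzΩ : ∀ z : ℂ, ε < infDist z Ωᶜ → z ∈ Ω := by
    intro z hz
    by_contra h
    rw [infDist_zero_of_mem (show z ∈ Ωᶜ from h)] at hz
    exact absurd hz (not_lt.2 hε.le)
  have hne : ∀ z : ℂ, ε < infDist z Ωᶜ → ∀ i ≤ n, z - e i ≠ 0 := by
    intro z hz i hi h0
    have := hfar z hz i hi
    rw [sub_eq_zero.1 h0, dist_self] at this
    exact absurd this (not_lt.2 hε.le)
  have hslit1 : ∀ z : ℂ, ε < infDist z Ωᶜ → ∀ i ∈ Finset.range n,
      (z - e i) / (z - e (i + 1)) ∈ slitPlane := by
    intro z hz i hi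
    have hi' := Finset.mem_range.1 hi
    exact sqrt_ratio_mem ((hstep i hi').trans (hfar z hz (i + 1) (by omega)))
  have hslit2 : ∀ z : ℂ, ε < infDist z Ωᶜ → 1 - z / e n ∈ slitPlane := by
    intro z hz
    rw [sub_eq_add_neg]
    refine mem_slitPlane_of_norm_lt_one ?_
    rw [norm_neg, norm_div, div_lt_one (norm_pos_iff.2 hen)]
    exact (hB z (hzΩ z hz)).trans_lt ((le_max_left B 0).trans_lt hT)
  refine ⟨fun z => c * exp ((1 / 2) * (∑ i ∈ Finset.range n, log ((z - e i) / (z - e (i + 1))) +
    log (1 - z / e n))), ?_, ?_⟩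
  · intro z hz
    have hz' : ε < infDist z Ωᶜ := hz
    refine DifferentiableAt.differentiableWithinAt ?_
    refine DifferentiableAt.const_mul (DifferentiableAt.cexp (DifferentiableAt.const_mul
      (DifferentiableAt.add (DifferentiableAt.fun_sum fun i hi => ?_) ?_) _)) _
    · refine DifferentiableAt.clog ?_ (hslit1 z hz' i hi)
      refine DifferentiableAt.div (by fun_prop) (by fun_prop) ?_
      have hi' := Finset.mem_range.1 hi
      exact hne z hz' (i + 1) (by omega)
    · exact DifferentiableAt.clog (by fun_prop) (hslit2 z hz')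
  · intro z hz
    have h1 : (c * exp ((1 / 2) * (∑ i ∈ Finset.range n, log ((z - e i) / (z - e (i + 1))) +
        log (1 - z / e n)))) ^ 2 = c ^ 2 * exp (∑ i ∈ Finset.range n,
          log ((z - e i) / (z - e (i + 1))) + log (1 - z / e n)) := by
      rw [mul_pow, ← exp_nat_mul]
      congr 2
      push_cast
      ring
    rw [h1, exp_add, exp_sum, hc]
    have h2 : ∏ i ∈ Finset.range n, exp (log ((z - e i) / (z - e (i + 1)))) =
        ∏ i ∈ Finset.range n, (z - e i) / (z - e (i + 1)) :=
      Finset.prod_congr rfl fun i hi => exp_log (slitPlane_ne_zero (hslit1 z hz i hi))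
    rw [h2, exp_log (slitPlane_ne_zero (hslit2 z hz)), sqrt_prod z e (hne z hz), he0]
    have h3 := hne z hz n le_rfl
    field_simp
    ring

end Pool.Agent.AS
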